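import Pool.Agent.Work.MP_8c604c_gt.H.Defs

/-!
Basic objects: vertical coordinate, horizontal projection, the auxiliary metric `GG`, the open set
`OO`, the group action `act`, the geodesic flow structure `Geo`, the unit speed flow `psi`,
Jacobi fields, the Blaschke hypotheses `Bl`.
-/

set_option maxSynthPendingDepth 3
set_option linter.unusedSectionVars false

open Set Filter Topology MeasureTheory
open scoped ContDiff Quaternion

noncomputable section
namespace Pool.Agent.Work.MP_8c604c_gt.H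

variable {n : ℕ}

instance : MeasurableSpace ℍ := borel ℍ
instance : BorelSpace ℍ := ⟨rfl⟩

/-- Phase space upstairs. -/
abbrev VV (n : ℕ) : Type := E n × E n

/-- The quaternionic Hermitian form, left linear in the second argument. -/
def hm (z u : E n) : ℍ := ∑ i, u i * star (z i)

/-- The Hermitian form as a real bilinear map. -/
def hmL (n : ℕ) : E n →L[ℝ] E n →L[ℝ] ℍ :=
  LinearMap.toContinuousLinearMap
    (((LinearMap.toContinuousLinearMap : (E n →ₗ[ℝ] ℍ) ≃ₗ[ℝ] E n →L[ℝ] ℍ) :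
      (E n →ₗ[ℝ] ℍ) →ₗ[ℝ] E n →L[ℝ] ℍ).comp (LinearMap.mk₂ ℝ hm
      (fun z z' u => by simp [hm, mul_add, Finset.sum_add_distrib])
      (fun r z u => by simp [hm, Finset.smul_sum])
      (fun z u u' => by simp [hm, add_mul, Finset.sum_add_distrib])
      (fun r z u => by simp [hm, Finset.smul_sum])))

/-- The real part as a continuous linear map. -/
def reL : ℍ →L[ℝ] ℝ := innerSL ℝ (1 : ℍ)

/-- The Euclidean form on the quaternions. -/
def qinL : ℍ →L[ℝ] ℍ →L[ℝ] ℝ := innerSL ℝ (E := ℍ)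

/-- Vertical coordinate `<z,u>/|z|^2` as a real linear map in `u`. -/
def nuL (z : E n) : E n →L[ℝ] ℍ := ((‖z‖ ^ 2)⁻¹ : ℝ) • hmL n z

/-- Vertical coordinate. -/
def nu (z u : E n) : ℍ := nuL z u

/-- Horizontal projection as a real linear map. -/
def horL (z : E n) : E n →L[ℝ] E n :=
  ContinuousLinearMap.id ℝ (E n) - ((ContinuousLinearMap.lsmul ℝ ℍ).flip z).comp (nuL z)

/-- Horizontal projection. -/
def hor (z u : E n) : E n := horL z u

/-- The form `Re nu = d log |z|`. -/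
def rhL (z : E n) : E n →L[ℝ] ℝ := reL.comp (nuL z)

/-- Positive definite completion of `g`. -/
def GG (g : Met n) : Met n := fun z =>
  g z + qinL.bilinearComp (nuL z) (nuL z)

/-- Gram determinant in a Euclidean orthonormal basis. -/
def bdet (B : E n →L[ℝ] E n →L[ℝ] ℝ) : ℝ :=
  (Matrix.of fun i j => B (stdOrthonormalBasis ℝ (E n) i) (stdOrthonormalBasis ℝ (E n) j)).det

/-- Determinant of the completed metric. -/
def detG (g : Met n) (z : E n) : ℝ := bdet (GG g z)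

/-- Pairs with non-vertical second component. -/
def OO (n : ℕ) : Set (VV n) := {x | x.1 ≠ 0 ∧ ∀ c : ℍ, x.2 ≠ c • x.1}

/-- The nine-dimensional group acting on `OO`, with quotient the unit tangent bundle. -/
def act (l : ℍ) (m : ℝ) (c : ℍ) (x : VV n) : VV n := (l • x.1, l • (m • x.2 + c • x.1))

/-- Speed. -/
def spd (g : Met n) (x : VV n) : ℝ := √(g x.1 x.2 x.2)

/-- Unit horizontal velocity. -/
def vel (g : Met n) (x : VV n) : E n := (spd g x)⁻¹ • hor x.1 x.2

/-- The Lagrangian. -/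
def Lg (g : Met n) (p : VV n) : ℝ := 1 / 2 * g p.1 p.2 p.2

/-- Hessian of the Lagrangian. -/
def D2 (g : Met n) (p a b : VV n) : ℝ := fderiv ℝ (fderiv ℝ (Lg g)) p a b

/-- The directions `c z + a w` of `E n` that do not move the geodesic. -/
def Bs (x : VV n) : Submodule ℝ (E n) :=
  Submodule.span ℝ (range ![x.1, qi • x.1, qj • x.1, qk • x.1, x.2])

/-- Tangent space of the orbits of `act`. -/
def Bdir (x : VV n) : Submodule ℝ (VV n) :=
  Submodule.span ℝ (range ![x, qi • x, qj • x, qk • x, (0, x.1), (0, qi • x.1), (0, qj • x.1),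
    (0, qk • x.1), (0, x.2)])

/-- The liftable geodesic flow upstairs. -/
structure Geo (g : Met n) where
  φ : ℝ → VV n → VV n
  smooth : ContDiffOn ℝ ∞ (fun p : ℝ × VV n => φ p.1 p.2) {p | p.2.1 ≠ 0}
  zero : ∀ x, x.1 ≠ 0 → φ 0 x = x
  add : ∀ s t x, x.1 ≠ 0 → φ (s + t) x = φ s (φ t x)
  norm_fst : ∀ t x, x.1 ≠ 0 → ‖(φ t x).1‖ = ‖x.1‖
  nu_eq : ∀ t x, x.1 ≠ 0 → nu (φ t x).1 (φ t x).2 = nu x.1 x.2
  energy : ∀ t x, x.1 ≠ 0 → g (φ t x).1 (φ t x).2 (φ t x).2 = g x.1 x.2 x.2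
  deriv_fst : ∀ t x, x.1 ≠ 0 → HasDerivAt (fun s => (φ s x).1) (hor (φ t x).1 (φ t x).2) t
  el : ∀ t x η, x.1 ≠ 0 → HasDerivAt (fun s => g (φ s x).1 (φ s x).2 η)
    (1 / 2 * fderiv ℝ g (φ t x).1 η (hor (φ t x).1 (φ t x).2) (hor (φ t x).1 (φ t x).2)) t
  smul : ∀ (c : ℍ) t x, c ≠ 0 → x.1 ≠ 0 → φ t (c • x) = c • φ t x
  shift : ∀ (c : ℍ) t x, x.1 ≠ 0 →
    φ t (x.1, x.2 + c • x.1) = ((φ t x).1, (φ t x).2 + c • (φ t x).1)
  scale : ∀ (r : ℝ) t x, x.1 ≠ 0 → φ t (x.1, r • x.2) = ((φ (r * t) x).1, r • (φ (r * t) x).2)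
  uniq : ∀ (c : ℝ → E n) (a b t₀ : ℝ), t₀ ∈ Ioo a b → ContDiffOn ℝ ∞ c (Ioo a b) →
    (∀ t ∈ Ioo a b, c t ≠ 0) →
    (∀ t ∈ Ioo a b, ∀ η, HasDerivAt (fun s => g (c s) (deriv c s) η)
      (1 / 2 * fderiv ℝ g (c t) η (deriv c t) (deriv c t)) t) →
    ∀ t ∈ Ioo a b, ∃ l : ℍ, l ≠ 0 ∧ c t = l • (φ (t - t₀) (c t₀, deriv c t₀)).1

namespace Geo
variable {g : Met n} (G : Geo g)

/-- Unit speed flow on `OO`. -/
def psi (t : ℝ) (x : VV n) : VV n := G.φ (t / spd g x) x

/-- Foot point of the unit speed flow. -/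
def Z (t : ℝ) (x : VV n) : E n := (G.psi t x).1

/-- Exponential map at `q`. -/
def ex (q u : E n) : E n := (G.φ 1 (q, u)).1

/-- Jacobi fields (not projected). -/
def JJ (t : ℝ) (x : VV n) : VV n →L[ℝ] E n := fderiv ℝ (G.Z t) x

/-- Their ordinary time derivatives. -/
def JD (t : ℝ) (x : VV n) : VV n →L[ℝ] E n := fderiv ℝ (fun y => vel g (G.psi t y)) x

/-- Horizontal Jacobi fields. -/
def JH (t : ℝ) (x : VV n) : VV n →L[ℝ] E n := (horL (G.Z t x)).comp (G.JJ t x)

/-- Variation of the momentum. -/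
def PP (t : ℝ) (x : VV n) : VV n →L[ℝ] E n →L[ℝ] ℝ :=
  fderiv ℝ (fun y => g (G.Z t y) (vel g (G.psi t y))) x

/-- The exponential map completed by the vertical coordinate. -/
def Ex (q u : E n) : E n := (‖q‖⁻¹ • (1 + nu q u)) • G.ex q u

/-- Riemannian Jacobian of the exponential map. -/
def jac (q u : E n) : ℝ :=
  |(fderiv ℝ (G.Ex q) u).det| * √(detG g (G.Ex q u)) / √(detG g q)

/-- Volume density in geodesic polar coordinates. -/
def th (x : VV n) (τ : ℝ) : ℝ := τ ^ (4 * n - 1) * G.jac x.1 (τ • vel g x)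

/-- Horizontal initial derivatives, normal to the geodesic, of the Jacobi fields vanishing at `0` and at `π/2`. -/
def KS (x : VV n) : Submodule ℝ (E n) :=
  LinearMap.ker (nuL x.1 : E n →ₗ[ℝ] ℍ) ⊓ LinearMap.ker (g x.1 x.2 : E n →ₗ[ℝ] ℝ) ⊓
    LinearMap.ker ((G.JH (Real.pi / 2) x).comp (ContinuousLinearMap.inr ℝ (E n) (E n)) :
      E n →ₗ[ℝ] E n)

/-- The multiplicity of the middle conjugate point. -/
def kk (x : VV n) : ℕ := Module.finrank ℝ (G.KS x)

/-- `K` is an orthonormal frame of `KS x`. -/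
structure IsK {κ : Type} [Fintype κ] [DecidableEq κ] (x : VV n) (K : κ → E n) : Prop where
  hor : ∀ i, nu x.1 (K i) = 0
  perp : ∀ i, g x.1 (K i) x.2 = 0
  on : ∀ i j, g x.1 (K i) (K j) = if i = j then 1 else 0
  ker : ∀ u, G.JH (Real.pi / 2) x (0, u) = 0 ↔ ∃ a : κ → ℝ, u - ∑ i, a i • K i ∈ Bs x

end Geo

/-- The contact form. -/
def al (g : Met n) (x : VV n) : VV n →L[ℝ] ℝ :=
  (g x.1 (vel g x)).comp (ContinuousLinearMap.fst ℝ (E n) (E n))

/-- Its exterior derivative. -/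
def om (g : Met n) (x δ₁ δ₂ : VV n) : ℝ :=
  fderiv ℝ (fun y : VV n => g y.1 (vel g y)) x δ₁ δ₂.1 -
    fderiv ℝ (fun y : VV n => g y.1 (vel g y)) x δ₂ δ₁.1

/-- The model density for multiplicity `k`; `HP^n` has `k = 3`. -/
def thk (n k : ℕ) (τ : ℝ) : ℝ := Real.sin τ ^ (4 * n - 1 - k) * (Real.sin (2 * τ) / 2) ^ k

/-- The model density of `HP^n`. -/
def th0 (n : ℕ) (τ : ℝ) : ℝ := thk n 3 τ

/-- The weight: derivative of the smooth step function. -/
def wt (r : ℝ) : ℝ := deriv Real.smoothTransition r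

/-- `2π^2` times the volume of `HP^n`. -/
def vol (g : Met n) : ℝ := ∫ y : E n, √(detG g y) * wt (Real.log ‖y‖)

/-- The standard metric as a family of bilinear forms. -/
def fsM (n : ℕ) : Met n := fun z =>
  ((‖z‖ ^ 2)⁻¹ : ℝ) • ((innerSL ℝ (E := E n)).bilinearComp (horL z) (horL z))

/-- The Blaschke hypotheses with period `π`. -/
structure Bl (g : Met n) (G : Geo g) : Prop where
  two : 2 ≤ n
  met : IsMetric g
  per : ∀ x ∈ OO n, ∀ t, ∃ c : ℍ, G.Z (t + Real.pi) x = c • G.Z t x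
  min : ∀ x ∈ OO n, ∀ t ∈ Icc 0 (Real.pi / 2), ∀ c, Joins c x.1 (G.Z t x) → t ≤ len g c

/-- Equivariance under `act`. -/
def Eqv (p : VV n → E n) : Prop :=
  ∀ l m c x, l ≠ 0 → 0 < m → x ∈ OO n → p (act l m c x) = l • p x

/-- Invariance under `act`. -/
def Inv {α : Type} (f : VV n → α) : Prop :=
  ∀ l m c x, l ≠ 0 → 0 < m → x ∈ OO n → f (act l m c x) = f x

/-! ### Elementary lemmas -/

theorem two_le_infty : (2 : WithTop ℕ∞) ≤ ∞ := by
  exact WithTop.coe_le_coe.2 (le_top : (2 : ℕ∞) ≤ ⊤)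

theorem finrank_E : Module.finrank ℝ (E n) = 4 * n + 4 := by
  rw [(WithLp.linearEquiv 2 ℝ (Fin (n + 1) → ℍ)).finrank_eq, Module.finrank_pi_fintype]
  simp [Quaternion.finrank_eq_four]
  ring

theorem coe_smul (r : ℝ) (u : E n) : (r : ℍ) • u = r • u := algebraMap_smul ℍ r u

theorem coe_ne_zero {r : ℝ} (hr : r ≠ 0) : (r : ℍ) ≠ 0 := fun h => hr (Quaternion.coe_injective h)

theorem reL_apply (a : ℍ) : reL a = a.re := by
  simp [reL, Quaternion.inner_def]

theorem hmL_apply (z u : E n) : hmL n z u = hm z u := rfl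

theorem hm_add_left (z z' u : E n) : hm (z + z') u = hm z u + hm z' u := by
  rw [← hmL_apply, map_add]; rfl

theorem hm_add_right (z u u' : E n) : hm z (u + u') = hm z u + hm z u' := map_add (hmL n z) u u'

theorem hm_sub_left (z z' u : E n) : hm (z - z') u = hm z u - hm z' u := by
  rw [← hmL_apply, map_sub]; rfl

theorem hm_sub_right (z u u' : E n) : hm z (u - u') = hm z u - hm z u' := map_sub (hmL n z) u u'

theorem hm_neg_left (z u : E n) : hm (-z) u = -hm z u := by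
  rw [← hmL_apply, map_neg]; rfl

theorem hm_neg_right (z u : E n) : hm z (-u) = -hm z u := map_neg (hmL n z) u

theorem hm_zero_left (u : E n) : hm 0 u = 0 := by simp [hm]

theorem hm_zero_right (z : E n) : hm z 0 = 0 := by simp [hm]

theorem hm_smul_right (c : ℍ) (z u : E n) : hm z (c • u) = c * hm z u := by
  simp [hm, Finset.mul_sum, mul_assoc]

theorem hm_smul_left (c : ℍ) (z u : E n) : hm (c • z) u = hm z u * star c := by
  simp [hm, Finset.sum_mul, mul_assoc]

theorem hm_rsmul_right (r : ℝ) (z u : E n) : hm z (r • u) = r • hm z u := map_smul (hmL n z) r u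

theorem hm_rsmul_left (r : ℝ) (z u : E n) : hm (r • z) u = r • hm z u := by
  rw [← hmL_apply, map_smul]; rfl

theorem star_hm (z u : E n) : star (hm z u) = hm u z := by
  simp [hm, star_sum]

theorem inner_re (u w : E n) : inner ℝ u w = (hm u w).re := by
  rw [← reL_apply, hm, map_sum, PiLp.inner_apply]
  refine Finset.sum_congr rfl fun i _ => ?_
  rw [reL_apply, real_inner_comm, Quaternion.inner_def]

theorem q_mul_star (c : ℍ) : c * star c = ((‖c‖ ^ 2 : ℝ) : ℍ) := by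
  rw [Quaternion.self_mul_star, Quaternion.normSq_eq_norm_mul_self, sq]

theorem q_star_mul (c : ℍ) : star c * c = ((‖c‖ ^ 2 : ℝ) : ℍ) := by
  rw [Quaternion.star_mul_self, Quaternion.normSq_eq_norm_mul_self, sq]

theorem q_inv (c : ℍ) : c⁻¹ = (‖c‖ ^ 2)⁻¹ • star c := by
  rw [sq, ← Quaternion.normSq_eq_norm_mul_self]; rfl

theorem hm_self (z : E n) : hm z z = ((‖z‖ ^ 2 : ℝ) : ℍ) := by
  rw [hm, PiLp.norm_sq_eq_of_L2, ← Quaternion.algebraMap_def, map_sum]
  exact Finset.sum_congr rfl fun i _ => q_mul_star _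

theorem q_inner_mul_left (c a b : ℍ) : inner ℝ (c * a) (c * b) = ‖c‖ ^ 2 * inner ℝ a b := by
  rw [sq, ← Quaternion.normSq_eq_norm_mul_self]
  simp only [Quaternion.inner_def, Quaternion.normSq_def', Quaternion.re_mul, Quaternion.imI_mul,
    Quaternion.imJ_mul, Quaternion.imK_mul, Quaternion.re_star, Quaternion.imI_star,
    Quaternion.imJ_star, Quaternion.imK_star]
  ring

theorem q_inner_mul_right (c a b : ℍ) : inner ℝ (a * c) (b * c) = ‖c‖ ^ 2 * inner ℝ a b := by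
  rw [sq, ← Quaternion.normSq_eq_norm_mul_self]
  simp only [Quaternion.inner_def, Quaternion.normSq_def', Quaternion.re_mul, Quaternion.imI_mul,
    Quaternion.imJ_mul, Quaternion.imK_mul, Quaternion.re_star, Quaternion.imI_star,
    Quaternion.imJ_star, Quaternion.imK_star]
  ring

theorem q_inner_conj {c : ℍ} (hc : c ≠ 0) (a b : ℍ) :
    inner ℝ (c * a * c⁻¹) (c * b * c⁻¹) = inner ℝ a b := by
  rw [q_inner_mul_right, q_inner_mul_left, norm_inv]
  have := norm_ne_zero_iff.2 hc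
  field_simp

theorem q_re_conj {c : ℍ} (hc : c ≠ 0) (a : ℍ) : (c * a * c⁻¹).re = a.re := by
  have := q_inner_conj hc 1 a
  rw [mul_one, mul_inv_cancel₀ hc] at this
  rw [← reL_apply, ← reL_apply]
  exact this

theorem q_norm_conj {c : ℍ} (hc : c ≠ 0) (a : ℍ) : ‖c * a * c⁻¹‖ = ‖a‖ := by
  have := norm_ne_zero_iff.2 hc
  rw [norm_mul, norm_mul, norm_inv]
  field_simp

theorem inner_csmul (c : ℍ) (u w : E n) : inner ℝ (c • u) (c • w) = ‖c‖ ^ 2 * inner ℝ u w := by
  simp only [PiLp.inner_apply, PiLp.smul_apply, smul_eq_mul, q_inner_mul_left, Finset.mul_sum]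

theorem inner_csmul_left (c : ℍ) (z u : E n) : inner ℝ (c • z) u = inner ℝ c (hm z u) := by
  rw [inner_re, hm_smul_left, real_inner_comm, Quaternion.inner_def]

theorem contDiff_hm {X : Type} [NormedAddCommGroup X] [NormedSpace ℝ X] {m : WithTop ℕ∞}
    {f f' : X → E n} (hf : ContDiff ℝ m f) (hf' : ContDiff ℝ m f') :
    ContDiff ℝ m fun x => hm (f x) (f' x) :=
  ((hmL n).contDiff.comp hf).clm_apply hf'

theorem continuous_hm {X : Type} [TopologicalSpace X] {f f' : X → E n} (hf : Continuous f)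
    (hf' : Continuous f') : Continuous fun x => hm (f x) (f' x) :=
  ((hmL n).continuous.comp hf).clm_apply hf'

theorem hasDerivAt_hm {z u : ℝ → E n} {z' u' : E n} {t : ℝ} (hz : HasDerivAt z z' t)
    (hu : HasDerivAt u u' t) :
    HasDerivAt (fun s => hm (z s) (u s)) (hm (z t) u' + hm z' (u t)) t :=
  (((hmL n).hasFDerivAt.comp_hasDerivAt t hz).clm_apply hu).congr_deriv (add_comm _ _)

theorem nu_def (z u : E n) : nu z u = (‖z‖ ^ 2)⁻¹ • hm z u := rfl

theorem hor_def (z u : E n) : hor z u = u - nu z u • z := by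
  rfl

theorem nuL_apply (z u : E n) : nuL z u = nu z u := rfl
theorem horL_apply (z u : E n) : horL z u = hor z u := rfl
theorem rhL_apply (z u : E n) : rhL z u = (nu z u).re := reL_apply _

theorem GG_apply (g : Met n) (z u w : E n) :
    GG g z u w = g z u w + inner ℝ (nu z u) (nu z w) := by
  rfl

theorem nu_add (z u w : E n) : nu z (u + w) = nu z u + nu z w := by
  exact map_add (nuL z) u w

theorem nu_sub (z u w : E n) : nu z (u - w) = nu z u - nu z w := map_sub (nuL z) u w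

theorem nu_neg (z u : E n) : nu z (-u) = -nu z u := map_neg (nuL z) u

theorem nu_zero (z : E n) : nu z 0 = 0 := map_zero (nuL z)

theorem nu_rsmul (r : ℝ) (z u : E n) : nu z (r • u) = r • nu z u := map_smul (nuL z) r u

theorem nu_smul (c : ℍ) (z u : E n) : nu z (c • u) = c * nu z u := by
  rw [nu_def, nu_def, hm_smul_right, mul_smul_comm]

theorem nu_self {z : E n} (hz : z ≠ 0) : nu z z = 1 := by
  rw [nu_def, hm_self, Quaternion.smul_coe, inv_mul_cancel₀ (pow_ne_zero 2 (norm_ne_zero_iff.2 hz)),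
    Quaternion.coe_one]

theorem nu_smul_left (c : ℍ) (z u : E n) : nu (c • z) u = nu z u * c⁻¹ := by
  rw [nu_def, nu_def, hm_smul_left, q_inv, norm_smul, mul_pow, mul_inv, smul_mul_smul_comm, mul_comm]

theorem nu_smul_smul (c : ℍ) (z u : E n) : nu (c • z) (c • u) = c * nu z u * c⁻¹ := by
  rw [nu_smul_left, nu_smul]

theorem nu_rsmul_left (r : ℝ) (z u : E n) : nu (r • z) u = r⁻¹ • nu z u := by
  rw [← coe_smul, nu_smul_left, ← Quaternion.coe_inv, Quaternion.mul_coe_eq_smul]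

theorem nu_eq_zero {z u : E n} (hz : z ≠ 0) : nu z u = 0 ↔ hm z u = 0 := by
  rw [nu_def, smul_eq_zero, or_iff_right (inv_ne_zero (pow_ne_zero 2 (norm_ne_zero_iff.2 hz)))]

theorem hm_eq_nu {z : E n} (hz : z ≠ 0) (u : E n) : hm z u = ‖z‖ ^ 2 • nu z u := by
  rw [nu_def, smul_inv_smul₀ (pow_ne_zero 2 (norm_ne_zero_iff.2 hz))]

theorem nu_hor {z : E n} (hz : z ≠ 0) (u : E n) : nu z (hor z u) = 0 := by
  rw [hor_def, nu_sub, nu_smul, nu_self hz, mul_one, sub_self]

theorem hor_smul (c : ℍ) (z u : E n) : hor z (c • u) = c • hor z u := by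
  rw [hor_def, hor_def, nu_smul, smul_sub, mul_smul]

theorem hor_rsmul (r : ℝ) (z u : E n) : hor z (r • u) = r • hor z u := map_smul (horL z) r u

theorem hor_add (z u w : E n) : hor z (u + w) = hor z u + hor z w := map_add (horL z) u w

theorem hor_sub (z u w : E n) : hor z (u - w) = hor z u - hor z w := map_sub (horL z) u w

theorem hor_smul_left {c : ℍ} (hc : c ≠ 0) (z u : E n) : hor (c • z) u = hor z u := by
  rw [hor_def, hor_def, nu_smul_left, smul_smul, inv_mul_cancel_right₀ hc]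

theorem hor_of_nu {z u : E n} (h : nu z u = 0) : hor z u = u := by
  rw [hor_def, h, zero_smul, sub_zero]

theorem hor_eq_zero_iff {z : E n} (hz : z ≠ 0) (u : E n) : hor z u = 0 ↔ ∃ c : ℍ, u = c • z := by
  refine ⟨fun h => ⟨nu z u, sub_eq_zero.1 h⟩, ?_⟩
  rintro ⟨c, rfl⟩
  rw [hor_def, nu_smul, nu_self hz, mul_one, sub_self]

theorem contDiffOn_nuL : ContDiffOn ℝ ∞ (nuL : E n → E n →L[ℝ] ℍ) {0}ᶜ := by
  have h1 : ContDiffOn ℝ ∞ (fun z : E n => (‖z‖ ^ 2)⁻¹) {0}ᶜ :=
    (contDiff_norm_sq ℝ).contDiffOn.inv fun z hz => pow_ne_zero 2 (norm_ne_zero_iff.2 hz)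
  exact h1.smul (hmL n).contDiff.contDiffOn

theorem contDiffOn_horL : ContDiffOn ℝ ∞ (horL : E n → E n →L[ℝ] E n) {0}ᶜ := by
  refine contDiffOn_clm_apply.2 fun u => ?_
  have h1 : ContDiffOn ℝ ∞ (fun z : E n => nuL z u) {0}ᶜ := contDiffOn_nuL.clm_apply contDiffOn_const
  exact contDiffOn_const.sub (h1.smul contDiffOn_id)

theorem contDiffOn_rhL : ContDiffOn ℝ ∞ (rhL : E n → E n →L[ℝ] ℝ) {0}ᶜ := by
  exact contDiffOn_const.clm_comp contDiffOn_nuL

theorem hasFDerivAt_log_norm {z : E n} (hz : z ≠ 0) :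
    HasFDerivAt (fun y : E n => Real.log ‖y‖) (rhL z) z := by
  have h0 : ‖z‖ ^ 2 ≠ 0 := pow_ne_zero 2 (norm_ne_zero_iff.2 hz)
  have h1 := ((hasStrictFDerivAt_norm_sq z).hasFDerivAt.log h0).const_mul (1 / 2 : ℝ)
  refine (h1.congr_fderiv ?_).congr_of_eventuallyEq (Eventually.of_forall fun y => ?_)
  · ext u
    rw [rhL_apply, nu_def, Quaternion.re_smul]
    simp only [smul_apply, smul_eq_mul, innerSL_apply_apply, nsmul_eq_mul, Nat.cast_ofNat]
    rw [inner_re]
    field_simp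
  · simp

theorem mem_OO {x : VV n} : x ∈ OO n ↔ x.1 ≠ 0 ∧ hor x.1 x.2 ≠ 0 := by
  refine and_congr_right fun hz => ?_
  rw [Ne, hor_eq_zero_iff hz, not_exists]

theorem isOpen_OO : IsOpen (OO n) := by
  have : OO n = {x : VV n | x.1 ≠ 0} ∩ (fun x : VV n => hor x.1 x.2) ⁻¹' {0}ᶜ :=
    Set.ext fun x => mem_OO
  rw [this]
  refine ContinuousOn.isOpen_inter_preimage ?_ (isOpen_ne_fun continuous_fst continuous_const)
    isOpen_compl_singleton
  exact (contDiffOn_horL.continuousOn.comp continuousOn_fst fun _ hx => hx).clm_apply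
    continuousOn_snd

theorem q_eq (c : ℍ) : c = c.re • (1 : ℍ) + c.imI • qi + c.imJ • qj + c.imK • qk := by
  ext <;> simp [qi, qj, qk]

theorem csmul_eq (c : ℍ) (u : E n) :
    c • u = c.re • u + c.imI • (qi • u) + c.imJ • (qj • u) + c.imK • (qk • u) := by
  conv_lhs => rw [q_eq c]
  simp only [add_smul, smul_assoc, one_smul]

theorem indep_OO {x : VV n} (hx : x ∈ OO n) {c a : ℍ} (h : c • x.1 + a • x.2 = 0) :
    c = 0 ∧ a = 0 := by
  have ha : a = 0 := by
    by_contra ha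
    refine hx.2 (-(a⁻¹ * c)) (smul_right_injective _ ha ?_)
    simp only
    rw [smul_smul, mul_neg, ← mul_assoc, mul_inv_cancel₀ ha, one_mul, neg_smul]
    exact eq_neg_of_add_eq_zero_right h
  rw [ha, zero_smul, add_zero] at h
  exact ⟨(smul_eq_zero.1 h).resolve_right hx.1, ha⟩

theorem isPreconnected_OO (hn : 1 ≤ n) : IsPreconnected (OO n) := by
  have hr : (1 : Cardinal) < Module.rank ℝ (E n) := by
    rw [← Module.finrank_eq_rank, finrank_E]; exact_mod_cast (by omega : 1 < 4 * n + 4)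
  have fib : ∀ z : E n, z ≠ 0 → IsPreconnected {w | (z, w) ∈ OO n} := fun z hz => by
    let K : Submodule ℝ (E n) := LinearMap.ker (nuL z : E n →ₗ[ℝ] ℍ)
    have hK : (1 : Cardinal) < Module.rank ℝ K := by
      have h1 := LinearMap.finrank_range_add_finrank_ker (nuL z : E n →ₗ[ℝ] ℍ)
      have h2 := Submodule.finrank_le (LinearMap.range (nuL z : E n →ₗ[ℝ] ℍ))
      rw [finrank_E] at h1
      rw [Quaternion.finrank_eq_four] at h2
      rw [← Module.finrank_eq_rank]
      exact_mod_cast (by change 1 < Module.finrank ℝ (LinearMap.ker _); omega)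
    have h3 := ((isConnected_compl_singleton_of_one_lt_rank hK 0).isPreconnected.prod
      (isPreconnected_univ (α := ℍ))).image (fun p : K × ℍ => (p.1 : E n) + p.2 • z)
      (by fun_prop)
    convert h3 using 1
    ext w
    constructor
    · intro hw
      exact ⟨(⟨hor z w, nu_hor hz w⟩, nu z w), ⟨fun h => (mem_OO.1 hw).2 (congrArg Subtype.val h),
        trivial⟩, by simp [hor_def]⟩
    · rintro ⟨⟨k, c⟩, ⟨hk, -⟩, rfl⟩
      refine mem_OO.2 ⟨hz, ?_⟩
      have e : hor z ((k : E n) + c • z) = k := by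
        rw [← horL_apply, map_add, horL_apply, horL_apply, hor_of_nu k.2,
          (hor_eq_zero_iff hz _).2 ⟨c, rfl⟩, add_zero]
      rw [e]
      exact fun h => hk (Subtype.ext h)
  have sw : ∀ z w : E n, (z, w) ∈ OO n → (w, z) ∈ OO n := fun z w h =>
    ⟨fun h0 => h.2 0 (by simpa using h0), fun c hc => by
      have := indep_OO h (c := 1) (a := -c) (by simp only [one_smul, neg_smul]; exact add_neg_eq_zero.2 hc)
      exact one_ne_zero this.1⟩
  have f1 : ∀ z : E n, z ≠ 0 → IsPreconnected {x ∈ OO n | x.1 = z} := fun z hz => by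
    convert (fib z hz).image (fun w => (z, w)) (by fun_prop) using 1
    ext ⟨a, b⟩
    constructor
    · rintro ⟨h, rfl⟩; exact ⟨b, h, rfl⟩
    · rintro ⟨w, h, e⟩; cases e; exact ⟨h, rfl⟩
  have f2 : ∀ z : E n, z ≠ 0 → IsPreconnected {x ∈ OO n | x.2 = z} := fun z hz => by
    convert (fib z hz).image (fun w => (w, z)) (by fun_prop) using 1
    ext ⟨a, b⟩
    constructor
    · rintro ⟨h, rfl⟩; exact ⟨a, sw _ _ h, rfl⟩
    · rintro ⟨w, h, e⟩; cases e; exact ⟨sw _ _ h, rfl⟩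
  refine isPreconnected_of_forall_pair fun x hx y hy => ?_
  obtain ⟨w, hw1, hw2⟩ : ∃ w, (x.1, w) ∈ OO n ∧ (y.1, w) ∈ OO n := by
    by_cases h1 : (y.1, x.2) ∈ OO n
    · exact ⟨x.2, hx, h1⟩
    by_cases h2 : (x.1, y.2) ∈ OO n
    · exact ⟨y.2, h2, hy⟩
    obtain ⟨a, ha⟩ : ∃ a : ℍ, x.2 = a • y.1 := by
      by_contra hc; exact h1 ⟨hy.1, fun c h => hc ⟨c, h⟩⟩
    obtain ⟨b, hb⟩ : ∃ b : ℍ, y.2 = b • x.1 := by
      by_contra hc; exact h2 ⟨hx.1, fun c h => hc ⟨c, h⟩⟩
    refine ⟨x.2 + y.2, ⟨hx.1, fun c h => hx.2 (c - b) ?_⟩, ⟨hy.1, fun c h => hy.2 (c - a) ?_⟩⟩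
    · rw [sub_smul, ← hb]; exact eq_sub_of_add_eq h
    · rw [sub_smul, ← ha]; exact eq_sub_of_add_eq' h
  have hw : w ≠ 0 := (sw _ _ hw1).1
  refine ⟨({v ∈ OO n | v.1 = x.1} ∪ {v ∈ OO n | v.2 = w}) ∪ {v ∈ OO n | v.1 = y.1}, ?_,
    Or.inl (Or.inl ⟨hx, rfl⟩), Or.inr ⟨hy, rfl⟩, ?_⟩
  · rintro v ((h | h) | h) <;> exact h.1
  · exact IsPreconnected.union (y.1, w) (Or.inr ⟨hw2, rfl⟩) ⟨hw2, rfl⟩
      (IsPreconnected.union (x.1, w) ⟨hw1, rfl⟩ ⟨hw1, rfl⟩ (f1 _ hx.1) (f2 _ hw)) (f1 _ hy.1)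

theorem act_mem {l : ℍ} {m : ℝ} (c : ℍ) {x : VV n} (hl : l ≠ 0) (hm : 0 < m) (hx : x ∈ OO n) :
    act l m c x ∈ OO n := by
  refine mem_OO.2 ⟨smul_ne_zero hl hx.1, ?_⟩
  simp only [act]
  rw [hor_smul_left hl, hor_smul, hor_add, hor_rsmul, (hor_eq_zero_iff hx.1 _).2 ⟨c, rfl⟩, add_zero]
  exact smul_ne_zero hl (smul_ne_zero hm.ne' (mem_OO.1 hx).2)

theorem nu_act {l : ℍ} (m : ℝ) (c : ℍ) {x : VV n} (hx : x.1 ≠ 0) :
    nu (act l m c x).1 (act l m c x).2 = l * (m • nu x.1 x.2 + c) * l⁻¹ := by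
  simp only [act]
  rw [nu_smul_smul, nu_add, nu_rsmul, nu_smul, nu_self hx, mul_one]

theorem act_act (l l' : ℍ) (m m' : ℝ) (c c' : ℍ) (x : VV n) (hl' : l' ≠ 0) :
    act l m c (act l' m' c' x) = act (l * l') (m * m') (m • c' + l'⁻¹ * c * l') x := by
  refine Prod.ext (smul_smul _ _ _) ?_
  simp only [act]
  rw [mul_smul l l', smul_add l', smul_add l', add_smul, smul_add l', smul_add m, mul_smul m m',
    smul_comm l' m, smul_assoc, smul_comm l' m, add_assoc, smul_smul l' (_ * _ * _), ← mul_assoc,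
    mul_inv_cancel_left₀ hl', mul_smul c]

theorem act_one (x : VV n) : act 1 1 0 x = x := by simp [act]

theorem act_smul (l : ℍ) (x : VV n) : act l 1 0 x = l • x := by simp [act, Prod.ext_iff]

/-- A compact slice meeting every orbit. -/
def slice (n : ℕ) : Set (VV n) := {x | ‖x.1‖ = 1 ∧ ‖x.2‖ = 1 ∧ nu x.1 x.2 = 0}

theorem isCompact_slice : IsCompact (slice n) := by
  have hc : IsClosed (slice n) := by
    have : slice n = {x : VV n | ‖x.1‖ = 1} ∩ ({x | ‖x.2‖ = 1} ∩ {x | hm x.1 x.2 = (0 : ℍ)}) := by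
      ext x
      refine and_congr_right fun h1 => and_congr_right fun _ => ?_
      exact nu_eq_zero (by rw [← norm_ne_zero_iff, h1]; exact one_ne_zero)
    rw [this]
    exact (isClosed_eq continuous_fst.norm continuous_const).inter
      ((isClosed_eq continuous_snd.norm continuous_const).inter
        (isClosed_eq (continuous_hm continuous_fst continuous_snd) continuous_const))
  refine ((isCompact_sphere (0 : E n) 1).prod (isCompact_sphere (0 : E n) 1)).of_isClosed_subset hc ?_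
  exact fun x hx => ⟨by simpa using hx.1, by simpa using hx.2.1⟩

theorem slice_subset : slice n ⊆ OO n := by
  intro x hx
  have h1 : x.1 ≠ 0 := by rw [← norm_ne_zero_iff, hx.1]; exact one_ne_zero
  refine mem_OO.2 ⟨h1, ?_⟩
  rw [hor_of_nu hx.2.2, ← norm_ne_zero_iff, hx.2.1]
  exact one_ne_zero

theorem exists_slice {x : VV n} (hx : x ∈ OO n) :
    ∃ y ∈ slice n, ∃ (l m : ℝ) (c : ℍ), 0 < l ∧ 0 < m ∧ x = act (l : ℍ) m c y := by
  obtain ⟨h1, h2⟩ := mem_OO.1 hx
  have n1 := norm_pos_iff.2 h1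
  have n2 := norm_pos_iff.2 h2
  refine ⟨(‖x.1‖⁻¹ • x.1, ‖hor x.1 x.2‖⁻¹ • hor x.1 x.2), ⟨?_, ?_, ?_⟩, ‖x.1‖,
    ‖hor x.1 x.2‖ / ‖x.1‖, nu x.1 x.2, n1, div_pos n2 n1, ?_⟩
  · simp [norm_smul, n1.ne']
  · simp [norm_smul, n2.ne']
  · simp only
    rw [nu_rsmul_left, nu_rsmul, nu_hor h1, smul_zero, smul_zero]
  · refine Prod.ext ?_ ?_
    · simp only [act]
      rw [coe_smul, smul_smul, mul_inv_cancel₀ n1.ne', one_smul]
    · simp only [act]
      rw [coe_smul, smul_add, smul_smul, smul_smul, smul_comm (nu x.1 x.2), smul_smul,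
        mul_inv_cancel₀ n1.ne', one_smul,
        show ‖x.1‖ * (‖hor x.1 x.2‖ / ‖x.1‖) * ‖hor x.1 x.2‖⁻¹ = 1 by field_simp, one_smul, hor_def,
        sub_add_cancel]

theorem mem_Bs {x : VV n} {u : E n} : u ∈ Bs x ↔ ∃ (c : ℍ) (a : ℝ), u = c • x.1 + a • x.2 := by
  rw [Bs, Submodule.mem_span_range_iff_exists_fun]
  constructor
  · rintro ⟨a, rfl⟩
    exact ⟨⟨a 0, a 1, a 2, a 3⟩, a 4, by
      rw [csmul_eq (⟨a 0, a 1, a 2, a 3⟩ : ℍ)]; simp [Fin.sum_univ_succ, add_assoc]⟩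
  · rintro ⟨c, a, rfl⟩
    exact ⟨![c.re, c.imI, c.imJ, c.imK, a], by rw [csmul_eq c]; simp [Fin.sum_univ_succ, add_assoc]⟩

theorem mem_Bdir {x v : VV n} :
    v ∈ Bdir x ↔ ∃ (l c : ℍ) (a : ℝ), v = (l • x.1, l • x.2 + c • x.1 + a • x.2) := by
  rw [Bdir, Submodule.mem_span_range_iff_exists_fun]
  constructor
  · rintro ⟨a, rfl⟩
    refine ⟨⟨a 0, a 1, a 2, a 3⟩, ⟨a 4, a 5, a 6, a 7⟩, a 8, ?_⟩
    rw [csmul_eq (⟨a 0, a 1, a 2, a 3⟩ : ℍ) x.1, csmul_eq (⟨a 0, a 1, a 2, a 3⟩ : ℍ) x.2,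
      csmul_eq (⟨a 4, a 5, a 6, a 7⟩ : ℍ) x.1]
    simp [Fin.sum_univ_succ, add_assoc, Prod.ext_iff]
  · rintro ⟨l, c, a, rfl⟩
    refine ⟨![l.re, l.imI, l.imJ, l.imK, c.re, c.imI, c.imJ, c.imK, a], ?_⟩
    rw [csmul_eq l x.1, csmul_eq l x.2, csmul_eq c x.1]
    simp [Fin.sum_univ_succ, add_assoc, Prod.ext_iff]

theorem finrank_Bs {x : VV n} (hx : x ∈ OO n) : Module.finrank ℝ (Bs x) = 5 := by
  let f : (ℍ × ℝ) →ₗ[ℝ] E n :=
    { toFun := fun p => p.1 • x.1 + p.2 • x.2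
      map_add' := fun p q => by simp only [Prod.fst_add, Prod.snd_add, add_smul]; abel
      map_smul' := fun r p => by simp [mul_smul] }
  have hr : Bs x = LinearMap.range f := Submodule.ext fun u => by
    rw [mem_Bs]
    exact ⟨fun ⟨c, a, h⟩ => ⟨(c, a), h.symm⟩, fun ⟨p, h⟩ => ⟨p.1, p.2, h.symm⟩⟩
  have hi : Function.Injective f := by
    rw [injective_iff_map_eq_zero]
    rintro ⟨c, a⟩ h
    obtain ⟨h1, h2⟩ := indep_OO hx (c := c) (a := a) (by rw [coe_smul]; exact h)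
    exact Prod.ext h1 (Quaternion.coe_injective h2)
  rw [hr, LinearMap.finrank_range_of_inj hi]
  simp [Quaternion.finrank_eq_four]

theorem finrank_Bdir {x : VV n} (hx : x ∈ OO n) : Module.finrank ℝ (Bdir x) = 9 := by
  let f : (ℍ × ℍ × ℝ) →ₗ[ℝ] VV n :=
    { toFun := fun p => (p.1 • x.1, p.1 • x.2 + p.2.1 • x.1 + p.2.2 • x.2)
      map_add' := fun p q => Prod.ext (by simp [add_smul])
        (by simp only [Prod.fst_add, Prod.snd_add, add_smul]; abel)
      map_smul' := fun r p => Prod.ext (by simp) (by simp [mul_smul]) }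
  have hr : Bdir x = LinearMap.range f := Submodule.ext fun u => by
    rw [mem_Bdir]
    exact ⟨fun ⟨l, c, a, h⟩ => ⟨(l, c, a), h.symm⟩, fun ⟨p, h⟩ => ⟨p.1, p.2.1, p.2.2, h.symm⟩⟩
  have hi : Function.Injective f := by
    rw [injective_iff_map_eq_zero]
    rintro ⟨l, c, a⟩ h
    have h0 : l = 0 := (smul_eq_zero.1 (congrArg Prod.fst h)).resolve_right hx.1
    subst h0
    obtain ⟨h1, h2⟩ := indep_OO hx (c := c) (a := a) (by
      rw [coe_smul]; simpa [f] using congrArg Prod.snd h)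
    exact Prod.ext rfl (Prod.ext h1 (Quaternion.coe_injective h2))
  rw [hr, LinearMap.finrank_range_of_inj hi]
  simp [Quaternion.finrank_eq_four]

theorem bdet_comp (B : E n →L[ℝ] E n →L[ℝ] ℝ) (T : E n →L[ℝ] E n) :
    bdet (B.bilinearComp T T) = T.det ^ 2 * bdet B := by
  set b := (stdOrthonormalBasis ℝ (E n)).toBasis with hb
  have e : ∀ C : E n →L[ℝ] E n →L[ℝ] ℝ, bdet C = (LinearMap.toMatrix₂ b b C.toLinearMap₁₂).det :=
    fun C => by
      unfold bdet; congr 1; ext i j; simp [hb]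
  have e2 : (B.bilinearComp T T).toLinearMap₁₂ =
      B.toLinearMap₁₂.compl₁₂ (T : E n →ₗ[ℝ] E n) (T : E n →ₗ[ℝ] E n) := by
    ext u w; rfl
  rw [e, e, e2, LinearMap.toMatrix₂_compl₁₂ b b b b, Matrix.det_mul, Matrix.det_mul,
    Matrix.det_transpose, LinearMap.det_toMatrix]
  change T.det * _ * T.det = _
  ring

theorem bdet_inner : bdet (innerSL ℝ (E := E n) : E n →L[ℝ] E n →L[ℝ] ℝ) = 1 := by
  have : (Matrix.of fun i j => (innerSL ℝ (E := E n) : E n →L[ℝ] E n →L[ℝ] ℝ)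
      (stdOrthonormalBasis ℝ (E n) i) (stdOrthonormalBasis ℝ (E n) j)) = 1 := by
    ext i j
    exact (orthonormal_iff_ite.1 (stdOrthonormalBasis ℝ (E n)).orthonormal i j).trans
      (Matrix.one_apply ..).symm
  rw [bdet, this, Matrix.det_one]

theorem bdet_smul (r : ℝ) (B : E n →L[ℝ] E n →L[ℝ] ℝ) : bdet (r • B) = r ^ (4 * n + 4) * bdet B := by
  have : (Matrix.of fun i j => (r • B) (stdOrthonormalBasis ℝ (E n) i) (stdOrthonormalBasis ℝ (E n) j))
      = r • Matrix.of fun i j => B (stdOrthonormalBasis ℝ (E n) i) (stdOrthonormalBasis ℝ (E n) j) := rfl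
  rw [bdet, this, Matrix.det_smul, Fintype.card_fin, bdet, ← finrank_E]

theorem det_csmul (c : ℍ) : (c • ContinuousLinearMap.id ℝ (E n)).det = ‖c‖ ^ (4 * n + 4) := by
  have sq : ∀ c : ℍ, (c • ContinuousLinearMap.id ℝ (E n)).det ^ 2 = (‖c‖ ^ (4 * n + 4)) ^ 2 := fun c => by
    have h1 := bdet_comp (innerSL ℝ (E := E n) : E n →L[ℝ] E n →L[ℝ] ℝ) (c • ContinuousLinearMap.id ℝ (E n))
    have h2 : (innerSL ℝ (E := E n) : E n →L[ℝ] E n →L[ℝ] ℝ).bilinearComp
        (c • ContinuousLinearMap.id ℝ (E n)) (c • ContinuousLinearMap.id ℝ (E n)) =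
        ‖c‖ ^ 2 • (innerSL ℝ (E := E n) : E n →L[ℝ] E n →L[ℝ] ℝ) := by
      ext u w
      exact inner_csmul c u w
    rw [h2, bdet_smul, bdet_inner, mul_one, mul_one] at h1
    rw [← h1, ← pow_mul, ← pow_mul, mul_comm]
  refine (sq_eq_sq₀ ?_ (by positivity)).1 (sq c)
  rcases eq_or_ne c 0 with rfl | hc
  · have := sq 0
    rw [norm_zero, zero_pow (by omega), zero_pow two_ne_zero, pow_eq_zero_iff two_ne_zero] at this
    exact this.ge
  have hr : (1 : Cardinal) < Module.rank ℝ ℍ := by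
    rw [Quaternion.rank_eq_four]; norm_num
  have hco : Continuous fun c : ℍ => (c • ContinuousLinearMap.id ℝ (E n)).det :=
    ContinuousLinearMap.continuous_det.comp (ContinuousLinearMap.lsmul ℝ ℍ (E := E n)).continuous
  by_contra hneg
  obtain ⟨a, ha, h0⟩ := (isConnected_compl_singleton_of_one_lt_rank hr 0).isPreconnected.intermediate_value
    (a := c) (b := 1) hc (one_ne_zero : (1 : ℍ) ≠ 0) hco.continuousOn
    (⟨(not_le.1 hneg).le, by simp [ContinuousLinearMap.det]⟩ : (0 : ℝ) ∈ Icc _ _)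
  have := sq a
  simp only at h0
  rw [h0, zero_pow two_ne_zero, eq_comm, pow_eq_zero_iff two_ne_zero, pow_eq_zero_iff (by omega),
    norm_eq_zero] at this
  exact ha this

namespace IsMetric
variable {g : Met n} (h : IsMetric g)
include h

theorem vert' (c : ℍ) {z : E n} (w : E n) (hz : z ≠ 0) : g z w (c • z) = 0 := by
  rw [h.symm z w _ hz, h.vert c z w hz]

theorem hor_left {z : E n} (hz : z ≠ 0) (u w : E n) : g z (hor z u) w = g z u w := by
  rw [hor_def, map_sub, sub_apply, h.vert _ z w hz, sub_zero]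

theorem hor_right {z : E n} (hz : z ≠ 0) (u w : E n) : g z u (hor z w) = g z u w := by
  rw [hor_def, map_sub, h.vert' _ u hz, sub_zero]

theorem nonneg {z : E n} (hz : z ≠ 0) (u : E n) : 0 ≤ g z u u := by
  by_cases hu : ∃ c : ℍ, u = c • z
  · obtain ⟨c, rfl⟩ := hu
    rw [h.vert c z _ hz]
  · exact (h.pos z u hz fun c hc => hu ⟨c, hc⟩).le

theorem hor_eq_zero {z u : E n} (hz : z ≠ 0) (hu : g z u u = 0) : hor z u = 0 := by
  rw [hor_eq_zero_iff hz]
  by_contra hc
  exact (h.pos z u hz fun c h' => hc ⟨c, h'⟩).ne' hu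

theorem cauchy {z : E n} (hz : z ≠ 0) (u w : E n) : |g z u w| ≤ √(g z u u) * √(g z w w) := by
  rw [← Real.sqrt_mul (h.nonneg hz u)]
  refine Real.abs_le_sqrt ?_
  have := discrim_le_zero (a := g z w w) (b := 2 * g z u w) (c := g z u u) fun t => by
    have h1 := h.nonneg hz (u + t • w)
    simp only [map_add, map_smul, add_apply, smul_apply, smul_eq_mul, h.symm z w u hz] at h1
    linarith
  rw [discrim] at this
  linarith

theorem contDiffAt {z : E n} (hz : z ≠ 0) : ContDiffAt ℝ ∞ g z := by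
  exact h.smooth.contDiffAt (isOpen_compl_singleton.mem_nhds hz)

/-- Infinitesimal invariance. -/
theorem fderiv_vert (c : ℍ) {z : E n} (hz : z ≠ 0) (u w : E n) :
    fderiv ℝ g z (c • z) u w = -g z (c • u) w - g z u (c • w) := by
  have hd : HasFDerivAt g (fderiv ℝ g z) z := ((h.contDiffAt hz).differentiableAt (by simp)).hasFDerivAt
  have l : ∀ v : E n, HasDerivAt (fun t : ℝ => (1 + t • c) • v) (c • v) 0 := fun v => by
    have := (((hasDerivAt_id (0 : ℝ)).smul_const c).const_add 1).smul_const v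
    simpa using this
  have h1 := ((HasFDerivAt.comp_hasDerivAt_of_eq (0 : ℝ) hd (l z) (by simp)).clm_apply (l u)).clm_apply (l w)
  have h2 : (fun t : ℝ => g ((1 + t • c) • z) ((1 + t • c) • u) ((1 + t • c) • w))
      =ᶠ[𝓝 0] fun _ => g z u w := by
    have : ∀ᶠ t : ℝ in 𝓝 0, 1 + t • c ≠ 0 :=
      ContinuousAt.eventually_ne (by fun_prop) (by simp)
    filter_upwards [this] with t ht using h.inv _ z u w ht hz
  have h3 := (h1.congr_of_eventuallyEq h2.symm).unique (hasDerivAt_const _ _)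
  simp only [Function.comp_def, zero_smul, add_zero, one_smul, add_apply] at h3
  linarith

/-- Derivative of the vanishing on vertical vectors. -/
theorem fderiv_vert_arg (c : ℍ) {z : E n} (hz : z ≠ 0) (a u : E n) :
    fderiv ℝ g z a u (c • z) = -g z u (c • a) := by
  have hd : HasFDerivAt g (fderiv ℝ g z) z := ((h.contDiffAt hz).differentiableAt (by simp)).hasFDerivAt
  have h1 := (hd.clm_apply (hasFDerivAt_const u z)).clm_apply ((hasFDerivAt_id z).const_smul c)
  have h2 : (fun y => g y u (c • y)) =ᶠ[𝓝 z] fun _ => 0 := by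
    filter_upwards [isOpen_compl_singleton.mem_nhds hz] with y hy using h.vert' c u hy
  have h3 := congrArg (fun L => L a)
    ((h1.congr_of_eventuallyEq h2.symm).unique (hasFDerivAt_const _ _))
  simp at h3
  linarith

theorem fderiv_symm {z : E n} (hz : z ≠ 0) (a u w : E n) :
    fderiv ℝ g z a u w = fderiv ℝ g z a w u := by
  have hd : HasFDerivAt g (fderiv ℝ g z) z := ((h.contDiffAt hz).differentiableAt (by simp)).hasFDerivAt
  have h1 := (hd.clm_apply (hasFDerivAt_const u z)).clm_apply (hasFDerivAt_const w z)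
  have h1' := (hd.clm_apply (hasFDerivAt_const w z)).clm_apply (hasFDerivAt_const u z)
  have h2 : (fun y => g y u w) =ᶠ[𝓝 z] fun y => g y w u := by
    filter_upwards [isOpen_compl_singleton.mem_nhds hz] with y hy using h.symm y u w hy
  simpa using congrArg (fun L => L a) ((h1.congr_of_eventuallyEq h2.symm).unique h1')

theorem GG_pos {z u : E n} (hz : z ≠ 0) (hu : u ≠ 0) : 0 < GG g z u u := by
  rw [GG_apply]
  have h0 := h.nonneg hz u
  by_contra hc
  have h1 : 0 ≤ inner ℝ (nu z u) (nu z u) := real_inner_self_nonneg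
  have h3 : nu z u = 0 := inner_self_eq_zero.1 (by linarith : inner ℝ (nu z u) (nu z u) = 0)
  exact hu ((hor_of_nu h3).symm.trans (h.hor_eq_zero hz (by linarith)))

theorem GG_symm {z : E n} (hz : z ≠ 0) (u w : E n) : GG g z u w = GG g z w u := by
  rw [GG_apply, GG_apply, h.symm z u w hz, real_inner_comm]

theorem GG_inv {c : ℍ} (hc : c ≠ 0) {z : E n} (hz : z ≠ 0) (u w : E n) :
    GG g (c • z) (c • u) (c • w) = GG g z u w := by
  rw [GG_apply, GG_apply, h.inv c z u w hc hz, nu_smul_smul, nu_smul_smul, q_inner_conj hc]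

theorem contDiffOn_GG : ContDiffOn ℝ ∞ (GG g) {0}ᶜ := by
  refine h.smooth.add (contDiffOn_clm_apply.2 fun u => contDiffOn_clm_apply.2 fun w => ?_)
  exact (contDiffOn_nuL.clm_apply contDiffOn_const).inner ℝ (contDiffOn_nuL.clm_apply contDiffOn_const)

theorem detG_pos {z : E n} (hz : z ≠ 0) : 0 < detG g z := by
  refine Matrix.PosDef.det_pos (Matrix.PosDef.of_dotProduct_mulVec_pos ?_ fun v hv => ?_)
  · ext i j
    exact h.GG_symm hz _ _
  · have hu : ∑ i, v i • stdOrthonormalBasis ℝ (E n) i ≠ 0 := fun h0 => hv (funext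
      (Fintype.linearIndependent_iff.1 (stdOrthonormalBasis ℝ (E n)).orthonormal.linearIndependent v h0))
    refine (h.GG_pos hz hu).trans_eq ?_
    simp only [dotProduct, Matrix.mulVec, map_sum, map_smul, sum_apply, smul_apply, smul_eq_mul,
      Finset.mul_sum, Matrix.of_apply, star_trivial]
    rw [Finset.sum_comm]
    exact Finset.sum_congr rfl fun i _ => Finset.sum_congr rfl fun j _ => by ring

theorem continuousOn_detG : ContinuousOn (detG g) {0}ᶜ := by
  refine (Continuous.matrix_det continuous_id).comp_continuousOn ?_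
  refine continuousOn_pi.2 fun i => continuousOn_pi.2 fun j => ?_
  exact (h.contDiffOn_GG.continuousOn.clm_apply continuousOn_const).clm_apply continuousOn_const

theorem detG_smul {c : ℍ} (hc : c ≠ 0) {z : E n} (hz : z ≠ 0) :
    detG g (c • z) * ‖c‖ ^ (8 * n + 8) = detG g z := by
  have h1 := bdet_comp (GG g (c • z)) (c • ContinuousLinearMap.id ℝ (E n))
  have h2 : (GG g (c • z)).bilinearComp (c • ContinuousLinearMap.id ℝ (E n))
      (c • ContinuousLinearMap.id ℝ (E n)) = GG g z := by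
    ext u w
    exact h.GG_inv hc hz u w
  rw [h2, det_csmul] at h1
  rw [detG, detG, h1, ← pow_mul, mul_comm]
  congr 2
  ring

theorem spd_pos {x : VV n} (hx : x ∈ OO n) : 0 < spd g x := by
  exact Real.sqrt_pos.2 (h.pos _ _ hx.1 hx.2)

theorem spd_sq {x : VV n} (hx : x.1 ≠ 0) : spd g x ^ 2 = g x.1 x.2 x.2 := by
  exact Real.sq_sqrt (h.nonneg hx _)

theorem contDiffOn_spd : ContDiffOn ℝ ∞ (spd g) (OO n) := by
  refine ContDiffOn.sqrt ?_ fun x hx => (h.pos _ _ hx.1 hx.2).ne'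
  exact ((h.smooth.comp contDiffOn_fst fun _ hx => hx.1).clm_apply contDiffOn_snd).clm_apply
    contDiffOn_snd

theorem contDiffOn_vel : ContDiffOn ℝ ∞ (vel g) (OO n) := by
  exact (h.contDiffOn_spd.inv fun x hx => (h.spd_pos hx).ne').smul
    ((contDiffOn_horL.comp contDiffOn_fst fun _ hx => hx.1).clm_apply contDiffOn_snd)

theorem contDiffOn_al : ContDiffOn ℝ ∞ (al g) (OO n) := by
  exact ((h.smooth.comp contDiffOn_fst fun _ hx => hx.1).clm_apply h.contDiffOn_vel).clm_comp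
    contDiffOn_const

theorem spd_act {l : ℍ} {m : ℝ} (c : ℍ) {x : VV n} (hl : l ≠ 0) (hm : 0 < m) (hx : x.1 ≠ 0) :
    spd g (act l m c x) = m * spd g x := by
  simp only [spd, act]
  rw [h.inv l _ _ _ hl hx]
  simp only [map_add, map_smul, add_apply, smul_apply, smul_eq_mul, h.vert c _ _ hx, h.vert' c _ hx,
    add_zero, mul_zero]
  rw [← mul_assoc, Real.sqrt_mul (mul_self_nonneg m), Real.sqrt_mul_self hm.le]

theorem vel_eqv : Eqv (vel g) := by
  intro l m c x hl hm hx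
  rw [vel, h.spd_act c hl hm hx.1]
  simp only [act]
  rw [hor_smul_left hl, hor_smul, ← horL_apply, map_add, map_smul, horL_apply, horL_apply,
    (hor_eq_zero_iff hx.1 _).2 ⟨c, rfl⟩, add_zero, vel, smul_comm, smul_smul]
  congr 2
  field_simp

theorem vel_unit {x : VV n} (hx : x ∈ OO n) : g x.1 (vel g x) (vel g x) = 1 := by
  simp only [vel, map_smul, smul_apply, smul_eq_mul]
  rw [h.hor_left hx.1, h.hor_right hx.1, ← h.spd_sq hx.1]
  have := h.spd_pos hx
  field_simp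

theorem nu_vel {x : VV n} (hx : x.1 ≠ 0) : nu x.1 (vel g x) = 0 := by
  rw [vel, nu_rsmul, nu_hor hx, smul_zero]

theorem snd_eq {x : VV n} (hx : x ∈ OO n) : x.2 = spd g x • vel g x + nu x.1 x.2 • x.1 := by
  rw [vel, smul_smul, mul_inv_cancel₀ (h.spd_pos hx).ne', one_smul, hor_def, sub_add_cancel]

/-- A unit horizontal vector defines a point of `OO` with that velocity. -/
theorem unit_mem {z v : E n} (hz : z ≠ 0) (h0 : nu z v = 0) (h1 : g z v v = 1) :
    (z, v) ∈ OO n ∧ spd g (z, v) = 1 ∧ vel g (z, v) = v := by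
  have hs : spd g (z, v) = 1 := by simp [spd, h1]
  refine ⟨⟨hz, fun c hc => ?_⟩, hs, by simp [vel, hs, hor_of_nu h0]⟩
  simp only at hc
  rw [hc, h.vert c z _ hz] at h1
  exact zero_ne_one h1

theorem contDiffOn_Lg : ContDiffOn ℝ ∞ (Lg g) {p | p.1 ≠ 0} := by
  exact contDiffOn_const.mul (((h.smooth.comp contDiffOn_fst fun _ hx => hx).clm_apply
    contDiffOn_snd).clm_apply contDiffOn_snd)

theorem fderiv_Lg {p : VV n} (hp : p.1 ≠ 0) (a : VV n) :
    fderiv ℝ (Lg g) p a = 1 / 2 * fderiv ℝ g p.1 a.1 p.2 p.2 + g p.1 p.2 a.2 := by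
  have hd : HasFDerivAt g (fderiv ℝ g p.1) p.1 :=
    ((h.contDiffAt hp).differentiableAt (by simp)).hasFDerivAt
  have h1 := (((hd.comp p hasFDerivAt_fst).clm_apply hasFDerivAt_snd).clm_apply
    hasFDerivAt_snd).const_mul (1 / 2 : ℝ)
  rw [show fderiv ℝ (Lg g) p = _ from h1.fderiv]
  simp [h.symm p.1 a.2 p.2 hp]
  ring

theorem D2_symm {p : VV n} (hp : p.1 ≠ 0) (a b : VV n) : D2 g p a b = D2 g p b a := by
  have hc : ContDiffAt ℝ ∞ (Lg g) p :=
    h.contDiffOn_Lg.contDiffAt ((isOpen_ne_fun continuous_fst continuous_const).mem_nhds hp)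
  exact (hc.isSymmSndFDerivAt (by simp only [minSmoothness_of_isRCLikeNormedField]; exact two_le_infty)).eq a b

theorem D2_apply {p : VV n} (hp : p.1 ≠ 0) (a b : VV n) :
    D2 g p a b = 1 / 2 * fderiv ℝ (fderiv ℝ g) p.1 a.1 b.1 p.2 p.2 + fderiv ℝ g p.1 b.1 p.2 a.2 +
      fderiv ℝ g p.1 a.1 p.2 b.2 + g p.1 a.2 b.2 := by
  have ho : {p : VV n | p.1 ≠ 0} ∈ 𝓝 p := (isOpen_ne_fun continuous_fst continuous_const).mem_nhds hp
  have hc : ContDiffAt ℝ ∞ (Lg g) p := h.contDiffOn_Lg.contDiffAt ho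
  have hd : HasFDerivAt g (fderiv ℝ g p.1) p.1 :=
    ((h.contDiffAt hp).differentiableAt (by simp)).hasFDerivAt
  have hd2 : HasFDerivAt (fderiv ℝ g) (fderiv ℝ (fderiv ℝ g) p.1) p.1 :=
    (((h.contDiffAt hp).fderiv_right (m := 1) two_le_infty).differentiableAt (by simp)).hasFDerivAt
  have h0 := (((hc.fderiv_right (m := 1) two_le_infty).differentiableAt (by simp)).hasFDerivAt).clm_apply
    (hasFDerivAt_const b p)
  have h1 := ((((((hd2.comp p hasFDerivAt_fst).clm_apply (hasFDerivAt_const b.1 p)).clm_apply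
    hasFDerivAt_snd).clm_apply hasFDerivAt_snd).const_mul (1 / 2 : ℝ)).add
    (((hd.comp p hasFDerivAt_fst).clm_apply hasFDerivAt_snd).clm_apply (hasFDerivAt_const b.2 p)))
  have h2 := congrArg (fun L => L a) ((h0.congr_of_eventuallyEq (by
    filter_upwards [ho] with q hq using (h.fderiv_Lg hq b).symm)).unique h1)
  simp [h.fderiv_symm hp b.1 a.2 p.2] at h2
  rw [D2, h2]
  ring

/-- Uniform comparison with the Euclidean norm on horizontal vectors. -/
theorem exists_comp : ∃ A : ℝ, 0 < A ∧ ∀ z u : E n, z ≠ 0 →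
    ‖hor z u‖ ^ 2 ≤ A * ‖z‖ ^ 2 * g z u u ∧ ‖z‖ ^ 2 * g z u u ≤ A * ‖hor z u‖ ^ 2 := by
  have hc : ContinuousOn (fun x : VV n => g x.1 x.2 x.2) (slice n) :=
    ((h.smooth.continuousOn.comp continuousOn_fst fun _ hx => (slice_subset hx).1).clm_apply
      continuousOn_snd).clm_apply continuousOn_snd
  have hp : ∀ x ∈ slice n, 0 < g x.1 x.2 x.2 := fun x hx =>
    h.pos _ _ (slice_subset hx).1 (slice_subset hx).2
  obtain ⟨A, hA⟩ := isCompact_slice.exists_bound_of_continuousOn hc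
  obtain ⟨A', hA'⟩ := isCompact_slice.exists_bound_of_continuousOn (hc.inv₀ fun x hx => (hp x hx).ne')
  refine ⟨max (max A A') 1, by positivity, fun z u hz => ?_⟩
  by_cases h0 : hor z u = 0
  · rw [← h.hor_left hz, h0]; simp
  have n1 := norm_pos_iff.2 hz
  have n2 := norm_pos_iff.2 h0
  have hy : (((‖z‖⁻¹ : ℝ) : ℍ) • z, ‖hor z u‖⁻¹ • hor z u) ∈ slice n := by
    refine ⟨by simp [norm_smul, n1.ne'], by simp [norm_smul, n2.ne'], ?_⟩
    simp only
    rw [nu_smul_left, nu_rsmul, nu_hor hz, smul_zero, zero_mul]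
  have e1 : g (((‖z‖⁻¹ : ℝ) : ℍ) • z) (‖hor z u‖⁻¹ • hor z u) (‖hor z u‖⁻¹ • hor z u) *
      ‖hor z u‖ ^ 2 = ‖z‖ ^ 2 * g z u u := by
    have e := h.inv ((‖z‖⁻¹ : ℝ) : ℍ) z (hor z u) (hor z u) (coe_ne_zero (inv_ne_zero n1.ne')) hz
    rw [h.hor_left hz, h.hor_right hz, coe_smul _ (hor z u)] at e
    simp only [map_smul, smul_apply, smul_eq_mul] at e ⊢
    rw [← e]
    field_simp
  have b1 := (le_abs_self _).trans (hA _ hy)
  have b2 := (le_abs_self _).trans (hA' _ hy)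
  have b3 := hp _ hy
  simp only [Pi.inv_apply] at b1 b2 b3
  rw [inv_le_iff_one_le_mul₀ b3] at b2
  have m1 : A ≤ max (max A A') 1 := (le_max_left _ _).trans (le_max_left _ _)
  have m2 : A' ≤ max (max A A') 1 := (le_max_right _ _).trans (le_max_left _ _)
  rw [mul_assoc, ← e1]
  constructor
  · rw [← mul_assoc]
    exact le_mul_of_one_le_left (by positivity) (b2.trans (mul_le_mul_of_nonneg_right m2 b3.le))
  · exact mul_le_mul_of_nonneg_right (b1.trans m1) (by positivity)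

end IsMetric

theorem inner_hor {z : E n} (hz : z ≠ 0) (u w : E n) :
    inner ℝ (hor z u) (hor z w) = inner ℝ u w - ‖z‖ ^ 2 * inner ℝ (nu z u) (nu z w) := by
  have e : ∀ (c : ℍ) (v : E n), inner ℝ (c • z) v = ‖z‖ ^ 2 * inner ℝ c (nu z v) := fun c v => by
    rw [inner_csmul_left, hm_eq_nu hz, real_inner_smul_right]
  rw [hor_def z u, inner_sub_left, e, nu_hor hz, inner_zero_right, mul_zero, sub_zero, hor_def,
    inner_sub_right, real_inner_comm (_ • z), e, real_inner_comm (nu z u)]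

theorem fsM_apply {z : E n} (hz : z ≠ 0) (u w : E n) : fsM n z u w = fs z u w := by
  have n1 : ‖z‖ ≠ 0 := norm_ne_zero_iff.2 hz
  have e : ∀ (c : ℍ) (v : E n), inner ℝ v (c • z) = ‖z‖ ^ 2 * inner ℝ c (nu z v) := fun c v => by
    rw [real_inner_comm, inner_csmul_left, hm_eq_nu hz, real_inner_smul_right]
  have e1 : ∀ v : E n, inner ℝ v z = ‖z‖ ^ 2 * inner ℝ 1 (nu z v) := fun v => by
    rw [← e, one_smul]
  change (‖z‖ ^ 2)⁻¹ * inner ℝ (hor z u) (hor z w) = _
  rw [inner_hor hz, fs, e, e, e, e, e, e, e1, e1]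
  simp only [Quaternion.inner_def, Quaternion.re_mul, Quaternion.re_star, Quaternion.imI_star,
    Quaternion.imJ_star, Quaternion.imK_star, qi, qj, qk, Quaternion.re_one, Quaternion.imI_one,
    Quaternion.imJ_one, Quaternion.imK_one]
  field_simp
  ring

theorem fsM_eq (z u w : E n) : fsM n z u w = (‖z‖ ^ 2)⁻¹ * inner ℝ (hor z u) (hor z w) := by
  rfl

theorem isMetric_fsM : IsMetric (fsM n) := by
  refine ⟨?_, fun z u w _ => by rw [fsM_eq, fsM_eq, real_inner_comm], fun c z u w hc hz => ?_,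
    fun c z w hz => ?_, fun z u hz hu => ?_⟩
  · refine contDiffOn_clm_apply.2 fun u => contDiffOn_clm_apply.2 fun w => ?_
    have h1 : ContDiffOn ℝ ∞ (fun z : E n => (‖z‖ ^ 2)⁻¹) {0}ᶜ :=
      (contDiff_norm_sq ℝ).contDiffOn.inv fun z hz => pow_ne_zero 2 (norm_ne_zero_iff.2 hz)
    exact h1.mul ((contDiffOn_horL.clm_apply contDiffOn_const).inner ℝ
      (contDiffOn_horL.clm_apply contDiffOn_const))
  · have : ‖c‖ ≠ 0 := norm_ne_zero_iff.2 hc
    rw [fsM_eq, fsM_eq, hor_smul_left hc, hor_smul_left hc, hor_smul, hor_smul, inner_csmul,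
      norm_smul]
    field_simp
  · rw [fsM_eq, (hor_eq_zero_iff hz _).2 ⟨c, rfl⟩]; simp
  · rw [fsM_eq]
    have := norm_pos_iff.2 hz
    exact mul_pos (by positivity) (real_inner_self_pos.2 (mem_OO.1 (⟨hz, hu⟩ : (z, u) ∈ OO n)).2)

theorem wt_nonneg (r : ℝ) : 0 ≤ wt r := by
  exact Real.smoothTransition.monotone.deriv_nonneg

theorem contDiff_wt : ContDiff ℝ ∞ wt := by
  exact (contDiff_infty_iff_deriv.1 Real.smoothTransition.contDiff).2

theorem wt_eq_zero {r : ℝ} (hr : r ∉ Icc (0 : ℝ) 1) : wt r = 0 := by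
  rcases not_and_or.1 hr with h | h
  · have : Real.smoothTransition =ᶠ[𝓝 r] fun _ => 0 := by
      filter_upwards [Iio_mem_nhds (not_le.1 h)] with t ht using
        Real.smoothTransition.zero_of_nonpos (le_of_lt ht)
    rw [wt, this.deriv_eq, deriv_const]
  · have : Real.smoothTransition =ᶠ[𝓝 r] fun _ => 1 := by
      filter_upwards [Ioi_mem_nhds (not_le.1 h)] with t ht using
        Real.smoothTransition.one_of_one_le (le_of_lt ht)
    rw [wt, this.deriv_eq, deriv_const]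

theorem integral_wt : ∫ r, wt r = 1 := by
  rw [← setIntegral_eq_integral_of_forall_compl_eq_zero fun r hr => wt_eq_zero hr,
    integral_Icc_eq_integral_Ioc, ← intervalIntegral.integral_of_le zero_le_one]
  unfold wt
  rw [intervalIntegral.integral_deriv_eq_sub (fun t _ =>
    (Real.smoothTransition.contDiff (n := 1)).differentiable one_ne_zero t)
    (contDiff_wt.continuous.intervalIntegrable _ _)]
  simp

end Pool.Agent.Work.MP_8c604c_gt.H
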