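import Pool.Agent.Work.MP_8c604c_gt.H.Base

/-!
Great circles and local isometries satisfy the Euler-Lagrange equation (port of ../RigC1.lean).
-/

set_option maxSynthPendingDepth 3

open Set Filter Topology MeasureTheory
open scoped ContDiff Quaternion

noncomputable section
namespace Pool.Agent.Work.MP_8c604c_gt.H

open Real

variable {n : ℕ} {g : Met n}

theorem rigc1_two : (2 : WithTop ℕ∞) ≤ ∞ := WithTop.coe_le_coe.2 le_top

theorem rigc1_two' : (1 + 1 : WithTop ℕ∞) ≤ ∞ := one_add_one_eq_two.trans_le rigc1_two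

theorem rigc1_line {V : Type} [NormedAddCommGroup V] [NormedSpace ℝ V]
    {g : V → V →L[ℝ] V →L[ℝ] ℝ} {z : V} (hg : DifferentiableAt ℝ g z) (η u w : V) :
    HasDerivAt (fun r : ℝ => g (z + r • η) u w) (fderiv ℝ g z η u w) 0 := by
  have h1 : HasDerivAt (fun r : ℝ => z + r • η) η 0 := by
    simpa using ((hasDerivAt_id (0 : ℝ)).smul_const η).const_add z
  have h2 : HasFDerivAt g (fderiv ℝ g z) (z + (0 : ℝ) • η) := by
    rw [zero_smul, add_zero]
    exact hg.hasFDerivAt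
  have h3 : HasDerivAt (fun r : ℝ => g (z + r • η)) (fderiv ℝ g z η) 0 :=
    h2.comp_hasDerivAt (0 : ℝ) h1
  have h4 := (h3.clm_apply (hasDerivAt_const (0 : ℝ) u)).clm_apply (hasDerivAt_const (0 : ℝ) w)
  simpa using h4

theorem rigc1_fs {z : E n} (hz : z ≠ 0) (u w : E n) :
    fsM n z u w = (‖z‖ ^ 2 * inner ℝ u w - inner ℝ (hm z u) (hm z w)) / (‖z‖ ^ 2) ^ 2 := by
  have hR : 0 < ‖z‖ := norm_pos_iff.2 hz
  rw [fsM_eq, inner_hor hz, nu_def, nu_def, real_inner_smul_left, real_inner_smul_right]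
  field_simp

theorem rigc1_fs_deriv {z v : E n} (hz : z ≠ 0) (h0 : hm z v = 0) (h1 : ‖v‖ = ‖z‖)
    (η : E n) : fderiv ℝ (fsM n) z η v v = -2 * inner ℝ z η / ‖z‖ ^ 2 := by
  have hR : 0 < ‖z‖ := norm_pos_iff.2 hz
  have hl := rigc1_line ((isMetric_fsM.contDiffAt hz).differentiableAt (by simp)) η v v
  have hne : ∀ᶠ r : ℝ in 𝓝 0, z + r • η ≠ 0 := by
    have hc : Continuous fun r : ℝ => z + r • η := by fun_prop
    exact hc.continuousAt.eventually_ne (by simpa using hz)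
  have hN : HasDerivAt (fun r : ℝ => ‖z‖ ^ 2 + 2 * (r * inner ℝ z η) + r ^ 2 * ‖η‖ ^ 2)
      (2 * inner ℝ z η) 0 := by
    have := (((hasDerivAt_id (0 : ℝ)).mul_const (inner ℝ z η)).const_mul 2 |>.const_add
      (‖z‖ ^ 2)).add (((hasDerivAt_id (0 : ℝ)).pow 2).mul_const (‖η‖ ^ 2))
    exact this.congr_deriv (by simp)
  have hQ : HasDerivAt (fun r : ℝ => r ^ 2 * inner ℝ (hm η v) (hm η v)) 0 0 := by
    simpa using ((hasDerivAt_id (0 : ℝ)).pow 2).mul_const (inner ℝ (hm η v) (hm η v))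
  have hD := ((hN.mul_const (‖z‖ ^ 2)).sub hQ).div (hN.pow 2) (by simpa using hz)
  have he : (fun r : ℝ => fsM n (z + r • η) v v) =ᶠ[𝓝 0] fun r : ℝ =>
      ((‖z‖ ^ 2 + 2 * (r * inner ℝ z η) + r ^ 2 * ‖η‖ ^ 2) * ‖z‖ ^ 2 -
        r ^ 2 * inner ℝ (hm η v) (hm η v)) /
        (‖z‖ ^ 2 + 2 * (r * inner ℝ z η) + r ^ 2 * ‖η‖ ^ 2) ^ 2 := by
    filter_upwards [hne] with r hr
    have e1 : ‖z + r • η‖ ^ 2 = ‖z‖ ^ 2 + 2 * (r * inner ℝ z η) + r ^ 2 * ‖η‖ ^ 2 := by
      rw [norm_add_sq_real, real_inner_smul_right, norm_smul, mul_pow, Real.norm_eq_abs, sq_abs]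
    have e2 : inner ℝ v v = ‖z‖ ^ 2 := by rw [real_inner_self_eq_norm_sq, h1]
    have e3 : inner ℝ (hm (z + r • η) v) (hm (z + r • η) v) =
        r ^ 2 * inner ℝ (hm η v) (hm η v) := by
      rw [hm_add_left, h0, zero_add, hm_rsmul_left, real_inner_smul_left, real_inner_smul_right]
      ring
    rw [rigc1_fs hr, e2, e3, e1]
  have := hl.unique (hD.congr_of_eventuallyEq he)
  rw [this]
  simp only [Pi.pow_apply, Pi.sub_apply]
  field_simp
  ring

theorem rigc1_deriv {V : Type} [NormedAddCommGroup V] [NormedSpace ℝ V]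
    {g : V → V →L[ℝ] V →L[ℝ] ℝ} {γ : ℝ → V} {t : ℝ} (hg : DifferentiableAt ℝ g (γ t))
    (h1 : DifferentiableAt ℝ γ t) (h2 : DifferentiableAt ℝ (deriv γ) t) (η : V) :
    HasDerivAt (fun s => g (γ s) (deriv γ s) η)
      (fderiv ℝ g (γ t) (deriv γ t) (deriv γ t) η + g (γ t) (deriv (deriv γ) t) η) t := by
  have h3 := ((hg.hasFDerivAt.comp_hasDerivAt t h1.hasDerivAt).clm_apply h2.hasDerivAt).clm_apply
    (hasDerivAt_const t η)
  simpa using h3

theorem rigc1_diff2 {γ : ℝ → E n} {t : ℝ} (h : ContDiffAt ℝ ∞ γ t) :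
    DifferentiableAt ℝ (deriv γ) t := by
  have h1 : ContDiffAt ℝ 1 (fderiv ℝ γ) t := h.fderiv_right rigc1_two'
  exact (h1.differentiableAt one_ne_zero).clm_apply (differentiableAt_const (1 : ℝ))

theorem rigc1_surj (h : IsMetric g) {g₀ : Met n} (h₀ : IsMetric g₀) {y P : E n} (hy : y ≠ 0)
    (hP : P ≠ 0) (A : E n →L[ℝ] E n) (hiso : ∀ u w, g P (A u) (A w) = g₀ y u w) (η : E n) :
    ∃ (w : E n) (a : ℍ), η = A w + a • P := by
  let T : E n →L[ℝ] E n :=
    (horL P).comp A + ((ContinuousLinearMap.lsmul ℝ ℍ).flip P).comp (nuL y)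
  have hT : ∀ w, T w = hor P (A w) + nu y w • P := fun w => rfl
  have hi : Function.Injective (T : E n →ₗ[ℝ] E n) := by
    refine (injective_iff_map_eq_zero _).2 fun w hw => ?_
    have h1 : hor P (A w) + nu y w • P = 0 := hw
    have h2 := congrArg (nu P) h1
    rw [nu_add, nu_hor hP, nu_smul, nu_self hP, zero_add, mul_one, ← nuL_apply P, map_zero] at h2
    rw [h2, zero_smul, add_zero] at h1
    have h3 : g₀ y w w = 0 := by
      rw [← hiso, ← h.hor_left hP, h1, map_zero, zero_apply]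
    rw [← hor_of_nu h2]
    exact h₀.hor_eq_zero hy h3
  obtain ⟨w, hw⟩ := LinearMap.injective_iff_surjective.1 hi η
  refine ⟨w, nu y w - nu P (A w), ?_⟩
  rw [← hw, ContinuousLinearMap.coe_coe, hT, hor_def, sub_smul]
  abel

/-- Great circles satisfy the Euler-Lagrange equation of the standard metric. -/
theorem fs_el {o h : E n} (ho : o ≠ 0) (h0 : nu o h = 0) (h1 : ‖h‖ = ‖o‖) (t : ℝ) (η : E n) :
    HasDerivAt (fun s => fsM n (cos s • o + sin s • h) (-sin s • o + cos s • h) η)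
      (1 / 2 * fderiv ℝ (fsM n) (cos t • o + sin t • h) η (-sin t • o + cos t • h)
        (-sin t • o + cos t • h)) t := by
  have hR : 0 < ‖o‖ := norm_pos_iff.2 ho
  have hi : hm o h = 0 := (nu_eq_zero ho).1 h0
  have hi' : hm h o = 0 := by rw [← star_hm, hi, star_zero]
  have hoo : hm o o = ‖o‖ ^ 2 • (1 : ℍ) := by rw [hm_eq_nu ho, nu_self ho]
  have hhh : hm h h = ‖o‖ ^ 2 • (1 : ℍ) := by rw [hm_self, h1, ← hm_self, hoo]
  have key : ∀ a b c d : ℝ, hm (a • o + b • h) (c • o + d • h) =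
      ((a * c + b * d) * ‖o‖ ^ 2) • (1 : ℍ) := by
    intro a b c d
    simp only [hm_add_left, hm_add_right, hm_rsmul_left, hm_rsmul_right, hi, hi', hoo, hhh]
    module
  have hn : ∀ a b : ℝ, a ^ 2 + b ^ 2 = 1 → ‖a • o + b • h‖ = ‖o‖ := by
    intro a b hab
    refine (sq_eq_sq₀ (norm_nonneg _) (norm_nonneg _)).1 ?_
    rw [← real_inner_self_eq_norm_sq, inner_re, key, ← sq, ← sq, hab, one_mul]
    simp
  have hz : ∀ s, ‖cos s • o + sin s • h‖ = ‖o‖ := fun s => hn _ _ (cos_sq_add_sin_sq s)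
  have hv : ∀ s, ‖-sin s • o + cos s • h‖ = ‖o‖ := fun s =>
    hn _ _ (by rw [neg_sq]; exact sin_sq_add_cos_sq s)
  have hz0 : ∀ s, cos s • o + sin s • h ≠ 0 := fun s => norm_pos_iff.1 (by rw [hz]; exact hR)
  have hzv : ∀ s, hm (cos s • o + sin s • h) (-sin s • o + cos s • h) = 0 := by
    intro s
    rw [key, show cos s * -sin s + sin s * cos s = 0 by ring, zero_mul, zero_smul]
  have he : (fun s => fsM n (cos s • o + sin s • h) (-sin s • o + cos s • h) η) =
      fun s => inner ℝ (-sin s • o + cos s • h) η / ‖o‖ ^ 2 := by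
    funext s
    rw [rigc1_fs (hz0 s), hzv, inner_zero_left, sub_zero, hz]
    field_simp
  have hd : HasDerivAt (fun s => -sin s • o + cos s • h) (-(cos t • o + sin t • h)) t := by
    have := ((hasDerivAt_sin t).neg.smul_const o).add ((hasDerivAt_cos t).smul_const h)
    exact this.congr_deriv (by rw [neg_smul, neg_smul, neg_add])
  rw [he, rigc1_fs_deriv (hz0 t) (hzv t) ((hv t).trans (hz t).symm), hz]
  have := (hd.inner ℝ (hasDerivAt_const t η)).div_const (‖o‖ ^ 2)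
  refine this.congr_deriv ?_
  rw [inner_zero_right, zero_add, inner_neg_left]
  ring

/-- Local isometries preserve the Euler-Lagrange equation. -/
theorem el_map (h : IsMetric g) {g₀ : Met n} (h₀ : IsMetric g₀) {U : Set (E n)} (hU : IsOpen U)
    (hU0 : ∀ y ∈ U, y ≠ 0) {F : E n → E n} (hF : ContDiffOn ℝ ∞ F U) (hF0 : ∀ y ∈ U, F y ≠ 0)
    (hiso : ∀ y ∈ U, ∀ u w, g (F y) (fderiv ℝ F y u) (fderiv ℝ F y w) = g₀ y u w)
    {c : ℝ → E n} {t : ℝ} (hc : ContDiffAt ℝ ∞ c t) (hcU : c t ∈ U)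
    (hel : ∀ η, HasDerivAt (fun s => g₀ (c s) (deriv c s) η)
      (1 / 2 * fderiv ℝ g₀ (c t) η (deriv c t) (deriv c t)) t) (η : E n) :
    HasDerivAt (fun s => g (F (c s)) (deriv (F ∘ c) s) η)
      (1 / 2 * fderiv ℝ g (F (c t)) η (deriv (F ∘ c) t) (deriv (F ∘ c) t)) t := by
  have hy := hU0 _ hcU
  have hP := hF0 _ hcU
  have hUn : U ∈ 𝓝 (c t) := hU.mem_nhds hcU
  have hFy : ContDiffAt ℝ ∞ F (c t) := hF.contDiffAt hUn
  have hF1 : DifferentiableAt ℝ F (c t) := hFy.differentiableAt (by simp)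
  have hF2 : DifferentiableAt ℝ (fderiv ℝ F) (c t) :=
    (hFy.fderiv_right (m := 1) rigc1_two').differentiableAt one_ne_zero
  have hsym : ∀ v w, fderiv ℝ (fderiv ℝ F) (c t) v w = fderiv ℝ (fderiv ℝ F) (c t) w v :=
    hFy.isSymmSndFDerivAt (by simpa using rigc1_two)
  have hg : DifferentiableAt ℝ g (F (c t)) := (h.contDiffAt hP).differentiableAt (by simp)
  have hg₀ : DifferentiableAt ℝ g₀ (c t) := (h₀.contDiffAt hy).differentiableAt (by simp)
  have hc1 : DifferentiableAt ℝ c t := hc.differentiableAt (by simp)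
  have hc2 := rigc1_diff2 hc
  have hγ : ContDiffAt ℝ ∞ (F ∘ c) t := hFy.comp t hc
  have hev : deriv (F ∘ c) =ᶠ[𝓝 t] fun s => fderiv ℝ F (c s) (deriv c s) := by
    filter_upwards [hc1.continuousAt.preimage_mem_nhds hUn,
      (hc.of_le (m := 1) (by exact_mod_cast le_top)).eventually (by simp)] with s hs hs'
    exact (((hF.contDiffAt (hU.mem_nhds hs)).differentiableAt (by simp)).hasFDerivAt.comp_hasDerivAt
      s (hs'.differentiableAt one_ne_zero).hasDerivAt).deriv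
  have hd1 : deriv (F ∘ c) t = fderiv ℝ F (c t) (deriv c t) := hev.eq_of_nhds
  have hd2 : deriv (deriv (F ∘ c)) t = fderiv ℝ (fderiv ℝ F) (c t) (deriv c t) (deriv c t) +
      fderiv ℝ F (c t) (deriv (deriv c) t) := by
    rw [hev.deriv_eq]
    exact ((hF2.hasFDerivAt.comp_hasDerivAt t hc1.hasDerivAt).clm_apply hc2.hasDerivAt).deriv
  have hdi : ∀ a u w, fderiv ℝ g (F (c t)) (fderiv ℝ F (c t) a) (fderiv ℝ F (c t) u)
      (fderiv ℝ F (c t) w) +
      g (F (c t)) (fderiv ℝ (fderiv ℝ F) (c t) a u) (fderiv ℝ F (c t) w) +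
      g (F (c t)) (fderiv ℝ F (c t) u) (fderiv ℝ (fderiv ℝ F) (c t) a w) =
      fderiv ℝ g₀ (c t) a u w := by
    intro a u w
    have e1 := ((hg.hasFDerivAt.comp (c t) hF1.hasFDerivAt).clm_apply
      (hF2.hasFDerivAt.clm_apply (hasFDerivAt_const u (c t)))).clm_apply
      (hF2.hasFDerivAt.clm_apply (hasFDerivAt_const w (c t)))
    have e2 := (hg₀.hasFDerivAt.clm_apply (hasFDerivAt_const u (c t))).clm_apply
      (hasFDerivAt_const w (c t))
    have e3 := congrArg (fun L : E n →L[ℝ] ℝ => L a) (e1.unique (e2.congr_of_eventuallyEq (by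
      filter_upwards [hUn] with y hy using hiso y hy u w)))
    simp only [add_apply, ContinuousLinearMap.comp_apply,
      ContinuousLinearMap.flip_apply, ContinuousLinearMap.comp_zero, zero_add,
      Function.comp_apply] at e3
    linarith
  have hel' : ∀ w, fderiv ℝ g₀ (c t) (deriv c t) (deriv c t) w + g₀ (c t) (deriv (deriv c) t) w =
      1 / 2 * fderiv ℝ g₀ (c t) w (deriv c t) (deriv c t) := fun w =>
    (rigc1_deriv hg₀ hc1 hc2 w).unique (hel w)
  have hmain := rigc1_deriv (g := g) (γ := F ∘ c) hg (hγ.differentiableAt (by simp))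
    (rigc1_diff2 hγ) η
  refine hmain.congr_deriv (Eq.symm ?_)
  obtain ⟨w, a, rfl⟩ := rigc1_surj h h₀ hy hP (fderiv ℝ F (c t)) (hiso _ hcU) η
  simp only [Function.comp_apply, map_add, add_apply]
  rw [h.fderiv_vert a hP, h.fderiv_vert_arg a hP, h.vert' a _ hP, hd2, hd1, map_add,
    add_apply, hiso _ hcU, h.symm _ (a • _) _ hP]
  have e1 := hdi (deriv c t) (deriv c t) w
  have e2 := hdi w (deriv c t) (deriv c t)
  rw [h.symm _ (fderiv ℝ (fderiv ℝ F) (c t) w (deriv c t)) _ hP, hsym w] at e2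
  linarith [hel' w]

end Pool.Agent.Work.MP_8c604c_gt.H
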