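import Pool.Agent.Work.MP_8c604c_gt.H.Base
import Pool.Agent.Work.MP_8c604c_gt.ODE
import Pool.Agent.Work.MP_8c604c_gt.C.Count
import Pool.Agent.Work.MP_8c604c_gt.H.RigC1

-- merged part: Pool.Agent.Work.MP_8c604c_gt.H.RigF
section
/-!
The logarithm of the standard metric and the standard metric in its normal coordinates.
Port of ../RigB1.lean and of the second half of ../RigBAux.lean (rb_polar, rb_lim3, rb_lim1, rb_lim, rbP, rbF, rb_lgF, rb_y, rb_dP, rb_dF, rb_model); copy, do not import.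
Scalars act on the left: nu o (c . y) = c * nu o y. inner_hor, inner_csmul_left, hm_eq_nu replace the complex computations;
for horizontal p, b: |hm p b|^2 = sum of the squares of inner b p, inner b (qi . p), inner b (qj . p), inner b (qk . p).
-/

set_option maxSynthPendingDepth 3

open Set Filter Topology MeasureTheory
open scoped ContDiff Quaternion

noncomputable section
namespace Pool.Agent.Work.MP_8c604c_gt.H

open Real

variable {n : ℕ} {g : Met n}

/-- The logarithm of the standard metric at `o`, on the set where `nu o y ≠ 0`. -/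
def lgF (o y : E n) : E n :=
  (arctan (‖hor o y‖ / (‖o‖ * ‖nu o y‖)) * ‖o‖ / ‖hor o ((nu o y)⁻¹ • y)‖) • hor o ((nu o y)⁻¹ • y)

/-- A chart: `F = ex p ∘ L ∘ lgF o` with `L` a linear isometry. -/
def chart (G : Geo g) (o p : E n) (L : E n →L[ℝ] E n) (y : E n) : E n := G.ex p (L (lgF o y))

theorem RigF_hor_self {o : E n} (ho : o ≠ 0) : hor o o = 0 := by
  rw [hor_def, nu_self ho, one_smul, sub_self]

theorem RigF_int_arctan {r : ℝ} (hr : r ≠ 0) :
    ∫ t in (0 : ℝ)..1, (1 + t ^ 2 * r ^ 2)⁻¹ = arctan r / r := by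
  have hd : ∀ t ∈ uIcc (0 : ℝ) 1,
      HasDerivAt (fun s => arctan (s * r) / r) ((1 + t ^ 2 * r ^ 2)⁻¹) t := by
    intro t _
    have h1 : HasDerivAt (fun s : ℝ => s * r) r t := by
      simpa using (hasDerivAt_id t).mul_const r
    have h2 := (h1.arctan).div_const r
    rw [mul_div_assoc, div_self hr, mul_one, one_div, mul_pow] at h2
    exact h2
  have hc : Continuous fun t : ℝ => (1 + t ^ 2 * r ^ 2)⁻¹ := by
    refine Continuous.inv₀ (by fun_prop) fun t => ?_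
    positivity
  rw [intervalIntegral.integral_eq_sub_of_hasDerivAt hd (hc.intervalIntegrable _ _)]
  simp

theorem RigF_norm_ratio {o : E n} (y : E n) :
    ‖hor o y‖ / (‖o‖ * ‖nu o y‖) = ‖hor o ((nu o y)⁻¹ • y)‖ / ‖o‖ := by
  rw [hor_smul, norm_smul, norm_inv]
  rw [div_eq_mul_inv, div_eq_mul_inv, mul_inv]
  ring

theorem RigF_lgF_eq {o : E n} (ho : o ≠ 0) (y : E n) :
    lgF o y = (∫ t in (0 : ℝ)..1,
      (1 + t ^ 2 * (‖hor o ((nu o y)⁻¹ • y)‖ ^ 2 / ‖o‖ ^ 2))⁻¹) • hor o ((nu o y)⁻¹ • y) := by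
  unfold lgF
  rw [RigF_norm_ratio]
  by_cases h : hor o ((nu o y)⁻¹ • y) = 0
  · rw [h, smul_zero, smul_zero]
  · have h1 : ‖hor o ((nu o y)⁻¹ • y)‖ ≠ 0 := norm_ne_zero_iff.2 h
    have h2 : ‖o‖ ≠ 0 := norm_ne_zero_iff.2 ho
    rw [← div_pow, RigF_int_arctan (div_ne_zero h1 h2)]
    congr 1
    field_simp



theorem contDiffOn_lgF {o : E n} (ho : o ≠ 0) : ContDiffOn ℝ ∞ (lgF o) {y | nu o y ≠ 0} := by
  have hnu : ContDiff ℝ ∞ (fun y : E n => nu o y) := (nuL o).contDiff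
  have hU : IsOpen {y : E n | nu o y ≠ 0} := isOpen_ne_fun hnu.continuous continuous_const
  have hh : ContDiffOn ℝ ∞ (fun y : E n => hor o ((nu o y)⁻¹ • y)) {y | nu o y ≠ 0} := by
    have h1 : ContDiffOn ℝ ∞ (fun y : E n => (nu o y)⁻¹) {y | nu o y ≠ 0} := fun y hy =>
      (((analyticAt_inv (𝕜 := ℝ) (z := nu o y) hy).contDiffAt).comp y
        hnu.contDiffAt).contDiffWithinAt
    have h2 : ContDiffOn ℝ ∞ (fun y : E n => (nu o y)⁻¹ • y) {y | nu o y ≠ 0} :=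
      h1.smul contDiffOn_id
    exact (horL o).contDiff.comp_contDiffOn h2
  have hq : ContDiffOn ℝ ∞ (fun y : E n => ‖hor o ((nu o y)⁻¹ • y)‖ ^ 2 / ‖o‖ ^ 2)
      {y | nu o y ≠ 0} := (hh.norm_sq ℝ).div_const _
  have hF : ContDiffOn ℝ ∞
      (fun p : ℝ × E n => (1 + p.1 ^ 2 * (‖hor o ((nu o p.2)⁻¹ • p.2)‖ ^ 2 / ‖o‖ ^ 2))⁻¹)
      {p | p.2 ∈ {y : E n | nu o y ≠ 0}} := by
    refine ContDiffOn.inv ?_ fun p _ => by positivity
    refine contDiffOn_const.add ((contDiffOn_fst.pow 2).mul ?_)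
    exact hq.comp contDiffOn_snd fun p hp => hp
  have hI := contDiffOn_integral hU hF 0 1
  exact (hI.smul hh).congr fun y _ => RigF_lgF_eq ho y

theorem lgF_smul {o : E n} {c : ℍ} (hc : c ≠ 0) (y : E n) : lgF o (c • y) = lgF o y := by
  have h1 : (nu o (c • y))⁻¹ • c • y = (nu o y)⁻¹ • y := by
    rw [nu_smul, smul_smul, mul_inv_rev, mul_assoc, inv_mul_cancel₀ hc, mul_one]
  unfold lgF
  rw [RigF_norm_ratio, RigF_norm_ratio, h1]

theorem lgF_norm {o y : E n} (ho : o ≠ 0) :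
    nu o (lgF o y) = 0 ∧ √(fsM n o (lgF o y) (lgF o y)) < π / 2 := by
  have h0 : nu o (lgF o y) = 0 := by
    unfold lgF
    rw [nu_rsmul, nu_hor ho, smul_zero]
  refine ⟨h0, ?_⟩
  have h2 : 0 < ‖o‖ := norm_pos_iff.2 ho
  rw [fsM_eq, hor_of_nu h0, real_inner_self_eq_norm_sq,
    show (‖o‖ ^ 2)⁻¹ * ‖lgF o y‖ ^ 2 = (‖lgF o y‖ / ‖o‖) ^ 2 by field_simp,
    Real.sqrt_sq (by positivity), div_lt_iff₀ h2]
  unfold lgF
  rw [RigF_norm_ratio]
  set h := hor o ((nu o y)⁻¹ • y)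
  by_cases hh : h = 0
  · rw [hh, smul_zero, norm_zero]
    have := Real.pi_pos
    positivity
  · have h1 : 0 < ‖h‖ := norm_pos_iff.2 hh
    have h3 : 0 ≤ arctan (‖h‖ / ‖o‖) := Real.arctan_nonneg.2 (by positivity)
    rw [norm_smul, Real.norm_of_nonneg (by positivity), div_mul_cancel₀ _ h1.ne']
    exact mul_lt_mul_of_pos_right (Real.arctan_lt_pi_div_two _) h2

theorem lgF_ray {o h : E n} (ho : o ≠ 0) (h0 : nu o h = 0) (h1 : ‖h‖ = ‖o‖) {t : ℝ}
    (ht : |t| < π / 2) : lgF o (cos t • o + sin t • h) = t • h := by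
  have hc : 0 < cos t := Real.cos_pos_of_mem_Ioo ⟨(abs_lt.1 ht).1, (abs_lt.1 ht).2⟩
  have h2 : 0 < ‖o‖ := norm_pos_iff.2 ho
  have hn : nu o (cos t • o + sin t • h) = ((cos t : ℝ) : ℍ) := by
    rw [nu_add, nu_rsmul, nu_rsmul, nu_self ho, h0, smul_zero, add_zero,
      ← Quaternion.coe_mul_eq_smul, mul_one]
  have hh : hor o (cos t • o + sin t • h) = sin t • h := by
    rw [hor_add, hor_rsmul, hor_rsmul, RigF_hor_self ho, hor_of_nu h0, smul_zero, zero_add]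
  have hh' : hor o ((nu o (cos t • o + sin t • h))⁻¹ • (cos t • o + sin t • h)) = tan t • h := by
    rw [hor_smul, hh, hn, ← Quaternion.coe_inv, coe_smul, smul_smul, Real.tan_eq_sin_div_cos,
      div_eq_inv_mul]
  unfold lgF
  rw [RigF_norm_ratio, hh', norm_smul, h1, smul_smul, mul_div_cancel_right₀ _ h2.ne',
    Real.norm_eq_abs]
  congr 1
  rcases lt_trichotomy t 0 with h3 | h3 | h3
  · have h4 : tan t < 0 := Real.tan_neg_of_neg_of_pi_div_two_lt h3 (abs_lt.1 ht).1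
    rw [abs_of_neg h4, Real.arctan_neg, Real.arctan_tan (abs_lt.1 ht).1 (abs_lt.1 ht).2]
    have := h4.ne
    field_simp
  · simp [h3]
  · have h4 : 0 < tan t := Real.tan_pos_of_pos_of_lt_pi_div_two h3 (abs_lt.1 ht).2
    rw [abs_of_pos h4, Real.arctan_tan (abs_lt.1 ht).1 (abs_lt.1 ht).2]
    field_simp

theorem RigF_exists_hor {o : E n} (hn : 1 ≤ n) (ho : o ≠ 0) : ∃ u : E n, hor o u ≠ 0 := by
  by_contra hcon
  push Not at hcon
  let T : ℍ →ₗ[ℝ] E n :=
    { toFun := fun c => c • o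
      map_add' := fun a b => add_smul a b o
      map_smul' := fun r a => smul_assoc r a o }
  have hT : Function.Surjective T := fun w => by
    obtain ⟨c, hc⟩ := (hor_eq_zero_iff ho w).1 (hcon w)
    exact ⟨c, hc.symm⟩
  have h3 := LinearMap.finrank_le_finrank_of_surjective hT
  rw [finrank_E, Quaternion.finrank_eq_four] at h3
  omega



theorem exists_ray {o y : E n} (hn : 1 ≤ n) (ho : o ≠ 0) (hy : nu o y ≠ 0) :
    ∃ (h : E n) (t : ℝ) (c : ℍ), nu o h = 0 ∧ ‖h‖ = ‖o‖ ∧ t ∈ Ico 0 (π / 2) ∧ c ≠ 0 ∧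
      y = c • (cos t • o + sin t • h) := by
  have h2 : 0 < ‖o‖ := norm_pos_iff.2 ho
  set h := hor o ((nu o y)⁻¹ • y) with hdef
  have hy' : y = nu o y • (o + h) := by
    rw [hdef, hor_def, nu_smul, inv_mul_cancel₀ hy, one_smul, add_sub_cancel, smul_smul,
      mul_inv_cancel₀ hy, one_smul]
  have key : ∀ k : E n, nu o k = 0 → k ≠ 0 →
      nu o ((‖o‖ / ‖k‖) • k) = 0 ∧ ‖(‖o‖ / ‖k‖) • k‖ = ‖o‖ := by
    intro k hk hk0
    have h1 : 0 < ‖k‖ := norm_pos_iff.2 hk0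
    refine ⟨by rw [nu_rsmul, hk, smul_zero], ?_⟩
    rw [norm_smul, Real.norm_of_nonneg (by positivity), div_mul_cancel₀ _ h1.ne']
  by_cases hh : h = 0
  · obtain ⟨u, hu⟩ := RigF_exists_hor hn ho
    obtain ⟨k1, k2⟩ := key (hor o u) (nu_hor ho u) hu
    refine ⟨_, 0, nu o y, k1, k2, ⟨le_rfl, by have := Real.pi_pos; positivity⟩, hy, ?_⟩
    rw [cos_zero, sin_zero, one_smul, zero_smul]
    rwa [hh] at hy'
  · have h1 : 0 < ‖h‖ := norm_pos_iff.2 hh
    obtain ⟨k1, k2⟩ := key h (nu_hor ho _) hh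
    set t := arctan (‖h‖ / ‖o‖) with ht
    have hc : 0 < cos t := Real.cos_arctan_pos _
    have htan : sin t = cos t * (‖h‖ / ‖o‖) := by
      have h5 : tan t = ‖h‖ / ‖o‖ := Real.tan_arctan _
      rw [← h5, Real.tan_eq_sin_div_cos]
      field_simp
    have hc' : ((cos t : ℝ) : ℍ) ≠ 0 := coe_ne_zero hc.ne'
    refine ⟨_, t, nu o y * ((cos t : ℝ) : ℍ)⁻¹, k1, k2,
      ⟨Real.arctan_nonneg.2 (by positivity), Real.arctan_lt_pi_div_two _⟩,
      mul_ne_zero hy (inv_ne_zero hc'), ?_⟩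
    have h6 : cos t • o + sin t • (‖o‖ / ‖h‖) • h = ((cos t : ℝ) : ℍ) • (o + h) := by
      rw [coe_smul, smul_add, smul_smul, htan]
      congr 2
      field_simp
    rw [h6, smul_smul, mul_assoc, inv_mul_cancel₀ hc', mul_one]
    exact hy'

theorem rb_polar {H : Type} [AddCommGroup H] {f : H → H → ℝ} (hs : ∀ u w, f u w = f w u)
    (ha : ∀ u v w, f (u + v) w = f u w + f v w) (h0 : ∀ u, f u u = 0) (u w : H) : f u w = 0 := by
  have h1 := h0 (u + w)
  rw [ha, hs u, hs w, ha, ha, h0, h0, hs w u] at h1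
  linarith

theorem RigF_lim3 : Tendsto (fun x : ℝ => (sin x - x) / x ^ 3) (𝓝[>] 0) (𝓝 (-1 / 6)) := by
  have h0 : Tendsto (fun x : ℝ => x * (5 / 96)) (𝓝[>] 0) (𝓝 0) := by
    have : Tendsto (fun x : ℝ => x * (5 / 96)) (𝓝 0) (𝓝 (0 * (5 / 96))) :=
      (continuous_id.mul continuous_const).tendsto 0
    rw [zero_mul] at this
    exact this.mono_left nhdsWithin_le_nhds
  rw [tendsto_iff_norm_sub_tendsto_zero]
  refine squeeze_zero' (Eventually.of_forall fun _ => norm_nonneg _) ?_ h0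
  filter_upwards [Ioo_mem_nhdsGT (show (0 : ℝ) < 1 by norm_num)] with x hx
  have hx0 : 0 < x := hx.1
  have h1 := Real.sin_bound (x := x) (by rw [abs_of_pos hx0]; exact hx.2.le)
  have e : (sin x - x) / x ^ 3 - -1 / 6 = (sin x - (x - x ^ 3 / 6)) / x ^ 3 := by
    field_simp
    ring
  rw [e, Real.norm_eq_abs, abs_div, abs_of_pos (pow_pos hx0 3), div_le_iff₀ (pow_pos hx0 3)]
  rw [abs_of_pos hx0] at h1
  have h2 : x ^ 5 ≤ x ^ 4 := pow_le_pow_of_le_one hx0.le hx.2.le (by norm_num)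
  have h3 : 0 < x ^ 4 := pow_pos hx0 4
  nlinarith

theorem RigF_lim1 : Tendsto (fun x : ℝ => sin x / x) (𝓝[>] 0) (𝓝 1) := by
  have h0 : Tendsto (fun x : ℝ => x) (𝓝[>] 0) (𝓝 0) := tendsto_id.mono_left nhdsWithin_le_nhds
  have h1 := (RigF_lim3.mul (h0.pow 2)).add_const 1
  simp only [ne_eq, OfNat.ofNat_ne_zero, not_false_eq_true, zero_pow, mul_zero, zero_add] at h1
  refine h1.congr' ?_
  filter_upwards [self_mem_nhdsWithin] with x hx
  have : x ≠ 0 := ne_of_gt hx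
  field_simp
  ring



theorem rb_lim (X Y : ℝ) {s : ℝ} (hs : 0 < s) :
    Tendsto (fun t : ℝ => (((sin (t * s) / (t * s)) ^ 2 - 1) * X -
      sin (t * s) ^ 4 / (t * s) ^ 2 * Y) / t ^ 2) (𝓝[>] 0) (𝓝 (s ^ 2 * (-1 / 3 * X - Y))) := by
  have h0 : Tendsto (fun t : ℝ => t * s) (𝓝[>] 0) (𝓝[>] 0) := by
    refine tendsto_nhdsWithin_iff.2 ⟨?_, ?_⟩
    · have : Tendsto (fun x : ℝ => x * s) (𝓝 0) (𝓝 (0 * s)) :=
        (continuous_id.mul continuous_const).tendsto 0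
      rw [zero_mul] at this
      exact this.mono_left nhdsWithin_le_nhds
    · filter_upwards [self_mem_nhdsWithin] with t ht
      exact mul_pos ht hs
  have h1 := ((((RigF_lim3.mul (RigF_lim1.add_const 1)).mul_const X).sub
    ((RigF_lim1.pow 4).mul_const Y)).const_mul (s ^ 2)).comp h0
  have e : s ^ 2 * (-1 / 6 * (1 + 1) * X - 1 ^ 4 * Y) = s ^ 2 * (-1 / 3 * X - Y) := by ring
  rw [e] at h1
  refine h1.congr' ?_
  filter_upwards [self_mem_nhdsWithin] with t ht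
  have : t ≠ 0 := ne_of_gt ht
  have : s ≠ 0 := hs.ne'
  simp only [Function.comp]
  field_simp
  ring

theorem RigF_fs_hor {o u w : E n} (hu : nu o u = 0) (hw : nu o w = 0) :
    fsM n o u w = inner ℝ u w / ‖o‖ ^ 2 := by
  rw [fsM_eq, hor_of_nu hu, hor_of_nu hw, div_eq_inv_mul]

theorem RigF_inner_vert {o b : E n} (ho : o ≠ 0) (hb : nu o b = 0) (c : ℍ) :
    inner ℝ b (c • o) = 0 := by
  rw [real_inner_comm, inner_csmul_left, (nu_eq_zero ho).1 hb, inner_zero_right]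

theorem RigF_inner_im {c : ℍ} (hc : c.re = 0) (p : E n) : inner ℝ p (c • p) = 0 := by
  rw [real_inner_comm, inner_csmul_left, hm_self, Quaternion.inner_def, Quaternion.star_coe,
    Quaternion.mul_coe_eq_smul, Quaternion.re_smul, hc, smul_zero]

/-- The affine coordinate. -/
def RigF_P (o y : E n) : E n := hor o ((nu o y)⁻¹ • y)

/-- The radial part of the logarithm. -/
def RigF_F (o p : E n) : E n := (arctan (‖p‖ / ‖o‖) * ‖o‖ / ‖p‖) • p

theorem RigF_lgF (o y : E n) : lgF o y = RigF_F o (RigF_P o y) := by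
  rw [lgF, RigF_norm_ratio]
  rfl

theorem RigF_dP {o y : E n} (ho : o ≠ 0) (hy : nu o y ≠ 0) (a : E n) :
    ∃ b : E n, nu o b = 0 ∧ HasDerivAt (fun ε : ℝ => RigF_P o (y + ε • a)) b 0 ∧
      fsM n y a a = fsM n (o + RigF_P o y) b b := by
  have h1 : HasDerivAt (fun ε : ℝ => y + ε • a) a 0 := by
    simpa using ((hasDerivAt_id (0 : ℝ)).smul_const a).const_add y
  have h2 : HasDerivAt (fun ε : ℝ => nu o (y + ε • a)) (nu o a) 0 :=
    (nuL o).hasFDerivAt.comp_hasDerivAt 0 h1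
  have h2' : HasDerivAt (fun ε : ℝ => (nu o (y + ε • a))⁻¹)
      (-((nu o y)⁻¹ * nu o a * (nu o y)⁻¹)) 0 := by
    have := (hasFDerivAt_inv' (𝕜 := ℝ) hy).comp_hasDerivAt_of_eq 0 h2 (by simp)
    simpa [Function.comp_def] using this
  have h3 := h2'.smul h1
  have h4 := (horL o).hasFDerivAt.comp_hasDerivAt 0 h3
  refine ⟨_, nu_hor ho _, h4, ?_⟩
  simp only [zero_smul, add_zero]
  have hz : o + RigF_P o y = (nu o y)⁻¹ • y := by
    rw [RigF_P, hor_def, nu_smul, inv_mul_cancel₀ hy, one_smul, add_sub_cancel]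
  have hy0 : y ≠ 0 := by
    rintro rfl
    exact hy (nu_zero o)
  have hz0 : (nu o y)⁻¹ • y ≠ 0 := smul_ne_zero (inv_ne_zero hy) hy0
  have hb : hor o ((nu o y)⁻¹ • a + (-((nu o y)⁻¹ * nu o a * (nu o y)⁻¹)) • y) =
      (nu o y)⁻¹ • a + (-((nu o y)⁻¹ * nu o a)) • ((nu o y)⁻¹ • y) := by
    rw [hor_def, nu_add, nu_smul, nu_smul, smul_smul, neg_mul, neg_mul, mul_assoc _ _ (nu o y),
      inv_mul_cancel₀ hy, mul_one, add_neg_cancel, zero_smul, sub_zero]
  rw [hb, hz]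
  simp only [map_add, add_apply]
  rw [isMetric_fsM.vert _ _ _ hz0, isMetric_fsM.vert _ _ _ hz0, isMetric_fsM.vert' _ _ hz0,
    isMetric_fsM.inv _ _ _ _ (inv_ne_zero hy) hy0]
  ring

theorem RigF_dF {o p : E n} (ho : o ≠ 0) (hp : p ≠ 0) {c : ℝ → E n} {b : E n}
    (hc : HasDerivAt c b 0) (h0 : c 0 = p) :
    HasDerivAt (fun ε => RigF_F o (c ε))
      ((arctan (‖p‖ / ‖o‖) * ‖o‖ / ‖p‖) • b +
        ((1 / (1 + (‖p‖ / ‖o‖) ^ 2) - arctan (‖p‖ / ‖o‖) * ‖o‖ / ‖p‖) *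
          (inner ℝ p b / ‖p‖ ^ 2)) • p) 0 := by
  have ho' : ‖o‖ ≠ 0 := norm_ne_zero_iff.2 ho
  have hp' : ‖p‖ ≠ 0 := norm_ne_zero_iff.2 hp
  have h1 : HasDerivAt (fun ε => ‖c ε‖) (inner ℝ p b / ‖p‖) 0 := by
    have h2 := hc.norm_sq.sqrt (by rw [h0]; exact pow_ne_zero 2 hp')
    simp only [sqrt_sq (norm_nonneg _), h0] at h2
    convert h2 using 1
    field_simp
  have h3 := (((h1.div_const ‖o‖).arctan.mul_const ‖o‖).div h1 (by rw [h0]; exact hp')).smul hc
  simp only [h0, Pi.div_apply] at h3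
  refine h3.congr_deriv ?_
  congr 2
  field_simp



/-- The standard metric in its normal coordinates. -/
theorem rb_model {o y : E n} (ho : o ≠ 0) (hy : nu o y ≠ 0) (hy' : hor o y ≠ 0) (a : E n) :
    ∃ (h : E n) (t : ℝ), nu o h = 0 ∧ fsM n o h h = 1 ∧ t ∈ Ioo 0 (π / 2) ∧ lgF o y = t • h ∧
      fsM n y a a = fsM n o h (fderiv ℝ (lgF o) y a) ^ 2 +
        (sin t / t) ^ 2 * (fsM n o (fderiv ℝ (lgF o) y a) (fderiv ℝ (lgF o) y a) -
          fsM n o h (fderiv ℝ (lgF o) y a) ^ 2) -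
        sin t ^ 4 / t ^ 2 * (fsM n o (fderiv ℝ (lgF o) y a) (qi • h) ^ 2 +
          fsM n o (fderiv ℝ (lgF o) y a) (qj • h) ^ 2 +
          fsM n o (fderiv ℝ (lgF o) y a) (qk • h) ^ 2) := by
  obtain ⟨b, hb, h1, h2⟩ := RigF_dP ho hy a
  set p := RigF_P o y with hpd
  have hp : p ≠ 0 := by
    rw [hpd, RigF_P, hor_smul]
    exact smul_ne_zero (inv_ne_zero hy) hy'
  have hp0 : nu o p = 0 := nu_hor ho _
  have ho' : 0 < ‖o‖ := norm_pos_iff.2 ho
  have hp' : 0 < ‖p‖ := norm_pos_iff.2 hp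
  have h3 := RigF_dF ho hp h1 (by simp [hpd])
  have hU : IsOpen {y : E n | nu o y ≠ 0} := isOpen_ne_fun (nuL o).continuous continuous_const
  have hd : DifferentiableAt ℝ (lgF o) y :=
    ((contDiffOn_lgF ho).contDiffAt (hU.mem_nhds hy)).differentiableAt (by simp)
  have h4 : HasDerivAt (fun ε : ℝ => lgF o (y + ε • a)) (fderiv ℝ (lgF o) y a) 0 := by
    have h1 : HasDerivAt (fun ε : ℝ => y + ε • a) a 0 := by
      simpa using ((hasDerivAt_id (0 : ℝ)).smul_const a).const_add y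
    exact hd.hasFDerivAt.comp_hasDerivAt_of_eq 0 h1 (by simp)
  simp only [RigF_lgF] at h4
  have h5 := h4.unique h3
  set r := ‖p‖ / ‖o‖ with hr
  have hr0 : 0 < r := div_pos hp' ho'
  set t := arctan r with ht
  have ht0 : 0 < t := by rw [ht, ← arctan_zero]; exact arctan_strictMono hr0
  have hs : sin t ^ 2 = r ^ 2 / (1 + r ^ 2) := by
    rw [ht, sin_arctan, div_pow, sq_sqrt (by positivity)]
  have hpr : ‖p‖ = r * ‖o‖ := by rw [hr]; field_simp
  have hh : nu o (r⁻¹ • p) = 0 := by rw [nu_rsmul, hp0, smul_zero]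
  have hhc : ∀ c : ℍ, nu o (c • r⁻¹ • p) = 0 := fun c => by rw [nu_smul, hh, mul_zero]
  have hpp : inner ℝ p p = r ^ 2 * ‖o‖ ^ 2 := by
    rw [real_inner_self_eq_norm_sq, hpr, mul_pow]
  have hpo : inner ℝ p o = 0 := by simpa using RigF_inner_vert ho hp0 1
  have hbo : inner ℝ b o = 0 := by simpa using RigF_inner_vert ho hb 1
  have hz : o + p ≠ 0 := by
    intro h
    have := congrArg (nu o) h
    rw [nu_add, nu_self ho, hp0, add_zero, nu_zero] at this
    exact one_ne_zero this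
  have hn : ‖o + p‖ ^ 2 = ‖o‖ ^ 2 * (1 + r ^ 2) := by
    rw [norm_add_sq_real, real_inner_comm, hpo, hpr]
    ring
  refine ⟨r⁻¹ • p, t, hh, ?_, ⟨ht0, arctan_lt_pi_div_two r⟩, ?_, ?_⟩
  · rw [RigF_fs_hor hh hh, real_inner_self_eq_norm_sq, norm_smul, hpr, norm_inv,
      Real.norm_eq_abs, abs_of_pos hr0]
    field_simp
  · rw [RigF_lgF, ← hpd, RigF_F, smul_smul, ← hr, ← ht, hpr]
    congr 1
    field_simp
  · have h6 : fderiv ℝ (lgF o) y a = _ := h5
    have ha : nu o (fderiv ℝ (lgF o) y a) = 0 := by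
      rw [h6, nu_add, nu_rsmul, nu_rsmul, hb, hp0]
      simp
    rw [h2, RigF_fs_hor hh ha, RigF_fs_hor ha ha, RigF_fs_hor ha (hhc qi), RigF_fs_hor ha (hhc qj),
      RigF_fs_hor ha (hhc qk), fsM_apply hz, fs,
      show ‖o + p‖ ^ 4 = (‖o + p‖ ^ 2) ^ 2 by ring, hn,
      show sin t ^ 4 = (sin t ^ 2) ^ 2 by ring, div_pow (sin t), hs]
    rw [h6, hpr]
    have hbp : inner ℝ b p = inner ℝ p b := real_inner_comm _ _
    have e1 := RigF_inner_im (c := qi) rfl p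
    have e2 := RigF_inner_im (c := qj) rfl p
    have e3 := RigF_inner_im (c := qk) rfl p
    simp only [smul_add, smul_comm qi, smul_comm qj, smul_comm qk, inner_add_left, inner_add_right,
      real_inner_smul_left, real_inner_smul_right, hbp, hbo, hpp, e1, e2, e3,
      RigF_inner_vert ho hb, zero_add, mul_zero, add_zero]
    generalize inner ℝ p b = w
    generalize inner ℝ b b = A
    generalize inner ℝ b (qi • p) = w1
    generalize inner ℝ b (qj • p) = w2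
    generalize inner ℝ b (qk • p) = w3
    have := ht0.ne'
    have := hr0.ne'
    have := ho'.ne'
    field_simp
    ring

end Pool.Agent.Work.MP_8c604c_gt.H
end
end

-- merged part: Pool.Agent.Work.MP_8c604c_gt.H.Log
section
/-!
The smooth logarithm on pairs at distance < pi/2.
Hints. Local inverses: (q,u) -> (q, Ex q u) has invertible derivative where |u|_g < pi/2 (det_Ex_ne), use
ContDiffAt.toOpenPartialHomeomorph / to_localInverse. exists_ex: for a path c of length < r < pi/2 the set of t with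
c t in the image of the open r-ball is open, equals the set for the closed r-ball (dd_ex), which is closed (compact image
of horizontal vectors times the scalar |c t|/|q| on a circle), so it is everything. Define lg, sig by choice, uniqueness by ex_inj.
-/

set_option maxSynthPendingDepth 3

open Set Filter Topology MeasureTheory
open scoped ContDiff Quaternion

noncomputable section
namespace Pool.Agent.Work.MP_8c604c_gt.H

variable {n : ℕ} {g : Met n}

/-- Pairs at distance less than `π/2`. -/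
def DD (g : Met n) : Set (VV n) := {p | p.1 ≠ 0 ∧ p.2 ≠ 0 ∧ dd g p.1 p.2 < Real.pi / 2}

theorem IsMetric.isOpen_DD (h : IsMetric g) : IsOpen (DD g) := by
  have ho : IsOpen {p : VV n | p.1 ≠ 0 ∧ p.2 ≠ 0} :=
    (isOpen_ne.preimage continuous_fst).inter (isOpen_ne.preimage continuous_snd)
  have h1 := h.continuousOn_dd.isOpen_inter_preimage ho (isOpen_Iio (a := Real.pi / 2))
  convert h1 using 1
  ext p
  simp only [DD, mem_ofPred_eq, mem_inter_iff, mem_preimage, mem_Iio, and_assoc]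

theorem Log_open : IsOpen {p : VV n | p.1 ≠ 0} := isOpen_ne.preimage continuous_fst

theorem Log_inverse {V : Type} [NormedAddCommGroup V] [NormedSpace ℝ V] [FiniteDimensional ℝ V]
    {F : V × V → V} {q u : V} (hF : ContDiffAt ℝ ∞ F (q, u))
    (hd : (fderiv ℝ (fun v => F (q, v)) u).det ≠ 0) :
    ∃ U : V × V → V, ContDiffAt ℝ ∞ U (q, F (q, u)) ∧ U (q, F (q, u)) = u ∧
      ∀ᶠ p in 𝓝 (q, F (q, u)), F (p.1, U p) = p.2 := by
  have := FiniteDimensional.complete ℝ V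
  have h1 : HasFDerivAt F (fderiv ℝ F (q, u)) (q, u) :=
    (hF.differentiableAt (by simp)).hasFDerivAt
  have h2 : HasFDerivAt (fun v => F (q, v))
      ((fderiv ℝ F (q, u)).comp (ContinuousLinearMap.inr ℝ V V)) u :=
    h1.comp u (hasFDerivAt_prodMk_right q u)
  have h3 : HasFDerivAt (fun p : V × V => (p.1, F p))
      ((ContinuousLinearMap.fst ℝ V V).prod (fderiv ℝ F (q, u))) (q, u) :=
    hasFDerivAt_fst.prodMk h1
  have h4 : Function.Injective
      ((ContinuousLinearMap.fst ℝ V V).prod (fderiv ℝ F (q, u))).toLinearMap := by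
    rw [injective_iff_map_eq_zero]
    rintro ⟨a, b⟩ hab
    have h5 : a = 0 := congrArg Prod.fst hab
    have h6 : fderiv ℝ F (q, u) (a, b) = 0 := congrArg Prod.snd hab
    have h7 : (fderiv ℝ (fun v => F (q, v)) u).toContinuousLinearEquivOfDetNeZero hd b = 0 := by
      rw [ContinuousLinearMap.toContinuousLinearEquivOfDetNeZero_apply, h2.fderiv, ← h6, h5]
      rfl
    rw [h5, (map_eq_zero_iff _ (ContinuousLinearEquiv.injective _)).1 h7]
    rfl
  let e : (V × V) ≃L[ℝ] V × V := (LinearEquiv.ofInjectiveEndo _ h4).toContinuousLinearEquiv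
  have h5 : HasFDerivAt (fun p : V × V => (p.1, F p)) (e : V × V →L[ℝ] V × V) (q, u) := by
    convert h3 using 1
    exact ContinuousLinearMap.ext fun _ => rfl
  have h6 : ContDiffAt ℝ ∞ (fun p : V × V => (p.1, F p)) (q, u) := contDiffAt_fst.prodMk hF
  have hn : (∞ : WithTop ℕ∞) ≠ 0 := by simp
  refine ⟨fun p => (h6.localInverse h5 hn p).2, (h6.to_localInverse h5 hn).snd,
    congrArg Prod.snd (h6.localInverse_apply_image h5 hn), ?_⟩
  filter_upwards [(h6.hasStrictFDerivAt' h5 hn).eventually_right_inverse] with p hp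
  have h7 : (h6.localInverse h5 hn p).1 = p.1 := (Prod.ext_iff.1 hp).1
  rw [← h7]
  exact (Prod.ext_iff.1 hp).2

theorem Log_continuousAt (h : IsMetric g) {p : VV n} (hp : p.1 ≠ 0) {U : VV n → E n}
    (hU : ContinuousAt U p) : ContinuousAt (fun y : VV n => √(g y.1 (U y) (U y))) p :=
  ((((h.contDiffAt hp).continuousAt.comp continuousAt_fst).clm_apply hU).clm_apply hU).sqrt

theorem Log_hor (h : IsMetric g) {q : E n} (hq : q ≠ 0) (u : E n) :
    g q (hor q u) (hor q u) = g q u u := by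
  rw [h.hor_left hq, h.hor_right hq]

theorem Log_exists_Ex (G : Geo g) (h : IsMetric g) {q : E n} (hq : q ≠ 0) (u : E n) {c : ℍ}
    (hc : c ≠ 0) : ∃ u', g q u' u' = g q u u ∧ G.Ex q u' = c • G.ex q u ∧ 1 + nu q u' ≠ 0 := by
  have h0 : ‖q‖ ≠ 0 := norm_ne_zero_iff.2 hq
  have h1 : 1 + nu q (hor q u + (‖q‖ • c - 1) • q) = ‖q‖ • c := by
    rw [nu_add, nu_hor hq, nu_smul, nu_self hq, zero_add, mul_one, add_sub_cancel]
  refine ⟨hor q u + (‖q‖ • c - 1) • q, ?_, ?_, by rw [h1]; exact smul_ne_zero h0 hc⟩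
  · rw [map_add, map_add, add_apply, add_apply,
      h.vert' _ _ hq, h.vert _ _ _ hq, h.vert _ _ _ hq, Log_hor h hq]
    ring
  · rw [Geo.Ex, G.ex_add_vert hq, G.ex_hor hq, h1, inv_smul_smul₀ h0]

theorem Log_compact (h : IsMetric g) {q : E n} (hq : q ≠ 0) (r : ℝ) :
    IsCompact {u : E n | nu q u = 0 ∧ √(g q u u) ≤ r} := by
  obtain ⟨A, hA, hb⟩ := h.exists_comp
  refine Metric.isCompact_of_isClosed_isBounded ?_ ?_
  · have h1 : IsClosed {u : E n | √(g q u u) ≤ r} :=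
      isClosed_le ((g q).continuous.clm_apply continuous_id).sqrt continuous_const
    exact (isClosed_eq (nuL q).continuous continuous_const).inter h1
  · refine (Metric.isBounded_closedBall (x := (0 : E n)) (r := √(A * ‖q‖ ^ 2 * r ^ 2))).subset ?_
    rintro u ⟨h1, h2⟩
    have h3 := (hb q u hq).1
    rw [hor_of_nu h1] at h3
    rw [mem_closedBall_zero_iff]
    refine Real.le_sqrt_of_sq_le (h3.trans ?_)
    have h4 : g q u u ≤ r ^ 2 := by
      rw [← Real.sq_sqrt (h.nonneg hq u)]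
      exact pow_le_pow_left₀ (Real.sqrt_nonneg _) h2 2
    exact mul_le_mul_of_nonneg_left h4 (by positivity)

theorem Log_closed (G : Geo g) (h : IsMetric g) {q : E n} (hq : q ≠ 0) (r : ℝ) {c : ℝ → E n}
    (hc : Continuous c) (h0 : ∀ t, c t ≠ 0) :
    IsClosed {t | ∃ (u : E n) (a : ℍ), a ≠ 0 ∧ √(g q u u) ≤ r ∧ c t = a • G.ex q u} := by
  have hq' : 0 < ‖q‖ := norm_pos_iff.2 hq
  have h1 : Continuous (G.ex q) := by
    have h2 := G.contDiffOn_ex.continuousOn.comp_continuous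
      (f := fun u : E n => ((q, u) : VV n)) (by fun_prop) fun _ => hq
    exact h2
  have h2 : IsCompact ((fun p : ℍ × E n => p.1 • G.ex q p.2) ''
      (Metric.sphere (0 : ℍ) 1 ×ˢ {u : E n | nu q u = 0 ∧ √(g q u u) ≤ r})) :=
    ((isCompact_sphere _ _).prod (Log_compact h hq r)).image (by fun_prop)
  have h3 : Continuous fun t => (((‖q‖ / ‖c t‖ : ℝ) : ℍ)) • c t :=
    (Quaternion.continuous_coe.comp
      (continuous_const.div hc.norm fun t => norm_ne_zero_iff.2 (h0 t))).smul hc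
  convert h2.isClosed.preimage h3 using 1
  ext t
  have ht : 0 < ‖c t‖ := norm_pos_iff.2 (h0 t)
  have ht' : ((‖q‖ / ‖c t‖ : ℝ) : ℍ) ≠ 0 := coe_ne_zero (div_pos hq' ht).ne'
  constructor
  · rintro ⟨u, a, ha, hu, e⟩
    refine ⟨(((‖q‖ / ‖c t‖ : ℝ) : ℍ) * a, hor q u), ⟨?_, nu_hor hq u, ?_⟩, ?_⟩
    · have h4 : ‖c t‖ = ‖a‖ * ‖q‖ := by rw [e, norm_smul, G.norm_ex hq]
      have h5 : 0 < ‖a‖ := norm_pos_iff.2 ha
      rw [mem_sphere_zero_iff_norm, norm_mul, Quaternion.norm_coe, Real.norm_eq_abs,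
        abs_of_pos (div_pos hq' ht), h4]
      field_simp
    · rwa [Log_hor h hq]
    · change (((‖q‖ / ‖c t‖ : ℝ) : ℍ) * a) • G.ex q (hor q u) = ((‖q‖ / ‖c t‖ : ℝ) : ℍ) • c t
      rw [G.ex_hor hq, mul_smul, ← e]
  · rintro ⟨⟨a, u⟩, ⟨ha, -, hu⟩, e⟩
    change a • G.ex q u = ((‖q‖ / ‖c t‖ : ℝ) : ℍ) • c t at e
    have h5 : a ≠ 0 := by
      rintro rfl
      simp at ha
    refine ⟨u, ((‖q‖ / ‖c t‖ : ℝ) : ℍ)⁻¹ * a, mul_ne_zero (inv_ne_zero ht') h5, hu, ?_⟩
    rw [mul_smul, e, inv_smul_smul₀ ht']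

theorem Log_dd_le (h : IsMetric g) {c : ℝ → E n} {q y : E n} (hc : Joins c q y) {t : ℝ}
    (ht : t ∈ Icc (0 : ℝ) 1) : dd g q (c t) ≤ len g c := by
  have h1 : Continuous (deriv c) := hc.smooth.continuous_deriv le_rfl
  have h2 : Continuous fun s => √(g (c s) (deriv c s) (deriv c s)) :=
    (((h.smooth.continuousOn.comp_continuous hc.smooth.continuous hc.ne).clm_apply h1).clm_apply
      h1).sqrt
  have h3 := h.dd_le_curve (c := c) (c' := deriv c) ht.1
    (fun s _ => (hc.smooth.differentiable (by simp) s).hasDerivAt) h1.continuousOn fun s _ => hc.ne s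
  rw [hc.start] at h3
  refine h3.trans (intervalIntegral.integral_mono_interval le_rfl ht.1 ht.2 ?_
    (h2.intervalIntegrable _ _))
  exact Eventually.of_forall fun s => Real.sqrt_nonneg _

/-- Logarithm and the scalar comparing a point with its canonical lift. -/
structure Lgm (g : Met n) (G : Geo g) where
  lg : E n → E n → E n
  sig : E n → E n → ℍ
  smooth_lg : ContDiffOn ℝ ∞ (fun p : VV n => lg p.1 p.2) (DD g)
  smooth_sig : ContDiffOn ℝ ∞ (fun p : VV n => sig p.1 p.2) (DD g)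
  nu_lg : ∀ q y, (q, y) ∈ DD g → nu q (lg q y) = 0
  norm_lg : ∀ q y, (q, y) ∈ DD g → √(g q (lg q y) (lg q y)) = dd g q y
  sig_ne : ∀ q y, (q, y) ∈ DD g → sig q y ≠ 0
  eq : ∀ q y, (q, y) ∈ DD g → y = sig q y • G.ex q (lg q y)
  uniq : ∀ q u (c : ℍ), q ≠ 0 → c ≠ 0 → √(g q u u) < Real.pi / 2 →
    lg q (c • G.ex q u) = hor q u ∧ sig q (c • G.ex q u) = c

namespace Bl
variable {G : Geo g} (B : Bl g G)
include B

theorem Log_local {q u : E n} (hq : q ≠ 0) {r : ℝ} (hu : √(g q u u) < r) (hr : r ≤ Real.pi / 2)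
    (hν : 1 + nu q u ≠ 0) : ∃ U : VV n → E n, ContDiffAt ℝ ∞ U (q, G.Ex q u) ∧
      ∀ᶠ p in 𝓝 ((q, G.Ex q u) : VV n), p.1 ≠ 0 ∧ √(g p.1 (U p) (U p)) < r ∧
        p.2 = (‖p.1‖⁻¹ • (1 + nu p.1 (U p))) • G.ex p.1 (U p) ∧
        ‖p.1‖⁻¹ • (1 + nu p.1 (U p)) ≠ 0 := by
  obtain ⟨U, h1, h2, h3⟩ := Log_inverse (F := fun p : VV n => G.Ex p.1 p.2) (q := q) (u := u)
    (G.contDiffOn_Ex.contDiffAt (Log_open.mem_nhds hq)) (B.det_Ex_ne hq (hu.trans_le hr) hν)
  refine ⟨U, h1, ?_⟩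
  have h4 := (Log_continuousAt B.met (p := (q, G.Ex q u)) hq h1.continuousAt).eventually_lt
    (continuousAt_const (y := r)) (by rwa [h2])
  have h5 : ∀ᶠ p in 𝓝 ((q, G.Ex q u) : VV n), p.2 ≠ 0 := continuousAt_snd.eventually_ne
    (smul_ne_zero (smul_ne_zero (inv_ne_zero (norm_ne_zero_iff.2 hq)) hν) (G.ex_ne hq u))
  filter_upwards [h3, h4, Log_open.mem_nhds (show ((q, G.Ex q u) : VV n) ∈ {p | p.1 ≠ 0} from hq),
    h5] with p e hp hp' h6
  exact ⟨hp', hp, e.symm, fun h7 => h6 (by rw [← e, Geo.Ex, h7, zero_smul])⟩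

theorem Log_dd {q u : E n} (hq : q ≠ 0) (hu : √(g q u u) < Real.pi / 2) {c : ℍ} (hc : c ≠ 0) :
    dd g q (c • G.ex q u) = √(g q u u) := by
  rw [dd_smul_right hc, B.dd_ex hq hu.le]

theorem Log_mem {q u : E n} (hq : q ≠ 0) (hu : √(g q u u) < Real.pi / 2) {c : ℍ} (hc : c ≠ 0) :
    (q, c • G.ex q u) ∈ DD g :=
  ⟨hq, smul_ne_zero hc (G.ex_ne hq u), (B.Log_dd hq hu hc).trans_lt hu⟩

theorem exists_ex {q y : E n} (h : (q, y) ∈ DD g) :
    ∃ (u : E n) (c : ℍ), c ≠ 0 ∧ √(g q u u) < Real.pi / 2 ∧ y = c • G.ex q u := by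
  obtain ⟨hq, hy, hd⟩ := h
  obtain ⟨c, hc, hl⟩ := exists_len_lt hq hy hd
  obtain ⟨r, hr, hr'⟩ := exists_between hl
  have hcc := hc.smooth.continuous
  have key := ((Log_closed G B.met hq r hcc hc.ne).inter isClosed_Icc
    ).Icc_subset_of_forall_mem_nhdsWithin (a := 0) (b := 1) ?_ ?_
  · obtain ⟨u, a, ha, hu, e⟩ := key (right_mem_Icc.2 zero_le_one)
    obtain ⟨b, hb⟩ := hc.stop
    have hb0 : b ≠ 0 := by
      rintro rfl
      exact hc.ne 1 (by rw [hb, zero_smul])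
    refine ⟨u, b⁻¹ * a, mul_ne_zero (inv_ne_zero hb0) ha, hu.trans_lt hr', ?_⟩
    rw [mul_smul, ← e, hb, inv_smul_smul₀ hb0]
  · refine ⟨0, 1, one_ne_zero, ?_, ?_⟩
    · rw [map_zero, Real.sqrt_zero]
      exact ((dd_nonneg _ _).trans (dd_le_len hc)).trans hr.le
    · rw [G.ex_zero hq, one_smul, hc.start]
  · rintro t ⟨⟨u, a, ha, hu, e⟩, ht⟩
    have h1 : √(g q u u) < r := by
      rw [← B.Log_dd hq (hu.trans_lt hr') ha, ← e]
      exact (Log_dd_le B.met hc (Ico_subset_Icc_self ht)).trans_lt hr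
    obtain ⟨u', h2, h3, hν⟩ := Log_exists_Ex G B.met hq u ha
    obtain ⟨U, -, h4⟩ := B.Log_local (u := u') hq (by rwa [h2]) hr'.le hν
    rw [h3, ← e] at h4
    have h5 : Tendsto (fun s => ((q, c s) : VV n)) (𝓝 t) (𝓝 (q, c t)) :=
      tendsto_const_nhds.prodMk_nhds hcc.continuousAt
    refine mem_nhdsWithin_of_mem_nhds ?_
    filter_upwards [h5.eventually h4] with s hs
    exact ⟨_, _, hs.2.2.2, hs.2.1.le, hs.2.2.1⟩

theorem exists_lgm : Nonempty (Lgm g G) := by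
  classical
  have h := B.met
  choose! u c hc hu e using fun (q y : E n) (hp : (q, y) ∈ DD g) => B.exists_ex hp
  have huniq : ∀ q v (a : ℍ), q ≠ 0 → a ≠ 0 → √(g q v v) < Real.pi / 2 →
      hor q (u q (a • G.ex q v)) = hor q v ∧ c q (a • G.ex q v) = a := by
    intro q v a hq ha hv
    have hm := B.Log_mem hq hv ha
    have h1 := e _ _ hm
    have h2 : G.ex q v = (a⁻¹ * c q (a • G.ex q v)) • G.ex q (u q (a • G.ex q v)) := by
      rw [mul_smul, ← h1, inv_smul_smul₀ ha]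
    have h3 := B.ex_inj hq hv (hu _ _ hm) h2
    exact ⟨h3.1.symm, ((inv_mul_eq_one₀ ha).1 h3.2).symm⟩
  have hloc : ∀ p ∈ DD g, ∃ U : VV n → E n, ContDiffAt ℝ ∞ U p ∧ ∀ᶠ x in 𝓝 p,
      hor x.1 (u x.1 x.2) = hor x.1 (U x) ∧
        c x.1 x.2 = ‖x.1‖⁻¹ • (1 + nu x.1 (U x)) := by
    rintro ⟨q, y⟩ hp
    obtain ⟨u', h2, h3, hν⟩ := Log_exists_Ex G h hp.1 (u q y) (hc _ _ hp)
    obtain ⟨U, h4, h5⟩ := B.Log_local (u := u') hp.1 (by rw [h2]; exact hu _ _ hp) le_rfl hν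
    rw [h3, ← e _ _ hp] at h4 h5
    refine ⟨U, h4, ?_⟩
    filter_upwards [h5] with x hx
    have h6 := huniq x.1 (U x) _ hx.1 hx.2.2.2 hx.2.1
    rwa [← hx.2.2.1] at h6
  refine ⟨⟨fun q y => hor q (u q y), c, fun p hp => ?_, fun p hp => ?_, fun q y hp => nu_hor hp.1 _,
    fun q y hp => ?_, hc, fun q y hp => ?_, huniq⟩⟩
  · obtain ⟨U, h1, h2⟩ := hloc p hp
    have h3 : ContDiffAt ℝ ∞ (fun x : VV n => hor x.1 (U x)) p :=
      ((contDiffOn_horL.contDiffAt (isOpen_compl_singleton.mem_nhds hp.1)).comp p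
        contDiffAt_fst).clm_apply h1
    exact (h3.congr_of_eventuallyEq (h2.mono fun x hx => hx.1)).contDiffWithinAt
  · obtain ⟨U, h1, h2⟩ := hloc p hp
    have h3 : ContDiffAt ℝ ∞ (fun x : VV n => nu x.1 (U x)) p :=
      ((contDiffOn_nuL.contDiffAt (isOpen_compl_singleton.mem_nhds hp.1)).comp p
        contDiffAt_fst).clm_apply h1
    have h4 : ContDiffAt ℝ ∞ (fun x : VV n => ‖x.1‖⁻¹) p :=
      (contDiffAt_fst.norm ℝ hp.1).inv (norm_ne_zero_iff.2 hp.1)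
    have h5 := h4.smul ((contDiffAt_const (c := (1 : ℍ))).add h3)
    exact (h5.congr_of_eventuallyEq (h2.mono fun x hx => hx.2)).contDiffWithinAt
  · rw [Log_hor h hp.1, ← B.Log_dd hp.1 (hu _ _ hp) (hc _ _ hp), ← e _ _ hp]
  · rw [G.ex_hor hp.1]
    exact e _ _ hp

end Bl

namespace Lgm
variable {G : Geo g} (B : Bl g G) (L : Lgm g G)
include B

theorem smul_right {q y : E n} (h : (q, y) ∈ DD g) {c : ℍ} (hc : c ≠ 0) :
    (q, c • y) ∈ DD g ∧ L.lg q (c • y) = L.lg q y ∧ L.sig q (c • y) = c * L.sig q y := by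
  have h1 : √(g q (L.lg q y) (L.lg q y)) < Real.pi / 2 := (L.norm_lg q y h).trans_lt h.2.2
  have h2 := L.uniq q (L.lg q y) (c * L.sig q y) h.1 (mul_ne_zero hc (L.sig_ne q y h)) h1
  have h3 := B.Log_mem h.1 h1 (mul_ne_zero hc (L.sig_ne q y h))
  rw [mul_smul, ← L.eq q y h] at h2 h3
  exact ⟨h3, h2.1.trans (hor_of_nu (L.nu_lg q y h)), h2.2⟩

theorem smul_left {q y : E n} (h : (q, y) ∈ DD g) {c : ℍ} (hc : c ≠ 0) :
    (c • q, y) ∈ DD g ∧ L.lg (c • q) y = c • L.lg q y ∧ L.sig (c • q) y = L.sig q y * c⁻¹ := by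
  have h0 : c • q ≠ 0 := smul_ne_zero hc h.1
  have h1 : √(g (c • q) (c • L.lg q y) (c • L.lg q y)) < Real.pi / 2 := by
    rw [B.met.inv c _ _ _ hc h.1]
    exact (L.norm_lg q y h).trans_lt h.2.2
  have h4 := mul_ne_zero (L.sig_ne q y h) (inv_ne_zero hc)
  have h2 := L.uniq (c • q) (c • L.lg q y) _ h0 h4 h1
  have h3 := B.Log_mem h0 h1 h4
  have h5 : (L.sig q y * c⁻¹) • G.ex (c • q) (c • L.lg q y) = y := by
    rw [G.ex_smul hc h.1, smul_smul, inv_mul_cancel_right₀ hc, ← L.eq q y h]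
  rw [h5] at h2 h3
  refine ⟨h3, h2.1.trans (hor_of_nu ?_), h2.2⟩
  rw [nu_smul_smul, L.nu_lg q y h, mul_zero, zero_mul]

theorem self {q : E n} (hq : q ≠ 0) {c : ℍ} (hc : c ≠ 0) :
    (q, c • q) ∈ DD g ∧ L.lg q (c • q) = 0 ∧ L.sig q (c • q) = c := by
  have h1 : √(g q 0 0) < Real.pi / 2 := by
    rw [map_zero, Real.sqrt_zero]
    positivity
  have h2 := L.uniq q 0 c hq hc h1
  have h3 := B.Log_mem hq h1 hc
  rw [G.ex_zero hq] at h2 h3
  exact ⟨h3, h2.1.trans (map_zero (horL q)), h2.2⟩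

end Lgm

end Pool.Agent.Work.MP_8c604c_gt.H
end
end

-- merged part: Pool.Agent.Work.MP_8c604c_gt.H.RigC
section
/-!
Gluing the charts to a global isometry (port of ../RigC.lean).
-/

set_option maxSynthPendingDepth 3

open Set Filter Topology MeasureTheory
open scoped ContDiff Quaternion

noncomputable section
namespace Pool.Agent.Work.MP_8c604c_gt.H

open Real

open scoped LinearAlgebra.Projectivization

variable {n : ℕ} {g : Met n} {G : Geo g}

theorem rigc_ne_right {z u : E n} (h : nu z u ≠ 0) : u ≠ 0 :=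
  fun h0 => h (by rw [h0, nu_zero])

theorem rigc_nu_symm {z u : E n} (h : nu z u ≠ 0) : nu u z ≠ 0 := fun h0 =>
  h (by rw [nu_def, ← star_hm, (nu_eq_zero (rigc_ne_right h)).1 h0, star_zero, smul_zero])

theorem rigc_open (o : E n) : IsOpen {y | nu o y ≠ 0} :=
  isOpen_ne_fun (nuL o).continuous continuous_const

theorem rigc_dense {o : E n} (ho : o ≠ 0) : Dense {y | nu o y ≠ 0} := by
  intro y
  by_cases hy : nu o y = 0
  · have h1 : Tendsto (fun ε : ℝ => y + ε • o) (𝓝[>] 0) (𝓝 y) := by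
      have h2 : Continuous fun ε : ℝ => y + ε • o := by fun_prop
      simpa using (h2.tendsto 0).mono_left nhdsWithin_le_nhds
    refine mem_closure_of_tendsto h1 ?_
    filter_upwards [self_mem_nhdsWithin] with ε hε
    rw [nu_add, hy, zero_add, nu_rsmul, nu_self ho]
    exact smul_ne_zero (ne_of_gt hε) one_ne_zero
  · exact subset_closure hy

theorem rigc_nu_ray (o a b : E n) (s t : ℝ) :
    nu o (s • a + t • b) = s • nu o a + t • nu o b := by
  rw [nu_add, nu_rsmul, nu_rsmul]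

theorem rigc_chart_smooth (G : Geo g) {o p : E n} (ho : o ≠ 0) (hp : p ≠ 0)
    (L : E n →L[ℝ] E n) : ContDiffOn ℝ ∞ (chart G o p L) {y | nu o y ≠ 0} := by
  have h1 : ContDiff ℝ ∞ (G.ex p) := by
    rw [← contDiffOn_univ]
    exact G.contDiffOn_ex.comp (contDiff_const.prodMk contDiff_id).contDiffOn fun _ _ => hp
  exact h1.comp_contDiffOn (L.contDiff.comp_contDiffOn (contDiffOn_lgF ho))

theorem rigc_chart_smul (G : Geo g) (o p : E n) (L : E n →L[ℝ] E n) {c : ℍ} (hc : c ≠ 0)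
    (y : E n) : chart G o p L (c • y) = chart G o p L y := by
  rw [chart, chart, lgF_smul hc]

theorem rigc_ray (hg : IsMetric g) {o : E n} {F : E n → E n}
    (hF : ContDiffOn ℝ ∞ F {y | nu o y ≠ 0}) (hF0 : ∀ y, F y ≠ 0)
    (hiso : ∀ y, nu o y ≠ 0 → ∀ u w, g (F y) (fderiv ℝ F y u) (fderiv ℝ F y w) = fsM n y u w)
    {o' h : E n} (ho' : o' ≠ 0) (h0 : nu o' h = 0) (h1 : ‖h‖ = ‖o'‖) {t : ℝ}
    (ht : t ∈ Ico 0 (π / 2)) (hs : ∀ s ∈ Icc 0 t, nu o (cos s • o' + sin s • h) ≠ 0) :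
    ∃ l : ℍ, l ≠ 0 ∧ F (cos t • o' + sin t • h) =
      l • chart G o' (F o') (fderiv ℝ F o') (cos t • o' + sin t • h) := by
  set c : ℝ → E n := fun s => cos s • o' + sin s • h with hc
  have hcs : ContDiff ℝ ∞ c := (contDiff_cos.smul contDiff_const).add
    (contDiff_sin.smul contDiff_const)
  have hcd : ∀ s, HasDerivAt c (-sin s • o' + cos s • h) s := fun s =>
    ((hasDerivAt_cos s).smul_const o').add ((hasDerivAt_sin s).smul_const h)
  have hder : deriv c = fun s => -sin s • o' + cos s • h := funext fun s => (hcd s).deriv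
  have hS : IsOpen (c ⁻¹' {y | nu o y ≠ 0}) := (rigc_open o).preimage hcs.continuous
  obtain ⟨a, a', ha, ha'⟩ := mem_nhds_iff_exists_Ioo_subset.mp
    (hS.mem_nhds (hs 0 ⟨le_rfl, ht.1⟩))
  obtain ⟨b', b, hb, hb'⟩ := mem_nhds_iff_exists_Ioo_subset.mp
    (hS.mem_nhds (hs t ⟨ht.1, le_rfl⟩))
  have hab : ∀ s ∈ Ioo a b, nu o (c s) ≠ 0 := by
    intro s hs'
    rcases lt_or_ge s 0 with h2 | h2
    · exact ha' ⟨hs'.1, h2.trans ha.2⟩
    · rcases le_or_gt s t with h3 | h3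
      · exact hs s ⟨h2, h3⟩
      · exact hb' ⟨hb.1.trans h3, hs'.2⟩
  obtain ⟨l, hl, e⟩ := G.uniq (F ∘ c) a b 0 ⟨ha.1, ht.1.trans_lt hb.2⟩
    (hF.comp hcs.contDiffOn hab) (fun s _ => hF0 _)
    (fun s hs' η => el_map hg isMetric_fsM (rigc_open o) (fun y hy => rigc_ne_right hy) hF
      (fun y _ => hF0 y) hiso hcs.contDiffAt (hab s hs')
      (fun η => by rw [hder]; exact fs_el ho' h0 h1 s η) η) t ⟨ha.1.trans_le ht.1, hb.2⟩
  refine ⟨l, hl, ?_⟩
  have hc0 : c 0 = o' := by simp [hc]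
  have hd0 : deriv (F ∘ c) 0 = fderiv ℝ F o' h := by
    have h2 : DifferentiableAt ℝ F (c 0) :=
      (hF.contDiffAt ((rigc_open o).mem_nhds (hs 0 ⟨le_rfl, ht.1⟩))).differentiableAt (by simp)
    rw [(h2.hasFDerivAt.comp_hasDerivAt 0 (hcd 0)).deriv, hc0]
    simp
  rw [hd0, sub_zero, Function.comp_apply, Function.comp_apply, hc0,
    ← G.ex_real_smul (hF0 _)] at e
  rw [chart, lgF_ray ho' h0 h1 (by rw [abs_of_nonneg ht.1]; exact ht.2), map_smul]
  exact e

/-- A unit quaternion close to `1`. -/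
def rigcR (ε : ℝ) : ℍ := cos ε • (1 : ℍ) + sin ε • qi

theorem rigc_norm_R (ε : ℝ) : ‖rigcR ε‖ = 1 := by
  have h : ‖rigcR ε‖ * ‖rigcR ε‖ = 1 := by
    rw [← Quaternion.normSq_eq_norm_mul_self, Quaternion.normSq_def']
    simp [rigcR, qi]
  nlinarith [norm_nonneg (rigcR ε)]

theorem rigc_good {A : ℍ} (hA : A ≠ 0) (Bh : ℍ) : ∀ᶠ ε : ℝ in 𝓝[>] 0, ∀ s ∈ Ico 0 (π / 2),
    cos s • A + sin s • (rigcR ε * Bh) ≠ 0 := by
  have hcos : ∀ s ∈ Ico 0 (π / 2), cos s ≠ 0 := fun s hs =>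
    (cos_pos_of_mem_Ioo ⟨by linarith [hs.1, pi_pos], hs.2⟩).ne'
  by_cases hB : Bh = 0
  · refine Eventually.of_forall fun ε s hs => ?_
    rw [hB, mul_zero, smul_zero, add_zero]
    exact smul_ne_zero (hcos s hs) hA
  obtain ⟨D, rfl⟩ : ∃ D, A = D * Bh := ⟨A * Bh⁻¹, (inv_mul_cancel_right₀ hB A).symm⟩
  have hD : D ≠ 0 := left_ne_zero_of_mul hA
  have h1 : ∀ᶠ ε in 𝓝[>] (0 : ℝ), D.imJ = 0 → D.imK = 0 → D.imI * cos ε - D.re * sin ε ≠ 0 := by
    by_cases h2 : D.imI = 0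
    · filter_upwards [Ioo_mem_nhdsGT pi_pos] with ε hε hJ hK
      rw [h2, zero_mul, zero_sub, neg_ne_zero]
      refine mul_ne_zero (fun h3 => hD ?_) (sin_pos_of_pos_of_lt_pi hε.1 hε.2).ne'
      exact Quaternion.ext _ _ h3 h2 hJ hK
    · have h3 : Continuous fun ε : ℝ => D.imI * cos ε - D.re * sin ε := by fun_prop
      exact ((h3.continuousAt.eventually_ne (by simpa using h2)).filter_mono
        nhdsWithin_le_nhds).mono fun ε hε _ _ => hε
  filter_upwards [h1] with ε hε s hs h0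
  rw [← smul_mul_assoc, ← smul_mul_assoc, ← add_mul] at h0
  have h4 := (mul_eq_zero.1 h0).resolve_right hB
  have k1 : cos s * D.re + sin s * cos ε = 0 := by
    simpa [rigcR, qi] using congrArg QuaternionAlgebra.re h4
  have k2 : cos s * D.imI + sin s * sin ε = 0 := by
    simpa [rigcR, qi] using congrArg QuaternionAlgebra.imI h4
  have k3 : D.imJ = 0 := by
    simpa [rigcR, qi, hcos s hs] using congrArg QuaternionAlgebra.imJ h4
  have k4 : D.imK = 0 := by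
    simpa [rigcR, qi, hcos s hs] using congrArg QuaternionAlgebra.imK h4
  refine mul_ne_zero (hcos s hs) (hε k3 k4) ?_
  linear_combination cos ε * k2 - sin ε * k1

theorem rigc_agree (hn : 1 ≤ n) (hg : IsMetric g) {o : E n} {F : E n → E n}
    (hF : ContDiffOn ℝ ∞ F {y | nu o y ≠ 0}) (hF0 : ∀ y, F y ≠ 0)
    (hFs : ∀ c : ℍ, c ≠ 0 → ∀ y, F (c • y) = F y)
    (hiso : ∀ y, nu o y ≠ 0 → ∀ u w, g (F y) (fderiv ℝ F y u) (fderiv ℝ F y w) = fsM n y u w)
    {o' y : E n} (ho' : nu o o' ≠ 0) (hy : nu o y ≠ 0) (hy' : nu o' y ≠ 0) :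
    ∃ l : ℍ, l ≠ 0 ∧ chart G o' (F o') (fderiv ℝ F o') y = l • F y := by
  have ho0 := rigc_ne_right ho'
  obtain ⟨h, t, c, h0, h1, ht, hc, rfl⟩ := exists_ray hn ho0 hy'
  rw [nu_smul] at hy hy'
  rw [hFs c hc, rigc_chart_smul G _ _ _ hc]
  set F' := chart G o' (F o') (fderiv ℝ F o') with hF'
  have hne : ∀ y, F' y ≠ 0 := fun y => G.ex_ne (hF0 _) _
  have hten : Tendsto (fun ε : ℝ => cos t • o' + sin t • rigcR ε • h) (𝓝[>] 0)
      (𝓝 (cos t • o' + sin t • h)) := by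
    have h2 : Continuous fun ε : ℝ => cos t • o' + sin t • rigcR ε • h := by
      unfold rigcR
      fun_prop
    simpa [rigcR] using (h2.tendsto 0).mono_left nhdsWithin_le_nhds
  have c1 : ContinuousAt F (cos t • o' + sin t • h) :=
    hF.continuousOn.continuousAt ((rigc_open o).mem_nhds (right_ne_zero_of_mul hy))
  have c2 : ContinuousAt F' (cos t • o' + sin t • h) :=
    (rigc_chart_smooth G ho0 (hF0 _) _).continuousOn.continuousAt
      ((rigc_open o').mem_nhds (right_ne_zero_of_mul hy'))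
  have c3 : ContinuousAt (fun y => hor (F y) (F' y)) (cos t • o' + sin t • h) :=
    ((contDiffOn_horL.continuousOn.continuousAt
      (isOpen_compl_singleton.mem_nhds (hF0 _))).comp c1).clm_apply c2
  have h2 : hor (F (cos t • o' + sin t • h)) (F' (cos t • o' + sin t • h)) = 0 := by
    refine tendsto_nhds_unique (c3.tendsto.comp hten) (tendsto_const_nhds.congr' ?_)
    filter_upwards [rigc_good ho' (nu o h)] with ε hε
    obtain ⟨l, hl, e⟩ := rigc_ray (G := G) hg hF hF0 hiso (h := rigcR ε • h)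
      ho0 (by rw [nu_smul, h0, mul_zero])
      (by rw [norm_smul, rigc_norm_R, one_mul, h1]) ht fun s hs => by
        rw [rigc_nu_ray, nu_smul]
        exact hε s ⟨hs.1, hs.2.trans_lt ht.2⟩
    refine ((hor_eq_zero_iff (hF0 _) _).mpr ⟨l⁻¹, ?_⟩).symm
    rw [e, smul_smul, inv_mul_cancel₀ hl, one_smul]
  obtain ⟨l, e⟩ := (hor_eq_zero_iff (hF0 _) _).mp h2
  refine ⟨l, ?_, e⟩
  rintro rfl
  exact hne _ (e.trans (zero_smul _ _))

theorem rigc_line_iso (hg : IsMetric g) {F F' : E n → E n} {W : Set (E n)} (hW : IsOpen W)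
    (hF : ContDiffOn ℝ ∞ F W) (hF' : ContDiffOn ℝ ∞ F' W) (h0 : ∀ y ∈ W, F y ≠ 0)
    (hl : ∀ y ∈ W, ∃ l : ℍ, l ≠ 0 ∧ F' y = l • F y) {y : E n} (hy : y ∈ W) (u w : E n) :
    g (F' y) (fderiv ℝ F' y u) (fderiv ℝ F' y w) = g (F y) (fderiv ℝ F y u) (fderiv ℝ F y w) := by
  have d1 : DifferentiableAt ℝ F y := (hF.contDiffAt (hW.mem_nhds hy)).differentiableAt (by simp)
  have d2 : DifferentiableAt ℝ F' y := (hF'.contDiffAt (hW.mem_nhds hy)).differentiableAt (by simp)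
  have d3 : DifferentiableAt ℝ (fun z => nu (F z) (F' z)) y :=
    (((contDiffOn_nuL.contDiffAt (isOpen_compl_singleton.mem_nhds (h0 y hy))).differentiableAt
      (by simp)).comp y d1).clm_apply d2
  have he : F' =ᶠ[𝓝 y] fun z => nu (F z) (F' z) • F z := by
    filter_upwards [hW.mem_nhds hy] with z hz
    obtain ⟨l, -, e⟩ := hl z hz
    rw [e, nu_smul, nu_self (h0 z hz), mul_one]
  have h1 := ((d3.hasFDerivAt.smul d1.hasFDerivAt).congr_of_eventuallyEq he).fderiv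
  obtain ⟨l, hl0, e⟩ := hl y hy
  have h2 : nu (F y) (F' y) = l := by rw [e, nu_smul, nu_self (h0 y hy), mul_one]
  have h3 : ∀ c : ℍ, c • F y = (c * l⁻¹) • l • F y := fun c => by
    rw [smul_smul, inv_mul_cancel_right₀ hl0]
  have h4 : l • F y ≠ 0 := smul_ne_zero hl0 (h0 y hy)
  rw [h1, h2, e]
  simp only [add_apply, smul_apply,
    ContinuousLinearMap.smulRight_apply, map_add]
  rw [h3 (fderiv ℝ _ y u), h3 (fderiv ℝ _ y w), hg.vert _ _ _ h4, hg.vert _ _ _ h4,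
    hg.vert' _ _ h4, hg.inv _ _ _ _ hl0 (h0 y hy)]
  ring

theorem rigc_L_inj (hg : IsMetric g) {o p : E n} (ho : o ≠ 0) (hp : p ≠ 0) {L : E n →L[ℝ] E n}
    (hL : ∀ u w, g p (L u) (L w) = fsM n o u w) {d : E n} (hd : nu o d = 0)
    (h : hor p (L d) = 0) : d = 0 := by
  have h1 := hL d d
  rw [← hg.hor_left hp, h, map_zero, zero_apply] at h1
  rw [← hor_of_nu hd]
  exact isMetric_fsM.hor_eq_zero ho h1.symm

theorem rigc_inj (B : Bl g G) {o p : E n} (ho : o ≠ 0) (hp : p ≠ 0) {L : E n →L[ℝ] E n}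
    (hL : ∀ u w, g p (L u) (L w) = fsM n o u w) {y y' : E n} (hy : nu o y ≠ 0)
    (hy' : nu o y' ≠ 0) {c : ℍ} (e : chart G o p L y = c • chart G o p L y') :
    ∃ a : ℍ, y = a • y' := by
  have hn : 1 ≤ n := le_trans one_le_two B.two
  have h1 := (B.ex_inj hp (by rw [hL]; exact (lgF_norm ho).2) (by rw [hL]; exact (lgF_norm ho).2)
    e).1
  have h2 : lgF o y = lgF o y' := by
    refine sub_eq_zero.mp (rigc_L_inj B.met ho hp hL ?_ ?_)
    · rw [← nuL_apply, map_sub, nuL_apply, nuL_apply, (lgF_norm ho).1, (lgF_norm ho).1, sub_zero]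
    · rw [map_sub, ← horL_apply, map_sub, horL_apply, horL_apply, h1, sub_self]
  obtain ⟨h, t, a, h0, hh, ht, ha, rfl⟩ := exists_ray hn ho hy
  obtain ⟨h', t', a', h0', hh', ht', ha', rfl⟩ := exists_ray hn ho hy'
  rw [lgF_smul ha, lgF_smul ha', lgF_ray ho h0 hh (by rw [abs_of_nonneg ht.1]; exact ht.2),
    lgF_ray ho h0' hh' (by rw [abs_of_nonneg ht'.1]; exact ht'.2)] at h2
  have h3 : t = t' := by
    have h4 := congrArg norm h2
    rw [norm_smul, norm_smul, hh, hh', norm_of_nonneg ht.1, norm_of_nonneg ht'.1] at h4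
    exact mul_right_cancel₀ (norm_ne_zero_iff.mpr ho) h4
  subst h3
  refine ⟨a * a'⁻¹, ?_⟩
  rw [smul_smul, inv_mul_cancel_right₀ ha']
  by_cases h4 : t = 0
  · simp [h4]
  · rw [smul_right_injective _ h4 h2]

theorem rigc_surj (B : Bl g G) {o p : E n} (ho : o ≠ 0) {L : E n →L[ℝ] E n}
    (hL : ∀ u w, g p (L u) (L w) = fsM n o u w) {z : E n} (hz : (p, z) ∈ DD g) :
    ∃ (y : E n) (c : ℍ), nu o y ≠ 0 ∧ z = c • chart G o p L y := by
  have hn : 1 ≤ n := le_trans one_le_two B.two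
  have hp : p ≠ 0 := hz.1
  obtain ⟨u, c, -, hu, e⟩ := B.exists_ex hz
  set T : E n →L[ℝ] E n := (horL p).comp (L.comp (horL o)) +
    ((ContinuousLinearMap.lsmul ℝ ℍ).flip p).comp (nuL o) with hT
  have hTa : ∀ a, T a = hor p (L (hor o a)) + nu o a • p := fun a => rfl
  have hnu : ∀ a, nu p (T a) = nu o a := fun a => by
    rw [hTa, nu_add, nu_hor hp, zero_add, nu_smul, nu_self hp, mul_one]
  have hinj : Function.Injective (T : E n →ₗ[ℝ] E n) := by
    rw [injective_iff_map_eq_zero]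
    intro a ha
    change T a = 0 at ha
    have h1 := hnu a
    rw [ha, ← nuL_apply, map_zero] at h1
    rw [hTa, ← h1, zero_smul, add_zero, hor_of_nu h1.symm] at ha
    exact rigc_L_inj B.met ho hp hL h1.symm ha
  obtain ⟨a, ha⟩ := LinearMap.injective_iff_surjective.mp hinj (hor p u)
  change T a = hor p u at ha
  have h1 : nu o a = 0 := by rw [← hnu, ha, nu_hor hp]
  rw [hTa, h1, zero_smul, add_zero, hor_of_nu h1] at ha
  have hon : 0 < ‖o‖ := norm_pos_iff.mpr ho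
  have h2 : ‖a‖ / ‖o‖ < π / 2 := by
    rw [← B.met.hor_left hp, ← B.met.hor_right hp, ← ha, B.met.hor_left hp, B.met.hor_right hp,
      hL, fsM_eq, hor_of_nu h1, real_inner_self_eq_norm_sq, ← div_eq_inv_mul, ← div_pow,
      sqrt_sq (by positivity)] at hu
    exact hu
  obtain ⟨h, h0, hh, hth⟩ : ∃ h : E n, nu o h = 0 ∧ ‖h‖ = ‖o‖ ∧ (‖a‖ / ‖o‖) • h = a := by
    by_cases ha0 : a = 0
    · obtain ⟨h, -, -, h0, hh, -⟩ := exists_ray hn ho (y := o)
        (by rw [nu_self ho]; exact one_ne_zero)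
      exact ⟨h, h0, hh, by simp [ha0]⟩
    · have han : 0 < ‖a‖ := norm_pos_iff.mpr ha0
      refine ⟨(‖o‖ / ‖a‖) • a, ?_, ?_, ?_⟩
      · rw [← nuL_apply, map_smul, nuL_apply, h1, smul_zero]
      · rw [norm_smul, norm_of_nonneg (by positivity), div_mul_cancel₀ _ han.ne']
      · rw [smul_smul, div_mul_div_cancel₀ hon.ne', div_self han.ne', one_smul]
  have h3 : 0 ≤ ‖a‖ / ‖o‖ := by positivity
  refine ⟨cos (‖a‖ / ‖o‖) • o + sin (‖a‖ / ‖o‖) • h, c, ?_, ?_⟩
  · rw [rigc_nu_ray, h0, nu_self ho, smul_zero, add_zero]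
    exact smul_ne_zero (cos_pos_of_mem_Ioo ⟨by linarith [pi_pos], h2⟩).ne' one_ne_zero
  · rw [chart, lgF_ray ho h0 hh (by rwa [abs_of_nonneg h3]), hth, ← G.ex_hor hp (L a), ha,
      G.ex_hor hp]
    exact e

theorem rigc_dd_near (hg : IsMetric g) {z : E n} (hz : z ≠ 0) :
    ∀ᶠ w in 𝓝 z, dd g w z < π / 4 := by
  have h1 : IsOpen {p : VV n | p.1 ≠ 0 ∧ p.2 ≠ 0} :=
    (isOpen_ne_fun continuous_fst continuous_const).inter
      (isOpen_ne_fun continuous_snd continuous_const)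
  have h2 : ContinuousAt (fun w => dd g w z) z :=
    ContinuousAt.comp (f := fun w : E n => ((w, z) : VV n))
      (hg.continuousOn_dd.continuousAt (h1.mem_nhds ⟨hz, hz⟩))
      (continuous_id.prodMk continuous_const).continuousAt
  refine h2.eventually_lt continuousAt_const ?_
  rw [hg.dd_self hz]
  positivity

theorem Bl.exists_isometry (B : Bl g G) {o : E n} (ho : o ≠ 0) {L : E n →L[ℝ] E n}
    (hL : ∀ u w, g o (L u) (L w) = fsM n o u w)
    (hiso : ∀ y, nu o y ≠ 0 → ∀ u w, g (chart G o o L y) (fderiv ℝ (chart G o o L) y u)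
      (fderiv ℝ (chart G o o L) y w) = fsM n y u w) :
    ∃ Ψ : ℙ ℍ (E n) → ℙ ℍ (E n), Function.Bijective Ψ ∧ PullsBack g Ψ 1 := by
  have hn : 1 ≤ n := le_trans one_le_two B.two
  have hg := B.met
  set ch : E n → E n → E n := fun o' =>
    chart G o' (chart G o o L o') (fderiv ℝ (chart G o o L) o') with hch
  have hne : ∀ o' y, ch o' y ≠ 0 := fun o' y => G.ex_ne (G.ex_ne ho _) _
  have hsm : ∀ o', nu o o' ≠ 0 → ContDiffOn ℝ ∞ (ch o') {y | nu o' y ≠ 0} := fun o' ho' =>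
    rigc_chart_smooth G (rigc_ne_right ho') (G.ex_ne ho _) _
  have hag : ∀ o', nu o o' ≠ 0 → ∀ y, nu o y ≠ 0 → nu o' y ≠ 0 →
      ∃ l : ℍ, l ≠ 0 ∧ ch o' y = l • chart G o o L y := fun o' ho' y hy hy' =>
    rigc_agree hn hg (rigc_chart_smooth G ho ho L) (fun y => G.ex_ne ho _)
      (fun c hc y => rigc_chart_smul G o o L hc y) hiso ho' hy hy'
  have hag2 : ∀ o', nu o o' ≠ 0 → ∀ o'', nu o o'' ≠ 0 → ∀ y, nu o' y ≠ 0 → nu o'' y ≠ 0 →
      ∃ l : ℍ, ch o' y = l • ch o'' y := by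
    intro o' ho' o'' ho'' y hy' hy''
    have hW : IsOpen ({y | nu o' y ≠ 0} ∩ {y | nu o'' y ≠ 0}) := (rigc_open o').inter (rigc_open o'')
    have h1 : EqOn (fun y => hor (ch o'' y) (ch o' y)) (fun _ => 0)
        ({y | nu o' y ≠ 0} ∩ {y | nu o'' y ≠ 0}) := by
      refine EqOn.of_subset_closure ?_ ?_ continuousOn_const inter_subset_left
        ((rigc_dense ho).open_subset_closure_inter hW)
      · intro z hz
        obtain ⟨l', -, e'⟩ := hag o' ho' z hz.2 hz.1.1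
        obtain ⟨l'', hl'', e''⟩ := hag o'' ho'' z hz.2 hz.1.2
        refine (hor_eq_zero_iff (hne _ _) _).mpr ⟨l' * l''⁻¹, ?_⟩
        rw [e', e'', smul_smul, inv_mul_cancel_right₀ hl'']
      · exact (contDiffOn_horL.continuousOn.comp ((hsm o'' ho'').continuousOn.mono
          inter_subset_right) fun z _ => hne _ _).clm_apply
          ((hsm o' ho').continuousOn.mono inter_subset_left)
    exact (hor_eq_zero_iff (hne _ _) _).mp (h1 ⟨hy', hy''⟩)
  have hsel : ∀ y : E n, y ≠ 0 → ∃ o', nu o o' ≠ 0 ∧ nu o' y ≠ 0 := by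
    intro y hy
    obtain ⟨o', h1, h2⟩ := (rigc_dense ho).inter_open_nonempty _ (rigc_open y)
      ⟨y, by rw [mem_ofPred_eq, nu_self hy]; exact one_ne_zero⟩
    exact ⟨o', h2, rigc_nu_symm h1⟩
  choose sel hsel1 hsel2 using fun q : ℙ ℍ (E n) => hsel q.rep q.rep_nonzero
  set Ψ : ℙ ℍ (E n) → ℙ ℍ (E n) := fun q => Projectivization.mk ℍ (ch (sel q) q.rep) (hne _ _)
    with hΨ
  have key : ∀ o', nu o o' ≠ 0 → ∀ y (hy : y ≠ 0), nu o' y ≠ 0 →
      Ψ (Projectivization.mk ℍ y hy) = Projectivization.mk ℍ (ch o' y) (hne _ _) := by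
    intro o' ho' y hy hy'
    obtain ⟨a, ha⟩ := Projectivization.exists_smul_eq_mk_rep ℍ y hy
    have h1 := hsel2 (Projectivization.mk ℍ y hy)
    rw [hΨ, Projectivization.mk_eq_mk_iff']
    rw [← ha, Units.smul_def, nu_smul] at h1
    obtain ⟨l, hl⟩ := hag2 _ (hsel1 _) o' ho' y (right_ne_zero_of_mul h1) hy'
    refine ⟨l, ?_⟩
    rw [← hl, ← ha, Units.smul_def]
    exact (rigc_chart_smul G _ _ _ a.ne_zero y).symm
  refine ⟨Ψ, ⟨fun q₁ q₂ hq => ?_, ?_⟩, fun z₀ hz₀ => ?_⟩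
  · obtain ⟨o', ⟨h1, h2⟩, h3⟩ := ((rigc_dense ho).inter_of_isOpen_left (rigc_dense q₁.rep_nonzero)
      (rigc_open o)).inter_open_nonempty _ (rigc_open q₂.rep)
      ⟨q₂.rep, by rw [mem_ofPred_eq, nu_self q₂.rep_nonzero]; exact one_ne_zero⟩ |>.imp
      fun _ h => And.intro h.2 h.1
    rw [← q₁.mk_rep, ← q₂.mk_rep] at hq ⊢
    rw [key o' h1 _ _ (rigc_nu_symm h2), key o' h1 _ _ (rigc_nu_symm h3),
      Projectivization.mk_eq_mk_iff'] at hq
    obtain ⟨c, hc⟩ := hq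
    obtain ⟨a, ha⟩ := rigc_inj B (rigc_ne_right h1) (G.ex_ne ho _) (hiso o' h1) (rigc_nu_symm h2)
      (rigc_nu_symm h3) hc.symm
    exact (Projectivization.mk_eq_mk_iff' ℍ _ _ _ _).mpr ⟨a, ha.symm⟩
  · set I : Set (E n) := {z | ∃ hz : z ≠ 0, Projectivization.mk ℍ z hz ∈ range Ψ} with hI
    have hA : ∀ o', nu o o' ≠ 0 → ∀ z, z ≠ 0 → dd g (chart G o o L o') z < π / 2 → z ∈ I := by
      intro o' ho' z hz hd
      obtain ⟨y, c, hy, hc⟩ := rigc_surj B (rigc_ne_right ho') (hiso o' ho')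
        (show (chart G o o L o', z) ∈ DD g from ⟨G.ex_ne ho _, hz, hd⟩)
      refine ⟨hz, Projectivization.mk ℍ y (rigc_ne_right hy), ?_⟩
      rw [key o' ho' y _ hy, eq_comm, Projectivization.mk_eq_mk_iff']
      exact ⟨c, hc.symm⟩
    have hD : ∀ z' ∈ I, ∀ z, z ≠ 0 → dd g z' z < π / 4 → z ∈ I := by
      rintro z' ⟨hz', q, hq⟩ z hz hd
      rw [hΨ, Projectivization.mk_eq_mk_iff'] at hq
      obtain ⟨c, hc⟩ := hq
      have hc0 : c ≠ 0 := by
        rintro rfl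
        exact hne _ _ (hc.symm.trans (zero_smul _ _))
      have h1 : ContinuousAt (ch (sel q)) q.rep :=
        (hsm _ (hsel1 q)).continuousOn.continuousAt ((rigc_open _).mem_nhds (hsel2 q))
      have h2 : ∀ᶠ w in 𝓝 q.rep, dd g (ch (sel q) w) (ch (sel q) q.rep) < π / 4 :=
        h1.eventually (rigc_dd_near hg (hne _ _))
      obtain ⟨o', ⟨h3, h4⟩, h5⟩ := mem_closure_iff_nhds.mp (rigc_dense ho q.rep) _
        (h2.and ((rigc_open _).mem_nhds (hsel2 q)))
      obtain ⟨l, hl, e⟩ := hag _ (hsel1 q) o' h5 h4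
      refine hA o' h5 z hz ?_
      rw [e, hg.dd_smul_left hl, ← hc, dd_smul_right hc0] at h3
      have h6 := hg.dd_triangle (G.ex_ne ho (L (lgF o o'))) hz' hz
      change dd g (chart G o o L o') z ≤ dd g (chart G o o L o') z' + _ at h6
      linarith
    have hrank : 1 < Module.rank ℝ (E n) := by
      rw [← Module.finrank_eq_rank, finrank_E]
      exact_mod_cast (by omega : 1 < 4 * n + 4)
    have hsub : ({0}ᶜ : Set (E n)) ⊆ I := by
      refine (isConnected_compl_singleton_of_one_lt_rank hrank 0).isPreconnected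
        |>.subset_of_closure_inter_subset ?_ ?_ ?_
      · rw [isOpen_iff_mem_nhds]
        intro z' hz'
        filter_upwards [rigc_dd_near hg hz'.1, isOpen_compl_singleton.mem_nhds hz'.1] with z h1 h2
        exact hD z' hz' z h2 (by rwa [hg.dd_symm hz'.1 h2])
      · exact ⟨_, hne (sel (Projectivization.mk ℍ o ho)) _, hne _ _, _, rfl⟩
      · rintro z ⟨h1, h2⟩
        obtain ⟨z', h3, h4⟩ := mem_closure_iff_nhds.mp h1 _ (rigc_dd_near hg h2)
        exact hD z' h4 z h2 h3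
    intro q
    obtain ⟨_, h⟩ := hsub q.rep_nonzero
    rwa [q.mk_rep] at h
  · obtain ⟨o', h1, h2⟩ := hsel z₀ hz₀
    refine ⟨{y | nu o' y ≠ 0}, rigc_open o', h2, ch o', hsm o' h1, fun z hz =>
      ⟨rigc_ne_right hz, hne _ _, key o' h1 z _ hz, fun u w => ?_⟩⟩
    rw [one_mul, ← fsM_apply (rigc_ne_right hz)]
    have h3 : EqOn (fun y => g (ch o' y) (fderiv ℝ (ch o') y u) (fderiv ℝ (ch o') y w))
        (fun y => fsM n y u w) {y | nu o' y ≠ 0} := by
      refine EqOn.of_subset_closure ?_ ?_ ?_ inter_subset_left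
        ((rigc_dense ho).open_subset_closure_inter (rigc_open o'))
      · intro y hy
        exact (rigc_line_iso hg ((rigc_open o').inter (rigc_open o))
          ((rigc_chart_smooth G ho ho L).mono inter_subset_right)
          ((hsm o' h1).mono inter_subset_left) (fun y _ => G.ex_ne ho _)
          (fun y hy => hag o' h1 y hy.2 hy.1) hy u w).trans (hiso y hy.2 u w)
      · have h4 := (hsm o' h1).continuousOn_fderiv_of_isOpen (rigc_open o') (by simp)
        exact ((hg.smooth.continuousOn.comp (hsm o' h1).continuousOn fun y _ => hne _ _).clm_apply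
          (h4.clm_apply continuousOn_const)).clm_apply (h4.clm_apply continuousOn_const)
      · exact ((isMetric_fsM.smooth.continuousOn.mono fun y hy => rigc_ne_right hy).clm_apply
          continuousOn_const).clm_apply continuousOn_const
    exact h3 hz

end Pool.Agent.Work.MP_8c604c_gt.H
end
end
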