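import Pool.Agent.Work.MP_8c604c_gt.H.Base
import Pool.Agent.Work.MP_8c604c_gt.ODE

-- merged part: Pool.Agent.Work.MP_8c604c_gt.H.GeoExAux
section
/-!
The geodesic vector field upstairs: definition, smoothness, symmetries, conservation laws.
-/

set_option maxSynthPendingDepth 3

open Set Filter Topology MeasureTheory
open scoped ContDiff Quaternion

noncomputable section
namespace Pool.Agent.Work.MP_8c604c_gt.H

variable {n : ℕ}

/-- The force term of the Euler-Lagrange equation. -/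
def geFrc (g : Met n) (z h : E n) : E n →L[ℝ] ℝ :=
  (1 / 2 : ℝ) • ((fderiv ℝ g z).flip h).flip h - fderiv ℝ g z h h

theorem geFrc_apply (g : Met n) (z h η : E n) :
    geFrc g z h η = 1 / 2 * fderiv ℝ g z η h h - fderiv ℝ g z h h η := rfl

/-- The acceleration of a horizontal geodesic. -/
def geAcc (g : Met n) (z h : E n) : E n :=
  (GG g z).inverse (geFrc g z h) - (‖h‖ ^ 2 / ‖z‖ ^ 2 : ℝ) • z

/-- The geodesic vector field. -/
def geX (g : Met n) (x : VV n) : VV n :=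
  (hor x.1 x.2, geAcc g x.1 (hor x.1 x.2) + nu x.1 x.2 • hor x.1 x.2)

theorem ge_inner {z : E n} (hz : z ≠ 0) (u : E n) :
    hm z u = ((‖z‖ ^ 2 : ℝ) : ℍ) * nu z u := by
  rw [hm_eq_nu hz, Quaternion.coe_mul_eq_smul]

theorem ge_inner_self (z : E n) : hm z z = ((‖z‖ ^ 2 : ℝ) : ℍ) := by
  exact hm_self z

theorem ge_inner_hor {z : E n} (hz : z ≠ 0) (u : E n) : hm z (hor z u) = 0 := by
  rw [ge_inner hz, nu_hor hz, mul_zero]

theorem ge_nu_sub (z u w : E n) : nu z (u - w) = nu z u - nu z w := map_sub (nuL z) u w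

theorem ge_split (z u : E n) : u = hor z u + nu z u • z := by rw [hor_def, sub_add_cancel]

theorem ge_hor_add {z : E n} (hz : z ≠ 0) (u : E n) (c : ℍ) : hor z (u + c • z) = hor z u := by
  rw [hor_def, hor_def, nu_add, nu_smul, nu_self hz, mul_one, add_smul]
  abel

theorem ge_isOpen : IsOpen {x : VV n | x.1 ≠ 0} := isOpen_ne_fun continuous_fst continuous_const

namespace IsMetric
variable {g : Met n} (h : IsMetric g)
include h

theorem ge_inv {z : E n} (hz : z ≠ 0) : (GG g z).IsInvertible := by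
  have h1 : Function.Injective (GG g z).toLinearMap := by
    refine (injective_iff_map_eq_zero _).2 fun u hu => by_contra fun h0 => ?_
    have h2 := h.GG_pos hz h0
    rw [show GG g z u = 0 from hu] at h2
    exact lt_irrefl _ h2
  have h2 : Module.finrank ℝ (E n) = Module.finrank ℝ (E n →L[ℝ] ℝ) :=
    Subspace.dual_finrank_eq.symm.trans LinearMap.toContinuousLinearMap.finrank_eq
  exact ⟨ContinuousLinearEquiv.ofBijective (GG g z) (LinearMap.ker_eq_bot.2 h1)
    (LinearMap.range_eq_top.2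
      ((LinearMap.injective_iff_surjective_of_finrank_eq_finrank h2).1 h1)), rfl⟩

theorem geFrc_vert {z : E n} (hz : z ≠ 0) (u : E n) (c : ℍ) : geFrc g z u (c • z) = 0 := by
  rw [geFrc_apply, h.fderiv_vert c hz, h.fderiv_vert_arg c hz, h.symm z (c • u) u hz]
  ring

theorem ge_nu_inv {z : E n} (hz : z ≠ 0) (u : E n) :
    nu z ((GG g z).inverse (geFrc g z u)) = 0 := by
  have h1 := h.geFrc_vert hz u (nu z ((GG g z).inverse (geFrc g z u)))
  nth_rewrite 1 [← (h.ge_inv hz).self_apply_inverse (geFrc g z u)] at h1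
  rw [GG_apply, h.vert' _ _ hz, nu_smul, nu_self hz, mul_one, zero_add] at h1
  exact inner_self_eq_zero.1 h1

theorem geAcc_nu {z : E n} (hz : z ≠ 0) (u : E n) :
    nu z (geAcc g z u) = -((‖u‖ ^ 2 / ‖z‖ ^ 2 : ℝ) : ℍ) := by
  rw [geAcc, ge_nu_sub, h.ge_nu_inv hz, ← coe_smul, nu_smul, nu_self hz, mul_one, zero_sub]

theorem geAcc_g {z : E n} (hz : z ≠ 0) (u η : E n) : g z (geAcc g z u) η = geFrc g z u η := by
  conv_rhs => rw [← (h.ge_inv hz).self_apply_inverse (geFrc g z u)]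
  rw [GG_apply, h.ge_nu_inv hz, geAcc, map_sub, sub_apply, ← coe_smul,
    h.vert _ _ _ hz]
  simp

theorem geAcc_uniq {z u a : E n} (hz : z ≠ 0) (h1 : ∀ η, g z a η = geFrc g z u η)
    (h2 : nu z a = -((‖u‖ ^ 2 / ‖z‖ ^ 2 : ℝ) : ℍ)) : a = geAcc g z u := by
  have h3 : hor z (a - geAcc g z u) = 0 := h.hor_eq_zero hz (by
    rw [map_sub (g z), sub_apply, h1, h.geAcc_g hz, sub_self])
  rw [hor_of_nu (by rw [ge_nu_sub, h2, h.geAcc_nu hz, sub_self])] at h3
  exact sub_eq_zero.1 h3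

theorem ge_hasDerivAt {z u w : ℝ → E n} {z' u' w' : E n} {t : ℝ} (h0 : z t ≠ 0)
    (hz : HasDerivAt z z' t) (hu : HasDerivAt u u' t) (hw : HasDerivAt w w' t) :
    HasDerivAt (fun s => g (z s) (u s) (w s))
      (fderiv ℝ g (z t) z' (u t) (w t) + g (z t) u' (w t) + g (z t) (u t) w') t := by
  have h1 : HasDerivAt (fun s => g (z s)) (fderiv ℝ g (z t) z') t :=
    ((h.contDiffAt h0).differentiableAt (by simp)).hasFDerivAt.comp_hasDerivAt t hz
  exact (h1.clm_apply hu).clm_apply hw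

theorem ge_fderiv_inv {c : ℍ} (hc : c ≠ 0) {z : E n} (hz : z ≠ 0) (η u w : E n) :
    fderiv ℝ g (c • z) (c • η) (c • u) (c • w) = fderiv ℝ g z η u w := by
  have h1 : HasDerivAt (fun t : ℝ => z + t • η) η 0 := by
    simpa using ((hasDerivAt_id (0 : ℝ)).smul_const η).const_add z
  have h0 : z + (0 : ℝ) • η = z := by simp
  have h2 := h.ge_hasDerivAt (by rwa [h0]) h1 (hasDerivAt_const 0 u) (hasDerivAt_const 0 w)
  have h3 := h.ge_hasDerivAt (z := fun t : ℝ => c • (z + t • η))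
    (by rw [h0]; exact smul_ne_zero hc hz) (h1.const_smul c) (hasDerivAt_const 0 (c • u))
    (hasDerivAt_const 0 (c • w))
  have h4 : ∀ᶠ t : ℝ in 𝓝 0, z + t • η ≠ 0 := h1.continuousAt.eventually_ne (by rwa [h0])
  have h5 := h2.unique (h3.congr_of_eventuallyEq (h4.mono fun t ht => (h.inv c _ u w hc ht).symm))
  simpa using h5.symm

theorem geAcc_smul {c : ℍ} (hc : c ≠ 0) {z : E n} (hz : z ≠ 0) (u : E n) :
    geAcc g (c • z) (c • u) = c • geAcc g z u := by
  refine (h.geAcc_uniq (smul_ne_zero hc hz) (fun η => ?_) ?_).symm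
  · rw [← smul_inv_smul₀ hc η, h.inv c _ _ _ hc hz, h.geAcc_g hz, geFrc_apply, geFrc_apply,
      h.ge_fderiv_inv hc hz, h.ge_fderiv_inv hc hz]
  · rw [nu_smul_smul, h.geAcc_nu hz, norm_smul, norm_smul, mul_pow, mul_pow,
      mul_div_mul_left _ _ (pow_ne_zero 2 (norm_ne_zero_iff.2 hc)), mul_neg,
      ← Quaternion.coe_commutes, neg_mul, mul_inv_cancel_right₀ hc]

theorem geAcc_scale (r : ℝ) {z : E n} (hz : z ≠ 0) (u : E n) :
    geAcc g z (r • u) = (r * r) • geAcc g z u := by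
  refine (h.geAcc_uniq hz (fun η => ?_) ?_).symm
  · simp only [map_smul, smul_apply, smul_eq_mul, h.geAcc_g hz, geFrc_apply]
    ring
  · rw [nu_rsmul, h.geAcc_nu hz, norm_smul, mul_pow, Real.norm_eq_abs, sq_abs, smul_neg,
      Quaternion.smul_coe]
    congr 2
    ring

theorem geX_smul {c : ℍ} (hc : c ≠ 0) {x : VV n} (hx : x.1 ≠ 0) : geX g (c • x) = c • geX g x := by
  simp only [geX, Prod.smul_fst, Prod.smul_snd, Prod.smul_mk, hor_smul_left hc, hor_smul,
    nu_smul_smul, h.geAcc_smul hc hx, smul_add, smul_smul, inv_mul_cancel_right₀ hc]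

theorem geX_scale (r : ℝ) {x : VV n} (hx : x.1 ≠ 0) :
    geX g (x.1, r • x.2) = (r • (geX g x).1, r • r • (geX g x).2) := by
  have h1 : hor x.1 (r • x.2) = r • hor x.1 x.2 := map_smul (horL x.1) r x.2
  have h2 : nu x.1 (r • x.2) = r • nu x.1 x.2 := map_smul (nuL x.1) r x.2
  simp only [geX, h1, h2, h.geAcc_scale r hx, smul_add, mul_smul, smul_assoc, smul_comm r]

omit h in
theorem geX_shift (c : ℍ) {x : VV n} (hx : x.1 ≠ 0) :
    geX g (x.1, x.2 + c • x.1) = ((geX g x).1, (geX g x).2 + c • (geX g x).1) := by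
  simp only [geX, ge_hor_add hx, nu_add, nu_smul, nu_self hx, mul_one, add_smul, add_assoc]

theorem contDiffOn_geAcc :
    ContDiffOn ℝ ∞ (fun x : VV n => geAcc g x.1 x.2) {x : VV n | x.1 ≠ 0} := by
  have hm : MapsTo (Prod.fst : VV n → E n) {x : VV n | x.1 ≠ 0} {0}ᶜ := fun _ hx => hx
  have hD : ContDiffOn ℝ ∞ (fun x : VV n => fderiv ℝ g x.1) {x : VV n | x.1 ≠ 0} :=
    (h.smooth.fderiv_of_isOpen isOpen_compl_singleton (by simp)).comp contDiffOn_fst hm
  have h1 : ContDiffOn ℝ ∞ (fun x : VV n => geFrc g x.1 x.2) {x : VV n | x.1 ≠ 0} := by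
    refine contDiffOn_clm_apply.2 fun η => ?_
    simp only [geFrc_apply]
    exact (contDiffOn_const.mul (((hD.clm_apply contDiffOn_const).clm_apply
      contDiffOn_snd).clm_apply contDiffOn_snd)).sub
      (((hD.clm_apply contDiffOn_snd).clm_apply contDiffOn_snd).clm_apply contDiffOn_const)
  have h2 : ContDiffOn ℝ ∞ (fun x : VV n => (GG g x.1).inverse) {x : VV n | x.1 ≠ 0} :=
    fun x hx => ContDiffAt.comp_contDiffWithinAt (f := fun x : VV n => GG g x.1) x
      (h.ge_inv hx).contDiffAt_map_inverse ((h.contDiffOn_GG.comp contDiffOn_fst hm) x hx)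
  have h3 : ContDiff ℝ ∞ fun z : E n => ‖z‖ ^ 2 := contDiff_norm_sq ℝ
  exact (h2.clm_apply h1).sub (((h3.comp contDiff_snd).contDiffOn.div
    (h3.comp contDiff_fst).contDiffOn fun x hx => pow_ne_zero 2 (norm_ne_zero_iff.2 hx)).smul
    contDiffOn_fst)

theorem contDiffOn_geX : ContDiffOn ℝ ∞ (geX g) {x : VV n | x.1 ≠ 0} := by
  have hm : MapsTo (Prod.fst : VV n → E n) {x : VV n | x.1 ≠ 0} {0}ᶜ := fun _ hx => hx
  have h1 : ContDiffOn ℝ ∞ (fun x : VV n => hor x.1 x.2) {x : VV n | x.1 ≠ 0} :=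
    (contDiffOn_horL.comp contDiffOn_fst hm).clm_apply contDiffOn_snd
  have h2 : ContDiffOn ℝ ∞ (fun x : VV n => nu x.1 x.2) {x : VV n | x.1 ≠ 0} :=
    (contDiffOn_nuL.comp contDiffOn_fst hm).clm_apply contDiffOn_snd
  have h3 : ContDiffOn ℝ ∞ (fun x : VV n => geAcc g x.1 (hor x.1 x.2)) {x : VV n | x.1 ≠ 0} :=
    h.contDiffOn_geAcc.comp (contDiffOn_fst.prodMk h1) fun _ hx => hx
  exact h1.prodMk (h3.add (h2.smul h1))

section Conservation
variable {c : ℝ → VV n} {t : ℝ} (h0 : (c t).1 ≠ 0) (hc : HasDerivAt c (geX g (c t)) t)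
include h0 hc

omit h h0 in
theorem ge_fst : HasDerivAt (fun s => (c s).1) (hor (c t).1 (c t).2) t :=
  (ContinuousLinearMap.fst ℝ (E n) (E n)).hasFDerivAt.comp_hasDerivAt t hc

omit h h0 in
theorem ge_snd : HasDerivAt (fun s => (c s).2)
    (geAcc g (c t).1 (hor (c t).1 (c t).2) + nu (c t).1 (c t).2 • hor (c t).1 (c t).2) t :=
  (ContinuousLinearMap.snd ℝ (E n) (E n)).hasFDerivAt.comp_hasDerivAt t hc

omit h in
theorem ge_norm : HasDerivAt (fun s => ‖(c s).1‖ ^ 2) 0 t := by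
  refine (ge_fst hc).norm_sq.congr_deriv ?_
  rw [inner_re, ge_inner_hor h0]
  simp

theorem ge_nu : HasDerivAt (fun s => nu (c s).1 (c s).2) 0 t := by
  have hn : ‖(c t).1‖ ^ 2 ≠ 0 := pow_ne_zero 2 (norm_ne_zero_iff.2 h0)
  have h1 := hasDerivAt_hm (ge_fst hc) (ge_snd hc)
  have h2 : hm (hor (c t).1 (c t).2) (c t).2 = ((‖hor (c t).1 (c t).2‖ ^ 2 : ℝ) : ℍ) := by
    nth_rewrite 2 [ge_split (c t).1 (c t).2]
    rw [hm_add_right, hm_smul_right, ← star_hm (c t).1 (hor _ _), ge_inner_hor h0,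
      star_zero, mul_zero, add_zero, ge_inner_self]
  rw [h2, hm_add_right, hm_smul_right, ge_inner_hor h0, mul_zero, add_zero, ge_inner h0,
    h.geAcc_nu h0, mul_neg, ← Quaternion.coe_mul, mul_div_cancel₀ _ hn, neg_add_cancel] at h1
  have h3 := ((ge_norm h0 hc).inv hn).smul h1
  simp only [nu_def]
  exact h3.congr_deriv (by simp)

theorem ge_el (η : E n) : HasDerivAt (fun s => g (c s).1 (c s).2 η)
    (1 / 2 * fderiv ℝ g (c t).1 η (hor (c t).1 (c t).2) (hor (c t).1 (c t).2)) t := by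
  refine (h.ge_hasDerivAt h0 (ge_fst hc) (ge_snd hc) (hasDerivAt_const t η)).congr_deriv ?_
  nth_rewrite 2 [ge_split (c t).1 (c t).2]
  generalize hor (c t).1 (c t).2 = u
  simp only [map_add, add_apply, map_zero, h.geAcc_g h0, geFrc_apply]
  rw [h.fderiv_symm h0 u (_ • _), h.fderiv_vert_arg _ h0, h.symm _ η _ h0]
  ring

theorem ge_energy : HasDerivAt (fun s => g (c s).1 (c s).2 (c s).2) 0 t := by
  refine (h.ge_hasDerivAt h0 (ge_fst hc) (ge_snd hc) (ge_snd hc)).congr_deriv ?_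
  rw [h.symm _ (c t).2 (_ + _) h0]
  have h1 := ge_split (c t).1 (c t).2
  generalize hor (c t).1 (c t).2 = u at *
  generalize nu (c t).1 (c t).2 = a at *
  rw [h1]
  simp only [map_add, add_apply, h.geAcc_g h0, geFrc_apply,
    h.fderiv_vert _ h0, h.fderiv_vert_arg _ h0, h.vert _ _ _ h0, h.vert' _ _ h0,
    h.fderiv_symm h0 u (a • _) u, h.symm _ (a • u) u h0]
  ring

end Conservation

end IsMetric

end Pool.Agent.Work.MP_8c604c_gt.H
end
end

-- merged part: Pool.Agent.Work.MP_8c604c_gt.H.GeoEx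
section
/-!
Existence of the geodesic flow.
Hints. With h = hor z w, nu = nu z w, let r(eta) = 1/2 Dg(z)(eta)(h,h) - Dg(z)(h)(h,eta) (kills vertical eta by
fderiv_vert, fderiv_vert_arg), a = (GG g z)^(-1) r - (|h|^2/|z|^2) z (ContinuousLinearMap.inverse, contDiffAt_map_inverse),
X(z,w) = (h, a + nu h). First integral F = |z|^2 + |z|^(-2) + GG g z w w. Conservation of |z|, nu, g(w,w) by
differentiating along solutions. add, smul, shift, scale by ode_unique. uniq: put f(t) = exp(-int_{t0}^t nu(c)(c')),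
d = f c is horizontal, satisfies the same Euler-Lagrange equation, so (d, d' + nu0 d) solves X.
-/

set_option maxSynthPendingDepth 3

open Set Filter Topology MeasureTheory
open scoped ContDiff Quaternion

noncomputable section
namespace Pool.Agent.Work.MP_8c604c_gt.H

variable {n : ℕ}

/-- The linear equation `f' = - f ν` has a solution without zeros on every compact interval. -/
theorem q_ode {ν : ℝ → ℍ} (hν : Continuous ν) {a b t₀ : ℝ} (ht₀ : t₀ ∈ Icc a b) :
    ∃ f : ℝ → ℍ, f t₀ = 1 ∧ ∀ t ∈ Ioo a b, f t ≠ 0 ∧ HasDerivAt f (-(f t * ν t)) t := by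
  let β : ContDiffBump (0 : ℍ) := ⟨2, 3, two_pos, by norm_num⟩
  have hρ : ContDiff ℝ 1 fun u : ℍ => β u • u := β.contDiff.smul contDiff_id
  have hc : HasCompactSupport fun u : ℍ => β u • u := β.hasCompactSupport.smul_right
  obtain ⟨K, hK⟩ := hρ.lipschitzWith_of_hasCompactSupport hc one_ne_zero
  obtain ⟨M, hM⟩ := hρ.continuous.bounded_above_of_compact_support hc
  have hi : Continuous fun t => (ν t).im := Quaternion.continuous_im.comp hν
  obtain ⟨A, hA⟩ := (isCompact_Icc (a := a) (b := b)).exists_bound_of_continuousOn hi.continuousOn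
  have hM0 : 0 ≤ M := (norm_nonneg _).trans (hM 0)
  have hA0 : 0 ≤ A := (norm_nonneg _).trans (hA _ ht₀)
  have hab : 0 ≤ b - a := sub_nonneg.2 (ht₀.1.trans ht₀.2)
  have pl : IsPicardLindelof (fun t u => -((β u • u) * (ν t).im)) (⟨t₀, ht₀⟩ : Icc a b) (1 : ℍ)
      ⟨M * A * (b - a), by positivity⟩ 0 ⟨M * A, by positivity⟩ (K * ⟨A, hA0⟩) := by
    refine ⟨fun t ht => (LipschitzWith.of_dist_le_mul fun u w => ?_).lipschitzOnWith,
      fun u _ => (continuous_const.mul hi).neg.continuousOn, fun t ht u _ => ?_, ?_⟩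
    · rw [dist_neg_neg, dist_eq_norm, ← sub_mul, norm_mul, ← dist_eq_norm]
      refine (mul_le_mul (hK.dist_le_mul u w) (hA t ht) (norm_nonneg _) (by positivity)).trans_eq ?_
      exact mul_right_comm _ _ _
    · rw [norm_neg, norm_mul]
      exact mul_le_mul (hM u) (hA t ht) (norm_nonneg _) hM0
    · simp only [NNReal.coe_zero, sub_zero]
      exact mul_le_mul_of_nonneg_left (max_le (by linarith [ht₀.1]) (by linarith [ht₀.2]))
        (by positivity)
  obtain ⟨u, hu0, hu⟩ := pl.exists_eq_forall_mem_Icc_hasDerivWithinAt₀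
  have hn : ∀ t ∈ Icc a b, HasDerivWithinAt (fun s => ‖u s‖ ^ 2) 0 (Icc a b) t := fun t ht => by
    refine (hu t ht).norm_sq.congr_deriv ?_
    have := q_inner_mul_left (u t) 1 (ν t).im
    rw [mul_one, show inner ℝ (1 : ℍ) (ν t).im = 0 from reL_apply _, mul_zero] at this
    rw [inner_neg_right, smul_mul_assoc, real_inner_smul_right, this]
    simp
  have h1 : ∀ t ∈ Icc a b, ‖u t‖ = 1 := fun t ht => by
    have := (convex_Icc a b).norm_image_sub_le_of_norm_hasDerivWithin_le (C := 0) hn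
      (fun _ _ => by simp) ht₀ ht
    rw [zero_mul, norm_le_zero_iff, sub_eq_zero, hu0, norm_one, one_pow] at this
    exact (pow_eq_one_iff_of_nonneg (norm_nonneg _) two_ne_zero).1 this
  have hr : Continuous fun t => (ν t).re := Quaternion.continuous_re.comp hν
  refine ⟨fun t => Real.exp (-∫ s in t₀..t, (ν s).re) • u t, by simp [hu0], fun t ht => ⟨?_, ?_⟩⟩
  · refine smul_ne_zero (Real.exp_ne_zero _) ?_
    rw [← norm_ne_zero_iff, h1 t (Ioo_subset_Icc_self ht)]
    exact one_ne_zero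
  · have h2 := (hu t (Ioo_subset_Icc_self ht)).hasDerivAt (Icc_mem_nhds ht.1 ht.2)
    rw [β.one_of_mem_closedBall (by
      rw [mem_closedBall_zero_iff, h1 t (Ioo_subset_Icc_self ht)]; norm_num [β]), one_smul] at h2
    refine (((hr.integral_hasStrictDerivAt t₀ t).hasDerivAt.neg.exp).smul h2).congr_deriv ?_
    conv_rhs => rw [← Quaternion.re_add_im (ν t), mul_add, Quaternion.mul_coe_eq_smul]
    rw [smul_mul_assoc, smul_smul, smul_neg, neg_add, add_comm, mul_neg, neg_smul, mul_comm]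
    rfl

/-- The proper first integral. -/
def geF (g : Met n) (x : VV n) : ℝ := ‖x.1‖ ^ 2 + (‖x.1‖ ^ 2)⁻¹ + GG g x.1 x.2 x.2

namespace IsMetric
variable {g : Met n} (h : IsMetric g)
include h

theorem contDiffOn_geF : ContDiffOn ℝ ∞ (geF g) {x : VV n | x.1 ≠ 0} := by
  have h3 : ContDiff ℝ ∞ fun z : E n => ‖z‖ ^ 2 := contDiff_norm_sq ℝ
  have h4 : ContDiffOn ℝ ∞ (fun x : VV n => ‖x.1‖ ^ 2) {x : VV n | x.1 ≠ 0} :=
    (h3.comp contDiff_fst).contDiffOn
  exact (h4.add (h4.inv fun x hx => pow_ne_zero 2 (norm_ne_zero_iff.2 hx))).add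
    (((h.contDiffOn_GG.comp contDiffOn_fst fun _ hx => hx).clm_apply contDiffOn_snd).clm_apply
      contDiffOn_snd)

theorem geF_fderiv {x : VV n} (hx : x.1 ≠ 0) : fderiv ℝ (geF g) x (geX g x) = 0 := by
  have h0 : x + (0 : ℝ) • geX g x = x := by simp
  have h1 : HasDerivAt (fun t : ℝ => x + t • geX g x) (geX g (x + (0 : ℝ) • geX g x)) 0 := by
    simpa using ((hasDerivAt_id (0 : ℝ)).smul_const (geX g x)).const_add x
  have hx' : (x + (0 : ℝ) • geX g x).1 ≠ 0 := by rwa [h0]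
  have h2 := ((h.contDiffOn_geF.contDiffAt (ge_isOpen.mem_nhds hx')).differentiableAt
    (by simp)).hasFDerivAt.comp_hasDerivAt (0 : ℝ) h1
  have h3 := ge_norm hx' h1
  have h4 := h.ge_nu hx' h1

  have h7 := (h3.add (h3.inv (pow_ne_zero 2 (norm_ne_zero_iff.2 hx')))).add
    ((h.ge_energy hx' h1).add (h4.inner ℝ h4))
  have h8 := h2.unique (h7.congr_of_eventuallyEq (Eventually.of_forall fun t => by
    simp only [Function.comp_apply, geF, GG_apply]
    rfl))
  rw [h0] at h8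
  rw [h8]
  simp

theorem geF_compact (R : ℝ) : IsCompact {x ∈ {x : VV n | x.1 ≠ 0} | geF g x ≤ R} := by
  obtain ⟨A, hA, hA'⟩ := h.exists_comp
  have key : ∀ x : VV n, x.1 ≠ 0 → geF g x ≤ R → ‖x.1‖ ^ 2 ≤ R ∧ (‖x.1‖ ^ 2)⁻¹ ≤ R ∧
      g x.1 x.2 x.2 ≤ R ∧ ‖nu x.1 x.2‖ ^ 2 ≤ R := fun x hx hR => by
    have h1 := h.nonneg hx x.2
    have h2 : 0 ≤ ‖x.1‖ ^ 2 := sq_nonneg _
    have h3 := inv_nonneg.2 h2
    have h4 := sq_nonneg ‖nu x.1 x.2‖
    rw [geF, GG_apply, real_inner_self_eq_norm_sq] at hR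
    exact ⟨by linarith, by linarith, by linarith, by linarith⟩
  refine Metric.isCompact_of_isClosed_isBounded ?_ ?_
  · have hK : IsClosed {x : VV n | 1 ≤ R * ‖x.1‖ ^ 2} := isClosed_le continuous_const (by fun_prop)
    have hs : {x : VV n | 1 ≤ R * ‖x.1‖ ^ 2} ⊆ {x : VV n | x.1 ≠ 0} := fun x hx h0 => by
      have h1 : 1 ≤ R * ‖x.1‖ ^ 2 := hx
      rw [h0] at h1
      norm_num at h1
    convert (h.contDiffOn_geF.continuousOn.mono hs).preimage_isClosed_of_isClosed hK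
      (isClosed_Iic (a := R)) using 1
    ext x
    refine ⟨fun hx => ⟨?_, hx.2⟩, fun hx => ⟨hs hx.1, hx.2⟩⟩
    exact (inv_le_iff_one_le_mul₀ (pow_pos (norm_pos_iff.2 hx.1) 2)).1 (key x hx.1 hx.2).2.1
  · refine isBounded_iff_forall_norm_le.2 ⟨√R + (√(A * R * R) + √R * √R), fun x hx => ?_⟩
    obtain ⟨h1, -, h3, h4⟩ := key x hx.1 hx.2
    have h5 := Real.le_sqrt_of_sq_le h1
    have h6 := Real.le_sqrt_of_sq_le h4
    have h7 : ‖hor x.1 x.2‖ ≤ √(A * R * R) := Real.le_sqrt_of_sq_le ((hA' _ _ hx.1).1.trans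
      (mul_le_mul (mul_le_mul_of_nonneg_left h1 hA.le) h3 (h.nonneg hx.1 _)
        (mul_nonneg hA.le ((sq_nonneg _).trans h1))))
    refine norm_prod_le_iff.2 ⟨h5.trans (le_add_of_nonneg_right (by positivity)), ?_⟩
    rw [ge_split x.1 x.2]
    refine (norm_add_le _ _).trans (le_add_of_nonneg_of_le (by positivity) (add_le_add h7 ?_))
    rw [norm_smul]
    exact mul_le_mul h6 h5 (norm_nonneg _) (by positivity)

theorem ge_unique {c c' : ℝ → VV n} (hc : ∀ t, (c t).1 ≠ 0 ∧ HasDerivAt c (geX g (c t)) t)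
    (hc' : ∀ t, (c' t).1 ≠ 0 ∧ HasDerivAt c' (geX g (c' t)) t) (h0 : c 0 = c' 0) (t : ℝ) :
    c t = c' t :=
  ode_unique ge_isOpen (h.contDiffOn_geX.of_le (by simp)) (a := -(|t| + 1)) (b := |t| + 1)
    (abs_lt.1 (by rw [abs_zero]; positivity)) (fun s _ => hc s) (fun s _ => hc' s) h0 t
    (abs_lt.1 (lt_add_one _))

/-- The horizontal part of the velocity of a solution of the Euler-Lagrange equation. -/
theorem ge_acc_of_el {c c' : ℝ → E n} {c'' : E n} {ν' : ℍ} {t : ℝ} (h0 : c t ≠ 0)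
    (h1 : HasDerivAt c (c' t) t) (h2 : HasDerivAt c' c'' t)
    (hν : HasDerivAt (fun s => nu (c s) (c' s)) ν' t)
    (hel : ∀ η, HasDerivAt (fun s => g (c s) (c' s) η)
      (1 / 2 * fderiv ℝ g (c t) η (c' t) (c' t)) t) :
    HasDerivAt (fun s => hor (c s) (c' s))
      (geAcc g (c t) (hor (c t) (c' t)) + nu (c t) (c' t) • hor (c t) (c' t)) t := by
  have hn : ‖c t‖ ^ 2 ≠ 0 := pow_ne_zero 2 (norm_ne_zero_iff.2 h0)
  have h3 : HasDerivAt (fun s => hor (c s) (c' s))
      (c'' - (nu (c t) (c' t) • c' t + ν' • c t)) t := by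
    simp only [hor_def]
    exact h2.sub (hν.smul h1)
  have h4 := (hasDerivAt_hm h1 h3).unique ((hasDerivAt_const t (0 : ℍ)).congr_of_eventuallyEq
    ((h1.continuousAt.eventually_ne h0).mono fun s hs => ge_inner_hor hs _))
  have h5 := fun η => (h.ge_hasDerivAt h0 h1 h2 (hasDerivAt_const t η)).unique (hel η)
  refine h3.congr_deriv (eq_add_of_sub_eq (h.geAcc_uniq h0 (fun η => ?_) ?_))
  · have h6 := h5 η
    have h7 := ge_split (c t) (c' t)
    generalize hor (c t) (c' t) = u at *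
    generalize nu (c t) (c' t) = a at *
    rw [h7] at h6 ⊢
    simp only [map_add, map_sub, add_apply, sub_apply, map_zero, geFrc_apply, smul_add, smul_smul,
      h.fderiv_vert _ h0, h.fderiv_vert_arg _ h0, h.vert _ _ _ h0,
      h.fderiv_symm h0 _ (a • c t) u, h.fderiv_symm h0 u (a • c t) η, h.symm _ η (a • u) h0] at h6 ⊢
    linarith
  · have h6 : hm (c' t) (hor (c t) (c' t)) = ((‖hor (c t) (c' t)‖ ^ 2 : ℝ) : ℍ) := by
      nth_rewrite 1 [ge_split (c t) (c' t)]
      rw [hm_add_left, hm_smul_left, ge_inner_hor h0, zero_mul, add_zero, ge_inner_self]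
    rw [h6, hm_eq_nu h0] at h4
    rw [ge_nu_sub, nu_smul, nu_hor h0, mul_zero, sub_zero, ← inv_smul_smul₀ hn (nu _ _),
      eq_neg_of_add_eq_zero_left h4, smul_neg, Quaternion.smul_coe, div_eq_inv_mul]

/-- Gauge fixing of a solution of the Euler-Lagrange equation. -/
theorem ge_gauge {c : ℝ → E n} {a b t₀ : ℝ} (hc : ContDiffOn ℝ ∞ c (Ioo a b))
    (h0 : ∀ t ∈ Ioo a b, c t ≠ 0)
    (hel : ∀ t ∈ Ioo a b, ∀ η, HasDerivAt (fun s => g (c s) (deriv c s) η)
      (1 / 2 * fderiv ℝ g (c t) η (deriv c t) (deriv c t)) t) :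
    ∀ a' b', a < a' → b' < b → t₀ ∈ Ioo a' b' →
    ∃ (f : ℝ → ℍ) (y : ℝ → VV n), (∀ t ∈ Ioo a' b', f t ≠ 0) ∧ (∀ t, (y t).1 = f t • c t) ∧
      y t₀ = (c t₀, deriv c t₀) ∧ ∀ t ∈ Ioo a' b', HasDerivAt y (geX g (y t)) t := by
  intro a' b' ha hb ht'
  have hc' : ContDiffOn ℝ ∞ (deriv c) (Ioo a b) := hc.deriv_of_isOpen isOpen_Ioo (by simp)
  have hν : ContDiffOn ℝ ∞ (fun s => nu (c s) (deriv c s)) (Ioo a b) :=
    (contDiffOn_nuL.comp hc h0).clm_apply hc'
  have hab : a' ≤ b' := (ht'.1.trans ht'.2).le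
  obtain ⟨f, hf0, hf⟩ := q_ode (ν := IccExtend hab ((Icc a' b').domRestrict fun s => nu (c s) (deriv c s)))
    (hν.continuousOn.mono (Icc_subset_Ioo ha hb)).domRestrict.Icc_extend' (Ioo_subset_Icc_self ht')
  refine ⟨f, fun t => (f t • c t, f t • hor (c t) (deriv c t) + nu (c t₀) (deriv c t₀) • f t • c t),
    fun t ht => (hf t ht).1, fun _ => rfl, ?_, fun t ht1 => ?_⟩
  · simp only [hf0, one_smul, ← ge_split]
  · have ht : t ∈ Ioo a b := ⟨ha.trans ht1.1, ht1.2.trans hb⟩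
    have hI := isOpen_Ioo.mem_nhds ht
    have h1 := ((hc.contDiffAt hI).differentiableAt (by simp)).hasDerivAt
    have h2 := h.ge_acc_of_el (h0 t ht) h1
      ((hc'.contDiffAt hI).differentiableAt (by simp)).hasDerivAt
      ((hν.contDiffAt hI).differentiableAt (by simp)).hasDerivAt (hel t ht)
    have h3 := (hf t ht1).2
    rw [IccExtend_of_mem hab _ (Ioo_subset_Icc_self ht1), domRestrict_apply, ← mul_neg] at h3
    have h4 : HasDerivAt (fun s => f s • ((c s, hor (c s) (deriv c s)) : VV n))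
        (geX g (f t • (c t, hor (c t) (deriv c t)))) t := by
      refine (h3.smul (h1.prodMk h2)).congr_deriv ?_
      rw [h.geX_smul (hf t ht1).1 (h0 t ht), mul_smul, ← smul_add]
      congr 1
      simp only [geX, nu_hor (h0 t ht), hor_of_nu (nu_hor (h0 t ht) _), zero_smul, add_zero,
        Prod.smul_mk, Prod.mk_add_mk]
      have h7 := ge_split (c t) (deriv c t)
      generalize hor (c t) (deriv c t) = u at *
      generalize nu (c t) (deriv c t) = a at *
      rw [h7, neg_smul, neg_smul, add_neg_cancel_right, add_neg_cancel_right]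
    have h5 := geX_shift (g := g) (nu (c t₀) (deriv c t₀))
      (x := f t • (c t, hor (c t) (deriv c t))) (smul_ne_zero (hf t ht1).1 (h0 t ht))
    have h6 := (ContinuousLinearMap.fst ℝ (E n) (E n)).hasFDerivAt.comp_hasDerivAt t h4
    have h7 := (ContinuousLinearMap.snd ℝ (E n) (E n)).hasFDerivAt.comp_hasDerivAt t h4
    exact (h6.prodMk (h7.add (h6.const_smul (nu (c t₀) (deriv c t₀))))).congr_deriv h5.symm

end IsMetric

theorem IsMetric.exists_geo {g : Met n} (h : IsMetric g) : Nonempty (Geo g) := by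
  obtain ⟨φ, hs, h0, hm, hd⟩ := exists_flow ge_isOpen h.contDiffOn_geX h.contDiffOn_geF
    (fun x hx => h.geF_fderiv hx) h.geF_compact
  have hφ : ∀ x : VV n, x.1 ≠ 0 → ∀ t, (φ t x).1 ≠ 0 ∧
      HasDerivAt (fun s => φ s x) (geX g (φ t x)) t := fun x hx t => ⟨hm t x hx, hd t x hx⟩
  refine ⟨⟨φ, hs, h0, fun s t x hx => ?_, fun t x hx => ?_, fun t x hx => ?_, fun t x hx => ?_,
    fun t x hx => IsMetric.ge_fst (hd t x hx),
    fun t x η hx => h.ge_el (c := fun s => φ s x) (hm t x hx) (hd t x hx) η,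
    fun c t x hc hx => ?_, fun c t x hx => ?_, fun r t x hx => ?_,
    fun c a b t₀ ht₀ hc hc0 hel t ht => ?_⟩⟩
  · exact h.ge_unique (c := fun s => φ (s + t) x)
      (fun s => ⟨hm _ x hx, (hd (s + t) x hx).comp_add_const s t⟩) (hφ _ (hm t x hx))
      (by rw [zero_add, h0 _ (hm t x hx)]) s
  · have h2 := fun s => IsMetric.ge_norm (c := fun s => φ s x) (hm s x hx) (hd s x hx)
    have h1 := is_const_of_deriv_eq_zero (fun s => (h2 s).differentiableAt)
      (fun s => (h2 s).deriv) t 0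
    rwa [h0 x hx, sq_eq_sq₀ (norm_nonneg _) (norm_nonneg _)] at h1
  · have h2 := fun s => h.ge_nu (c := fun s => φ s x) (hm s x hx) (hd s x hx)
    have h1 := is_const_of_deriv_eq_zero (fun s => (h2 s).differentiableAt)
      (fun s => (h2 s).deriv) t 0
    rwa [h0 x hx] at h1
  · have h2 := fun s => h.ge_energy (c := fun s => φ s x) (hm s x hx) (hd s x hx)
    have h1 := is_const_of_deriv_eq_zero (fun s => (h2 s).differentiableAt)
      (fun s => (h2 s).deriv) t 0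
    rwa [h0 x hx] at h1
  · have hx' : (c • x).1 ≠ 0 := smul_ne_zero hc hx
    refine h.ge_unique (hφ _ hx') (c' := fun s => c • φ s x)
      (fun s => ⟨smul_ne_zero hc (hm s x hx), ?_⟩) (by rw [h0 _ hx', h0 _ hx]) t
    rw [h.geX_smul hc (hm s x hx)]
    exact (hd s x hx).const_smul c
  · refine h.ge_unique (hφ (x.1, x.2 + c • x.1) hx)
      (c' := fun s => ((φ s x).1, (φ s x).2 + c • (φ s x).1)) (fun s => ⟨hm s x hx, ?_⟩)
      (by rw [h0 (x.1, x.2 + c • x.1) hx, h0 _ hx]) t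
    rw [IsMetric.geX_shift c (hm s x hx)]
    exact (IsMetric.ge_fst (hd s x hx)).prodMk
      ((IsMetric.ge_snd (hd s x hx)).add ((IsMetric.ge_fst (hd s x hx)).const_smul c))
  · refine h.ge_unique (hφ (x.1, r • x.2) hx)
      (c' := fun s => ((φ (r * s) x).1, r • (φ (r * s) x).2)) (fun s => ⟨hm _ x hx, ?_⟩)
      (by rw [h0 (x.1, r • x.2) hx, mul_zero, h0 _ hx]) t
    rw [h.geX_scale r (hm _ x hx)]
    have h1 : HasDerivAt (fun s => r * s) r s := by simpa using (hasDerivAt_id s).const_mul r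
    exact ((IsMetric.ge_fst (hd (r * s) x hx)).scomp s h1).prodMk
      (((IsMetric.ge_snd (hd (r * s) x hx)).scomp s h1).const_smul r)
  · obtain ⟨a', ha, ha'⟩ := exists_between (lt_min ht₀.1 ht.1)
    obtain ⟨b', hb', hb⟩ := exists_between (max_lt ht₀.2 ht.2)
    have h₀ : t₀ ∈ Ioo a' b' := ⟨(lt_min_iff.1 ha').1, (max_lt_iff.1 hb').1⟩
    have h₁ : t ∈ Ioo a' b' := ⟨(lt_min_iff.1 ha').2, (max_lt_iff.1 hb').2⟩
    obtain ⟨f, y, hf, hy, hy0, hy'⟩ := h.ge_gauge hc hc0 hel a' b' ha hb h₀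
    have hx : (c t₀, deriv c t₀).1 ≠ 0 := hc0 t₀ ht₀
    have h1 := ode_unique ge_isOpen (h.contDiffOn_geX.of_le (by simp)) h₀ (c := y)
      (c' := fun s => φ (s - t₀) (c t₀, deriv c t₀))
      (fun s hs => ⟨by
        change (y s).1 ≠ 0
        rw [hy]
        exact smul_ne_zero (hf s hs) (hc0 s ⟨ha.trans hs.1, hs.2.trans hb⟩), hy' s hs⟩)
      (fun s _ => ⟨hm _ _ hx, (hd (s - t₀) _ hx).comp_sub_const s t₀⟩)
      (by rw [hy0, sub_self, h0 _ hx]) t h₁
    exact ⟨(f t)⁻¹, inv_ne_zero (hf t h₁), by rw [← h1, hy, inv_smul_smul₀ (hf t h₁)]⟩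

end Pool.Agent.Work.MP_8c604c_gt.H
end
end
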