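import Mathlib

/-!
Statement layer of the hand-in for MP_8c604c_gt (Blaschke conjecture for quaternionic projective space).
A Riemannian metric on the projective space of a left quaternionic space `V` is written upstairs, on `V` minus the origin.
The hand-in uses `V = E n`, that is `H^(n+1)`, with its standard Euclidean structure and left multiplication.
-/

set_option maxSynthPendingDepth 3

open scoped ContDiff LinearAlgebra.Projectivization Quaternion

noncomputable section
namespace Pool.Agent.Work.MP_8c604c_gt.H.St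

/-- `H^(n+1)` with its Euclidean structure. -/
abbrev E (n : ℕ) : Type := PiLp 2 fun _ : Fin (n + 1) => ℍ

/-- Families of real bilinear forms on `V`. -/
abbrev Met (V : Type) [NormedAddCommGroup V] [InnerProductSpace ℝ V] : Type :=
  V → V →L[ℝ] V →L[ℝ] ℝ

variable {V : Type} [NormedAddCommGroup V] [InnerProductSpace ℝ V] [Module ℍ V]

/-- `g` is the pull-back to `V` minus `0` of a smooth Riemannian metric on the projective space. -/
structure IsMetric (g : Met V) : Prop where
  smooth : ContDiffOn ℝ ∞ g {0}ᶜ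
  symm : ∀ z u w, z ≠ 0 → g z u w = g z w u
  inv : ∀ (c : ℍ) z u w, c ≠ 0 → z ≠ 0 → g (c • z) (c • u) (c • w) = g z u w
  vert : ∀ (c : ℍ) z w, z ≠ 0 → g z (c • z) w = 0
  pos : ∀ z u, z ≠ 0 → (∀ c : ℍ, u ≠ c • z) → 0 < g z u u

/-- `z` is a smooth lift of a unit speed geodesic: Euler-Lagrange equation of the energy. -/
structure IsUnitGeodesic (g : Met V) (z : ℝ → V) : Prop where
  smooth : ContDiff ℝ ∞ z
  ne : ∀ t, z t ≠ 0
  el : ∀ t η, HasDerivAt (fun s => g (z s) (deriv z s) η)
    (1 / 2 * fderiv ℝ g (z t) η (deriv z t) (deriv z t)) t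
  unit : ∀ t, g (z t) (deriv z t) (deriv z t) = 1

/-- Length of the projection of `c` restricted to `[0, 1]`. -/
def len (g : Met V) (c : ℝ → V) : ℝ :=
  ∫ t in (0 : ℝ)..1, √(g (c t) (deriv c t) (deriv c t))

/-- `c` is a `C^1` path in `V` minus `0` whose projection joins `[y]` to `[y']`. -/
structure Joins (c : ℝ → V) (y y' : V) : Prop where
  smooth : ContDiff ℝ 1 c
  ne : ∀ s, c s ≠ 0
  start : c 0 = y
  stop : ∃ a : ℍ, c 1 = a • y'

/-- The quaternion `i`. -/
def qi : ℍ := ⟨0, 1, 0, 0⟩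
/-- The quaternion `j`. -/
def qj : ℍ := ⟨0, 0, 1, 0⟩
/-- The quaternion `k`. -/
def qk : ℍ := ⟨0, 0, 0, 1⟩

/-- The standard metric (sectional curvature between 1 and 4), written upstairs: the Euclidean product of the
components orthogonal to the quaternionic line of `z`, divided by `|z|^2`. -/
def fs (z u w : V) : ℝ :=
  (‖z‖ ^ 2 * inner ℝ u w - (inner ℝ u z * inner ℝ w z + inner ℝ u (qi • z) * inner ℝ w (qi • z) +
    inner ℝ u (qj • z) * inner ℝ w (qj • z) + inner ℝ u (qk • z) * inner ℝ w (qk • z))) / ‖z‖ ^ 4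

/-- `Ψ` is a smooth map of the projective space with `Ψ^* g = c * g_0`: it has such smooth local lifts. -/
def PullsBack (g : Met V) (Ψ : ℙ ℍ V → ℙ ℍ V) (c : ℝ) : Prop :=
  ∀ z₀ : V, z₀ ≠ 0 → ∃ U : Set V, IsOpen U ∧ z₀ ∈ U ∧ ∃ F : V → V,
    ContDiffOn ℝ ∞ F U ∧ ∀ z ∈ U, ∃ (hz : z ≠ 0) (hF : F z ≠ 0),
      Ψ (Projectivization.mk ℍ z hz) = Projectivization.mk ℍ (F z) hF ∧
      ∀ u w, g (F z) (fderiv ℝ F z u) (fderiv ℝ F z w) = c * fs z u w

end Pool.Agent.Work.MP_8c604c_gt.H.St
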